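import Pool.Agent.CALQ.Defs
import Pool.Agent.ANT.NG

set_option autoImplicit false

open Filter Topology Finset

namespace Pool.Agent.CALQ

open Pool.Agent.ANT (IsReflexive IsGrothendieck exists_ulim)

variable {𝕜 : Type*} [RCLike 𝕜] {X : Type*} [NormedAddCommGroup X] [NormedSpace 𝕜 X]

/-- the sum of the coordinate projections with indices in `E` -/
noncomputable def sumP (P : ℕ → X →L[𝕜] X) (E : Finset ℕ) : X →L[𝕜] X := ∑ n ∈ E, P n

/-- the projections of the blocking given by `t` -/
noncomputable def blk (P : ℕ → X →L[𝕜] X) (t : ℕ → ℕ) (j : ℕ) : X →L[𝕜] X :=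
  ∑ n ∈ Ico (t j) (t (j + 1)), P n

/-- The space of the block-diagonal operators for the blocking `t`: those which map the range
of every block projection into itself. -/
def BD (P : ℕ → X →L[𝕜] X) (t : ℕ → ℕ) : Submodule 𝕜 (X →L[𝕜] X) where
  carrier := {T | ∀ j x, blk P t j (T (blk P t j x)) = T (blk P t j x)}
  add_mem' := fun {a b} ha hb j x => by
    rw [ContinuousLinearMap.add_apply, map_add, ha j x, hb j x]
  zero_mem' := fun j x => by simp
  smul_mem' := fun c T hT j x => by
    rw [ContinuousLinearMap.smul_apply, map_smul, hT j x]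

variable {P : ℕ → X →L[𝕜] X}

theorem blk_eq (t : ℕ → ℕ) (j : ℕ) : blk P t j = sumP P (Ico (t j) (t (j + 1))) := rfl

theorem sumP_apply (E : Finset ℕ) (x : X) : sumP P E x = ∑ n ∈ E, P n x := by
  simp [sumP]

theorem sumP_sumP (hP : IsUFDD P) (E F : Finset ℕ) (x : X) :
    sumP P E (sumP P F x) = sumP P (E ∩ F) x := by
  classical
  rw [sumP_apply, sumP_apply, sumP_apply]
  simp only [map_sum, hP.2.1]
  rw [Finset.sum_comm]
  have h1 : ∀ k ∈ F, ∑ n ∈ E, (if n = k then P k x else 0) = if k ∈ E then P k x else 0 := by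
    intro k _
    rw [Finset.sum_ite_eq']
  rw [Finset.sum_congr rfl h1, ← Finset.sum_filter, Finset.filter_mem_eq_inter,
    Finset.inter_comm]

theorem sumP_comp (hP : IsUFDD P) (E F : Finset ℕ) :
    (sumP P E).comp (sumP P F) = sumP P (E ∩ F) := by
  ext x; exact sumP_sumP hP E F x

theorem sumP_union {E F : Finset ℕ} (h : Disjoint E F) :
    sumP P (E ∪ F) = sumP P E + sumP P F := by
  rw [sumP, Finset.sum_union h]; rfl

theorem sumP_lim (hP : IsUFDD P) (x : X) :
    Tendsto (fun N => sumP P (range N) x) atTop (𝓝 x) := by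
  simp only [sumP_apply]
  exact (hP.2.2 x).tendsto_sum_nat

theorem exists_bound [CompleteSpace X] (hP : IsUFDD P) :
    ∃ K : ℝ, 1 ≤ K ∧ ∀ E : Finset ℕ, ‖sumP P E‖ ≤ K := by
  classical
  obtain ⟨C, hC⟩ := banach_steinhaus (g := fun G : Finset ℕ => sumP P G) (fun x => by
    have hv := (hP.2.2 x).summable
    obtain ⟨s, hs⟩ := summable_iff_vanishing_norm.1 hv 1 one_pos
    refine ⟨∑ n ∈ s, ‖P n x‖ + 1, fun G => ?_⟩
    rw [sumP_apply, ← Finset.sum_inter_add_sum_sdiff G s (fun n => P n x)]
    refine (norm_add_le _ _).trans (add_le_add ?_ ?_)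
    · refine (norm_sum_le _ _).trans ?_
      exact Finset.sum_le_sum_of_subset_of_nonneg Finset.inter_subset_right
        (fun _ _ _ => norm_nonneg _)
    · exact (hs _ Finset.sdiff_disjoint).le)
  exact ⟨max C 1, le_max_right _ _, fun E => (hC E).trans (le_max_left _ _)⟩

/-- limits of bounded sequences of operators in the weak operator topology -/
theorem wot (hX : IsReflexive 𝕜 X) (U : Ultrafilter ℕ) (T : ℕ → X →L[𝕜] X) (M : ℝ)
    (hT : ∀ m, ‖T m‖ ≤ M) :
    ∃ S : X →L[𝕜] X, ‖S‖ ≤ M ∧ ∀ (y : X →L[𝕜] 𝕜) (x : X),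
      Tendsto (fun m => y (T m x)) U (𝓝 (y (S x))) := by
  have hM0 : 0 ≤ M := (norm_nonneg _).trans (hT 0)
  have h1 : ∀ x : X, ∃ z : X, ∀ y : X →L[𝕜] 𝕜, Tendsto (fun m => y (T m x)) U (𝓝 (y z)) := by
    intro x
    obtain ⟨φ, -, hφ⟩ := exists_ulim (𝕜 := 𝕜) (V := X →L[𝕜] 𝕜) U
      (fun m => ContinuousLinearMap.apply 𝕜 𝕜 (T m x)) (M * ‖x‖) (by
        intro y m
        simp only [ContinuousLinearMap.apply_apply]
        calc ‖y (T m x)‖ ≤ ‖y‖ * ‖T m x‖ := y.le_opNorm _
          _ ≤ ‖y‖ * (M * ‖x‖) := by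
              refine mul_le_mul_of_nonneg_left ?_ (norm_nonneg _)
              exact (T m).le_of_opNorm_le (hT m) x
          _ = M * ‖x‖ * ‖y‖ := by ring)
    obtain ⟨z, hz⟩ := hX φ
    refine ⟨z, fun y => ?_⟩
    have := hφ y
    rw [hz y] at this
    simpa using this
  choose S hS using h1
  have hadd : ∀ x x', S (x + x') = S x + S x' := by
    intro x x'
    rw [NormedSpace.eq_iff_forall_dual_eq 𝕜]
    intro y
    have h2 := (hS x y).add (hS x' y)
    have h3 := hS (x + x') y
    simp only [map_add] at h3 h2 ⊢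
    exact tendsto_nhds_unique h3 h2
  have hsmul : ∀ (a : 𝕜) x, S (a • x) = a • S x := by
    intro a x
    rw [NormedSpace.eq_iff_forall_dual_eq 𝕜]
    intro y
    have h2 := (hS x y).const_mul a
    have h3 := hS (a • x) y
    simp only [map_smul, smul_eq_mul] at h3 h2 ⊢
    exact tendsto_nhds_unique h3 h2
  have hbd : ∀ x, ‖S x‖ ≤ M * ‖x‖ := by
    intro x
    refine NormedSpace.norm_le_dual_bound 𝕜 _ (by positivity) (fun y => ?_)
    refine le_of_tendsto (hS x y).norm (Eventually.of_forall (fun m => ?_))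
    calc ‖y (T m x)‖ ≤ ‖y‖ * ‖T m x‖ := y.le_opNorm _
      _ ≤ ‖y‖ * (M * ‖x‖) := by
          refine mul_le_mul_of_nonneg_left ?_ (norm_nonneg _)
          exact (T m).le_of_opNorm_le (hT m) x
      _ = M * ‖x‖ * ‖y‖ := by ring
  let S' : X →L[𝕜] X := LinearMap.mkContinuous
    { toFun := S, map_add' := hadd, map_smul' := hsmul } M hbd
  exact ⟨S', LinearMap.mkContinuous_norm_le _ hM0 _, fun y x => hS x y⟩

/-- averaging over signs -/
theorem sign_avg {E : Type*} [NormedAddCommGroup E] [NormedSpace 𝕜 E] (u : ℕ → ℕ → E) (C : ℝ)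
    (n : ℕ) : ∀ v : E, (∀ ε : ℕ → 𝕜, (∀ j, ε j = 1 ∨ ε j = -1) →
      ‖v + ∑ j ∈ range n, ∑ l ∈ range n, (ε j * ε l) • u j l‖ ≤ C) →
      ‖v + ∑ j ∈ range n, u j j‖ ≤ C := by
  classical
  induction n with
  | zero =>
    intro v h
    have := h (fun _ => 1) (fun _ => Or.inl rfl)
    simpa using this
  | succ n ih =>
    intro v h
    rw [Finset.sum_range_succ, add_comm (∑ j ∈ range n, u j j), ← add_assoc]
    refine ih (v + u n n) (fun ε hε => ?_)
    -- the value with the last sign `s`
    have key : ∀ s : 𝕜, s * s = 1 → v + ∑ j ∈ range (n + 1), ∑ l ∈ range (n + 1),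
        (Function.update ε n s j * Function.update ε n s l) • u j l =
        (v + u n n + ∑ j ∈ range n, ∑ l ∈ range n, (ε j * ε l) • u j l) +
          s • (∑ j ∈ range n, ε j • u j n + ∑ l ∈ range n, ε l • u n l) := by
      intro s hs
      have hne : ∀ j ∈ range n, Function.update ε n s j = ε j := by
        intro j hj
        rw [Function.update_of_ne]
        exact (Finset.mem_range.1 hj).ne
      have h1 : ∑ j ∈ range (n + 1), ∑ l ∈ range (n + 1),
          (Function.update ε n s j * Function.update ε n s l) • u j l =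
          ∑ j ∈ range n, (∑ l ∈ range n, (ε j * ε l) • u j l + (ε j * s) • u j n) +
          (∑ l ∈ range n, (s * ε l) • u n l + (s * s) • u n n) := by
        rw [Finset.sum_range_succ]
        congr 1
        · refine Finset.sum_congr rfl (fun j hj => ?_)
          rw [Finset.sum_range_succ, hne j hj, Function.update_self]
          congr 1
          exact Finset.sum_congr rfl (fun l hl => by rw [hne l hl])
        · rw [Finset.sum_range_succ, Function.update_self]
          congr 1
          exact Finset.sum_congr rfl (fun l hl => by rw [hne l hl])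
      rw [h1, hs, one_smul, Finset.sum_add_distrib, smul_add, Finset.smul_sum, Finset.smul_sum]
      have h2 : ∑ j ∈ range n, (ε j * s) • u j n = ∑ j ∈ range n, s • ε j • u j n :=
        Finset.sum_congr rfl (fun j _ => by rw [smul_smul, mul_comm])
      have h3 : ∑ l ∈ range n, (s * ε l) • u n l = ∑ l ∈ range n, s • ε l • u n l :=
        Finset.sum_congr rfl (fun l _ => by rw [smul_smul])
      rw [h2, h3]
      abel
    have hs : ∀ s : 𝕜, (s = 1 ∨ s = -1) → ∀ j, Function.update ε n s j = 1 ∨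
        Function.update ε n s j = -1 := by
      intro s hs j
      by_cases hj : j = n
      · subst hj; rw [Function.update_self]; exact hs
      · rw [Function.update_of_ne hj]; exact hε j
    have hp := h _ (hs 1 (Or.inl rfl))
    have hm := h _ (hs (-1) (Or.inr rfl))
    rw [key 1 (by ring)] at hp
    rw [key (-1) (by ring)] at hm
    set A := v + u n n + ∑ j ∈ range n, ∑ l ∈ range n, (ε j * ε l) • u j l
    set B := ∑ j ∈ range n, ε j • u j n + ∑ l ∈ range n, ε l • u n l
    have h4 : (2 : 𝕜) • A = (A + (1 : 𝕜) • B) + (A + (-1 : 𝕜) • B) := by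
      rw [two_smul, one_smul, neg_smul, one_smul]; abel
    have h5 : ‖(2 : 𝕜) • A‖ ≤ C + C := by
      rw [h4]; exact (norm_add_le _ _).trans (add_le_add hp hm)
    rw [norm_smul, RCLike.norm_ofNat] at h5
    linarith

end Pool.Agent.CALQ
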