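import Pool.Agent.CALQ.BDa

set_option autoImplicit false

open Filter Topology Finset

namespace Pool.Agent.CALQ

open Pool.Agent.ANT (IsReflexive IsGrothendieck exists_ulim)

variable {𝕜 : Type*} [RCLike 𝕜] {X : Type*} [NormedAddCommGroup X] [NormedSpace 𝕜 X]
variable {P : ℕ → X →L[𝕜] X}

theorem Ico_disj {t : ℕ → ℕ} (ht : StrictMono t) {j k : ℕ} (h : j ≠ k) :
    Disjoint (Ico (t j) (t (j + 1))) (Ico (t k) (t (k + 1))) := by
  rw [Finset.disjoint_left]
  intro a ha hb
  rw [Finset.mem_Ico] at ha hb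
  rcases Nat.lt_or_gt_of_ne h with h1 | h1
  · have := ht.monotone (show j + 1 ≤ k by omega)
    omega
  · have := ht.monotone (show k + 1 ≤ j by omega)
    omega

theorem blk_blk (hP : IsUFDD P) {t : ℕ → ℕ} (ht : StrictMono t) (j k : ℕ) :
    (blk P t j).comp (blk P t k) = if j = k then blk P t j else 0 := by
  rw [blk_eq, blk_eq, sumP_comp hP]
  split_ifs with h
  · rw [h, Finset.inter_self]
  · rw [Finset.disjoint_iff_inter_eq_empty.1 (Ico_disj ht h)]
    simp [sumP]

theorem sum_blk {t : ℕ → ℕ} (ht : StrictMono t) (A : Finset ℕ) :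
    ∑ j ∈ A, blk P t j = sumP P (A.biUnion fun j => Ico (t j) (t (j + 1))) := by
  classical
  rw [sumP, Finset.sum_biUnion]
  · rfl
  · intro j _ k _ h
    exact Ico_disj ht h

theorem sum_blk_range {t : ℕ → ℕ} (ht : StrictMono t) (h0 : t 0 = 0) (n : ℕ) :
    ∑ j ∈ range n, blk P t j = sumP P (range (t n)) := by
  induction n with
  | zero => simp [h0, sumP]
  | succ n ih =>
    rw [Finset.sum_range_succ, ih, blk_eq, ← sumP_union]
    · congr 1
      ext a
      simp only [Finset.mem_union, Finset.mem_range, Finset.mem_Ico]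
      have := ht.monotone (show n ≤ n + 1 by omega)
      omega
    · rw [Finset.disjoint_left]
      intro a ha hb
      rw [Finset.mem_range] at ha
      rw [Finset.mem_Ico] at hb
      omega

theorem signs_bound {K : ℝ} (hK : ∀ E : Finset ℕ, ‖sumP P E‖ ≤ K) {t : ℕ → ℕ}
    (ht : StrictMono t) (ε : ℕ → 𝕜) (hε : ∀ j, ε j = 1 ∨ ε j = -1) (n : ℕ) :
    ‖∑ j ∈ range n, ε j • blk P t j‖ ≤ 2 * K := by
  classical
  rw [← Finset.sum_filter_add_sum_filter_not (range n) (fun j => ε j = 1)]
  have h1 : ∑ j ∈ (range n).filter (fun j => ε j = 1), ε j • blk P t j =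
      ∑ j ∈ (range n).filter (fun j => ε j = 1), blk P t j := by
    refine Finset.sum_congr rfl (fun j hj => ?_)
    rw [(Finset.mem_filter.1 hj).2, one_smul]
  have h2 : ∑ j ∈ (range n).filter (fun j => ¬ ε j = 1), ε j • blk P t j =
      - ∑ j ∈ (range n).filter (fun j => ¬ ε j = 1), blk P t j := by
    rw [← Finset.sum_neg_distrib]
    refine Finset.sum_congr rfl (fun j hj => ?_)
    rw [(hε j).resolve_left (Finset.mem_filter.1 hj).2, neg_smul, one_smul]
  rw [h1, h2, sum_blk ht, sum_blk ht]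
  refine (norm_add_le _ _).trans ?_
  rw [norm_neg]
  have := hK ((filter (fun j => ε j = 1) (range n)).biUnion fun j => Ico (t j) (t (j + 1)))
  have := hK ((filter (fun j => ¬ ε j = 1) (range n)).biUnion fun j => Ico (t j) (t (j + 1)))
  linarith

theorem delta_bound {K : ℝ} (hK : ∀ E : Finset ℕ, ‖sumP P E‖ ≤ K) {t : ℕ → ℕ}
    (ht : StrictMono t) (T : X →L[𝕜] X) (n : ℕ) :
    ‖∑ j ∈ range n, (blk P t j).comp (T.comp (blk P t j))‖ ≤ (2 * K) ^ 2 * ‖T‖ := by
  have hK0 : 0 ≤ K := (norm_nonneg _).trans (hK ∅)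
  have h := sign_avg (𝕜 := 𝕜) (fun j l => (blk P t j).comp (T.comp (blk P t l)))
    ((2 * K) ^ 2 * ‖T‖) n 0 (fun ε hε => ?_)
  · simpa using h
  · have h1 : ∑ j ∈ range n, ∑ l ∈ range n,
        (ε j * ε l) • (blk P t j).comp (T.comp (blk P t l)) =
        (∑ j ∈ range n, ε j • blk P t j).comp (T.comp (∑ l ∈ range n, ε l • blk P t l)) := by
      ext x
      simp only [ContinuousLinearMap.comp_apply, _root_.sum_apply,
        _root_.smul_apply, map_sum, map_smul, Finset.smul_sum]
      rw [Finset.sum_comm]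
      refine Finset.sum_congr rfl (fun j _ => Finset.sum_congr rfl (fun l _ => ?_))
      rw [smul_smul, mul_comm]
    rw [zero_add, h1]
    calc _ ≤ ‖∑ j ∈ range n, ε j • blk P t j‖ *
          (‖T‖ * ‖∑ l ∈ range n, ε l • blk P t l‖) :=
          (ContinuousLinearMap.opNorm_comp_le _ _).trans
            (mul_le_mul_of_nonneg_left (ContinuousLinearMap.opNorm_comp_le _ _) (norm_nonneg _))
      _ ≤ (2 * K) * (‖T‖ * (2 * K)) := by
          have := signs_bound hK ht ε hε n
          gcongr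
      _ = (2 * K) ^ 2 * ‖T‖ := by ring

theorem ext_blk [CompleteSpace X] (hP : IsUFDD P) {t : ℕ → ℕ} (ht : StrictMono t) (h0 : t 0 = 0)
    (A B : X →L[𝕜] X) (h : ∀ j, A.comp (blk P t j) = B.comp (blk P t j)) : A = B := by
  have h1 : ∀ n, A.comp (sumP P (range (t n))) = B.comp (sumP P (range (t n))) := by
    intro n
    rw [← sum_blk_range ht h0]
    ext x
    simp only [ContinuousLinearMap.comp_apply, _root_.sum_apply, map_sum]
    refine Finset.sum_congr rfl (fun j _ => ?_)
    exact DFunLike.congr_fun (h j) x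
  ext x
  have h2 : Tendsto (fun n => sumP P (range (t n)) x) atTop (𝓝 x) :=
    (sumP_lim hP x).comp ht.tendsto_atTop
  have h3 := (A.continuous.tendsto x).comp h2
  have h4 := (B.continuous.tendsto x).comp h2
  refine tendsto_nhds_unique h3 (h4.congr (fun n => ?_))
  exact (DFunLike.congr_fun (h1 n) x).symm

/-- The projection onto the block-diagonal operators. -/
theorem exists_delta [CompleteSpace X] (hX : IsReflexive 𝕜 X) (hP : IsUFDD P) {t : ℕ → ℕ}
    (ht : StrictMono t) (h0 : t 0 = 0) :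
    ∃ Δ : (X →L[𝕜] X) →L[𝕜] (X →L[𝕜] X), ∀ T j,
      (blk P t j).comp (Δ T) = (blk P t j).comp (T.comp (blk P t j)) ∧
      (Δ T).comp (blk P t j) = (blk P t j).comp (T.comp (blk P t j)) := by
  classical
  obtain ⟨K, hK1, hK⟩ := exists_bound hP
  let U : Ultrafilter ℕ := Ultrafilter.of atTop
  have hU : (U : Filter ℕ) ≤ atTop := Ultrafilter.of_le atTop
  have hw := fun T : X →L[𝕜] X => wot hX U
    (fun n => ∑ j ∈ range n, (blk P t j).comp (T.comp (blk P t j))) ((2 * K) ^ 2 * ‖T‖)
    (delta_bound hK ht T)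
  choose Δ hΔn hΔ using hw
  have hright : ∀ T j, (Δ T).comp (blk P t j) = (blk P t j).comp (T.comp (blk P t j)) := by
    intro T j
    ext x
    rw [SeparatingDual.eq_iff_forall_dual_eq (R := 𝕜)]
    intro y
    refine tendsto_nhds_unique (hΔ T y (blk P t j x)) (tendsto_const_nhds.congr' ?_)
    refine hU ?_
    refine Filter.mem_of_superset (Filter.mem_atTop (j + 1)) (fun n hn => ?_)
    change _ = y ((∑ i ∈ range n, (blk P t i).comp (T.comp (blk P t i))) (blk P t j x))
    rw [_root_.sum_apply, Finset.sum_eq_single j]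
    · have := DFunLike.congr_fun (blk_blk hP ht j j) x
      rw [if_pos rfl] at this
      simp only [ContinuousLinearMap.comp_apply] at this ⊢
      rw [this]
    · intro i _ hij
      have := DFunLike.congr_fun (blk_blk hP ht i j) x
      rw [if_neg hij] at this
      simp only [ContinuousLinearMap.comp_apply, _root_.zero_apply] at this ⊢
      rw [this, map_zero, map_zero]
    · intro hj
      exact absurd (Finset.mem_range.2 (show j < n from hn)) hj
  have hleft : ∀ T j, (blk P t j).comp (Δ T) = (blk P t j).comp (T.comp (blk P t j)) := by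
    intro T j
    ext x
    rw [SeparatingDual.eq_iff_forall_dual_eq (R := 𝕜)]
    intro y
    refine tendsto_nhds_unique (hΔ T (y.comp (blk P t j)) x) (tendsto_const_nhds.congr' ?_)
    refine hU ?_
    refine Filter.mem_of_superset (Filter.mem_atTop (j + 1)) (fun n hn => ?_)
    change _ = y (blk P t j ((∑ i ∈ range n, (blk P t i).comp (T.comp (blk P t i))) x))
    rw [_root_.sum_apply, map_sum, Finset.sum_eq_single j]
    · have := DFunLike.congr_fun (blk_blk hP ht j j) (T (blk P t j x))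
      rw [if_pos rfl] at this
      simp only [ContinuousLinearMap.comp_apply] at this ⊢
      rw [this]
    · intro i _ hij
      have := DFunLike.congr_fun (blk_blk hP ht j i) (T (blk P t i x))
      rw [if_neg (Ne.symm hij)] at this
      simp only [ContinuousLinearMap.comp_apply, _root_.zero_apply] at this ⊢
      rw [this]
    · intro hj
      exact absurd (Finset.mem_range.2 (show j < n from hn)) hj
  have hadd : ∀ T T', Δ (T + T') = Δ T + Δ T' := by
    intro T T'
    refine ext_blk hP ht h0 _ _ (fun j => ?_)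
    rw [ContinuousLinearMap.add_comp, hright, hright, hright, ContinuousLinearMap.add_comp,
      ContinuousLinearMap.comp_add]
  have hsmul : ∀ (a : 𝕜) T, Δ (a • T) = a • Δ T := by
    intro a T
    refine ext_blk hP ht h0 _ _ (fun j => ?_)
    rw [ContinuousLinearMap.smul_comp, hright, hright, ContinuousLinearMap.smul_comp,
      ContinuousLinearMap.comp_smul]
  exact ⟨LinearMap.mkContinuous { toFun := Δ, map_add' := hadd, map_smul' := hsmul }
    ((2 * K) ^ 2) hΔn, fun T j => ⟨hleft T j, hright T j⟩⟩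

theorem delta_mem (hP : IsUFDD P) {t : ℕ → ℕ} (ht : StrictMono t)
    {Δ : (X →L[𝕜] X) →L[𝕜] (X →L[𝕜] X)}
    (hΔ : ∀ T j, (Δ T).comp (blk P t j) = (blk P t j).comp (T.comp (blk P t j)))
    (T : X →L[𝕜] X) : Δ T ∈ BD P t := by
  intro j x
  have h1 := DFunLike.congr_fun (hΔ T j) x
  have h2 := DFunLike.congr_fun (blk_blk hP ht j j) (T (blk P t j x))
  rw [if_pos rfl] at h2
  simp only [ContinuousLinearMap.comp_apply] at h1 h2
  rw [h1, h2]

theorem delta_fix [CompleteSpace X] (hP : IsUFDD P) {t : ℕ → ℕ} (ht : StrictMono t) (h0 : t 0 = 0)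
    {Δ : (X →L[𝕜] X) →L[𝕜] (X →L[𝕜] X)}
    (hΔ : ∀ T j, (Δ T).comp (blk P t j) = (blk P t j).comp (T.comp (blk P t j)))
    (T : X →L[𝕜] X) (hT : T ∈ BD P t) : Δ T = T := by
  refine ext_blk hP ht h0 _ _ (fun j => ?_)
  rw [hΔ]
  ext x
  exact hT j x

/-- (a) implies (c) -/
theorem bd_of_full [CompleteSpace X] (hX : IsReflexive 𝕜 X) (hP : IsUFDD P) {t : ℕ → ℕ}
    (ht : StrictMono t) (h0 : t 0 = 0) (hG : IsGrothendieck 𝕜 (X →L[𝕜] X)) :
    IsGrothendieck 𝕜 (BD P t) := by
  obtain ⟨Δ, hΔ⟩ := exists_delta hX hP ht h0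
  have hΔr := fun T j => (hΔ T j).2
  let D : (X →L[𝕜] X) →L[𝕜] BD P t := Δ.codRestrict _ (fun T => delta_mem hP ht hΔr T)
  have hD : ∀ V : BD P t, D V = V := fun V => Subtype.ext (delta_fix hP ht h0 hΔr V.1 V.2)
  intro f g hfg Φ
  -- restriction of functionals of `B(X)`
  let R : ((X →L[𝕜] X) →L[𝕜] 𝕜) →L[𝕜] (BD P t →L[𝕜] 𝕜) :=
    ContinuousLinearMap.precomp 𝕜 (BD P t).subtypeL
  have hR : ∀ φ : BD P t →L[𝕜] 𝕜, R (φ.comp D) = φ := by
    intro φ
    ext V
    change φ (D V) = φ V
    rw [hD]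
  have h1 := hG (fun n => (f n).comp D) (g.comp D) (fun T => hfg (D T)) (Φ.comp R)
  simpa only [ContinuousLinearMap.comp_apply, hR] using h1

end Pool.Agent.CALQ
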