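import Mathlib
import Pool.Agent.ANT.Defs

/-!
# Grothendieck spaces and surjections
-/

set_option autoImplicit false

open Filter Topology

namespace Pool.Agent.CALQ

variable {𝕜 : Type*} [RCLike 𝕜]

/-- A functional on the dual of `F` extends along the adjoint of a surjection `R : E → F`. -/
theorem exists_bidual_lift {E F : Type*} [NormedAddCommGroup E] [NormedSpace 𝕜 E]
    [CompleteSpace E] [NormedAddCommGroup F] [NormedSpace 𝕜 F] [CompleteSpace F]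
    (R : E →L[𝕜] F) (hR : Function.Surjective R) (Ψ : (F →L[𝕜] 𝕜) →L[𝕜] 𝕜) :
    ∃ Φ : (E →L[𝕜] 𝕜) →L[𝕜] 𝕜, ∀ f : F →L[𝕜] 𝕜, Φ (f.comp R) = Ψ f := by
  obtain ⟨C, hC, hpre⟩ := R.exists_preimage_norm_le hR
  let Rs : (F →L[𝕜] 𝕜) →L[𝕜] (E →L[𝕜] 𝕜) := (ContinuousLinearMap.compL 𝕜 E F 𝕜).flip R
  have hRs : ∀ f, Rs f = f.comp R := fun f => rfl
  have hbelow : ∀ f : F →L[𝕜] 𝕜, ‖f‖ ≤ C * ‖Rs f‖ := by
    intro f
    refine f.opNorm_le_bound (by positivity) (fun y => ?_)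
    obtain ⟨x, hx, hxn⟩ := hpre y
    rw [← hx]
    calc ‖f (R x)‖ = ‖Rs f x‖ := rfl
      _ ≤ ‖Rs f‖ * ‖x‖ := (Rs f).le_opNorm x
      _ ≤ ‖Rs f‖ * (C * ‖y‖) := mul_le_mul_of_nonneg_left hxn (norm_nonneg _)
      _ = C * ‖Rs f‖ * ‖R x‖ := by rw [hx]; ring
  have hinj : Function.Injective (Rs : (F →L[𝕜] 𝕜) →ₗ[𝕜] (E →L[𝕜] 𝕜)) := by
    rw [← LinearMap.ker_eq_bot, LinearMap.ker_eq_bot']
    intro f hf
    have h1 := hbelow f
    have h2 : Rs f = 0 := hf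
    rw [h2, norm_zero, mul_zero] at h1
    exact norm_le_zero_iff.1 h1
  let e := LinearEquiv.ofInjective (Rs : (F →L[𝕜] 𝕜) →ₗ[𝕜] (E →L[𝕜] 𝕜)) hinj
  let g : LinearMap.range (Rs : (F →L[𝕜] 𝕜) →ₗ[𝕜] (E →L[𝕜] 𝕜)) →L[𝕜] 𝕜 :=
    LinearMap.mkContinuous
      { toFun := fun y => Ψ (e.symm y)
        map_add' := fun x y => by rw [map_add, map_add]
        map_smul' := fun c x => by rw [map_smul, map_smul, RingHom.id_apply] } (‖Ψ‖ * C)
      (fun y => by
        have h1 : Rs (e.symm y) = y := by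
          have := e.apply_symm_apply y
          exact congrArg Subtype.val this
        have h2 := hbelow (e.symm y)
        rw [h1] at h2
        change ‖Ψ (e.symm y)‖ ≤ ‖Ψ‖ * C * ‖y‖
        calc ‖Ψ (e.symm y)‖ ≤ ‖Ψ‖ * ‖e.symm y‖ := Ψ.le_opNorm _
          _ ≤ ‖Ψ‖ * (C * ‖y‖) := mul_le_mul_of_nonneg_left h2 (norm_nonneg Ψ)
          _ = ‖Ψ‖ * C * ‖y‖ := by ring)
  obtain ⟨Φ, hΦ, -⟩ := exists_extension_norm_eq
    (LinearMap.range (Rs : (F →L[𝕜] 𝕜) →ₗ[𝕜] (E →L[𝕜] 𝕜))) g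
  refine ⟨Φ, fun f => ?_⟩
  have h1 := hΦ (e f)
  have h2 : g (e f) = Ψ f := by
    change Ψ (e.symm (e f)) = Ψ f
    rw [e.symm_apply_apply]
  rw [h2] at h1
  exact h1

/-- The Grothendieck property passes to images under bounded surjections, in particular to
quotients and to complemented subspaces. -/
theorem grothendieck_of_surjective {E F : Type*} [NormedAddCommGroup E] [NormedSpace 𝕜 E]
    [CompleteSpace E] [NormedAddCommGroup F] [NormedSpace 𝕜 F] [CompleteSpace F]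
    (R : E →L[𝕜] F) (hR : Function.Surjective R) (hE : Pool.Agent.ANT.IsGrothendieck 𝕜 E) :
    Pool.Agent.ANT.IsGrothendieck 𝕜 F := by
  intro f g hfg Ψ
  obtain ⟨Φ, hΦ⟩ := exists_bidual_lift R hR Ψ
  have h1 := hE (fun n => (f n).comp R) (g.comp R) (fun x => hfg (R x)) Φ
  simpa only [hΦ] using h1

/-- It is enough to consider sequences of functionals with limit `0`. -/
theorem grothendieck_of_zero {E : Type*} [NormedAddCommGroup E] [NormedSpace 𝕜 E]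
    (h : ∀ f : ℕ → E →L[𝕜] 𝕜, (∀ x, Tendsto (fun n => f n x) atTop (𝓝 0)) →
      ∀ P : (E →L[𝕜] 𝕜) →L[𝕜] 𝕜, Tendsto (fun n => P (f n)) atTop (𝓝 0)) :
    Pool.Agent.ANT.IsGrothendieck 𝕜 E := by
  intro f g hfg P
  have h1 := h (fun n => f n - g) (fun x => by
    have := (hfg x).sub_const (g x)
    simpa using this) P
  have h2 := h1.add_const (P g)
  simpa using h2

end Pool.Agent.CALQ
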