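import Mathlib

set_option autoImplicit false

namespace Pool.Agent.CALQ

open Filter Topology

/-- Helly's (Goldstine's) theorem for finitely many functionals -/
theorem helly {𝕜 : Type*} [RCLike 𝕜] {E : Type*} [NormedAddCommGroup E] [NormedSpace 𝕜 E]
    (Φ : (E →L[𝕜] 𝕜) →L[𝕜] 𝕜) (f : ℕ → E →L[𝕜] 𝕜) (m : ℕ) (ε : ℝ) (hε : 0 < ε) :
    ∃ T : E, ‖T‖ ≤ ‖Φ‖ + 1 ∧ ∀ n ≤ m, ‖f n T - Φ (f n)‖ ≤ ε := by
  classical
  let _ : NormedSpace ℝ E := NormedSpace.restrictScalars ℝ 𝕜 E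
  have _ : IsScalarTower ℝ 𝕜 E := RestrictScalars.isScalarTower _ _ _
  set R : ℝ := ‖Φ‖ + 1 with hR
  have hR0 : 0 < R := by positivity
  let L : E →L[𝕜] (Fin (m + 1) → 𝕜) := ContinuousLinearMap.pi (fun i => f i)
  have hL : ∀ T i, L T i = f i T := fun T i => rfl
  let v : Fin (m + 1) → 𝕜 := fun i => Φ (f i)
  have hconv : Convex ℝ (L '' Metric.closedBall (0 : E) R) := by
    have h1 : Convex ℝ (Metric.closedBall (0 : E) R) := convex_closedBall _ _
    exact h1.linear_image ((L : E →ₗ[𝕜] (Fin (m + 1) → 𝕜)).restrictScalars ℝ)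
  have hv : v ∈ closure (L '' Metric.closedBall (0 : E) R) := by
    by_contra hv
    obtain ⟨g, u, hg1, hg2⟩ :=
      RCLike.geometric_hahn_banach_closed_point (𝕜 := 𝕜) hconv.closure isClosed_closure hv
    have hu : 0 < u := by
      have := hg1 0 (subset_closure ⟨0, by simp [hR0.le], by simp⟩)
      simpa using this
    set h : E →L[𝕜] 𝕜 := g.comp L with hh
    have hbd : ∀ T, ‖h T‖ ≤ u / R * ‖T‖ := by
      intro T
      by_cases hT : T = 0
      · simp [hT]
      have hT0 : 0 < ‖T‖ := norm_pos_iff.mpr hT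
      obtain ⟨c, hc1, hc2⟩ : ∃ c : 𝕜, ‖c‖ = 1 ∧ c * h T = ‖h T‖ := by
        by_cases h0 : h T = 0
        · exact ⟨1, by simp, by simp [h0]⟩
        · have h0' : ‖h T‖ ≠ 0 := norm_ne_zero_iff.mpr h0
          refine ⟨(‖h T‖ : 𝕜) / h T, ?_, ?_⟩
          · rw [norm_div, RCLike.norm_ofReal, abs_norm, div_self h0']
          · rw [div_mul_cancel₀ _ h0]
      let T' : E := ((R / ‖T‖ : ℝ) : 𝕜) • (c • T)
      have hT' : ‖T'‖ ≤ R := by
        simp only [T', norm_smul, RCLike.norm_ofReal, hc1, one_mul]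
        rw [abs_of_nonneg (by positivity), div_mul_cancel₀ _ hT0.ne']
      have h1 := hg1 (L T') (subset_closure ⟨T', by simpa using hT', rfl⟩)
      have h2 : g (L T') = ((R / ‖T‖ * ‖h T‖ : ℝ) : 𝕜) := by
        have h3 : g (L T') = h T' := rfl
        rw [h3]
        simp only [T', map_smul, smul_eq_mul]
        rw [hc2]
        push_cast
        ring
      rw [h2, RCLike.ofReal_re] at h1
      rw [div_mul_eq_mul_div, le_div_iff₀ hR0]
      rw [div_mul_eq_mul_div, div_lt_iff₀ hT0] at h1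
      nlinarith
    have hn : ‖h‖ ≤ u / R := h.opNorm_le_bound (by positivity) hbd
    have hΦ : Φ h = g v := by
      have h1 : h = ∑ i : Fin (m + 1), (g (Pi.single i (1 : 𝕜))) • f i := by
        ext T
        have h2 : L T = ∑ i : Fin (m + 1), (f i T) • (Pi.single i (1 : 𝕜) : Fin (m + 1) → 𝕜) := by
          ext j
          simp [hL, Finset.sum_apply, Pi.single_apply]
        rw [hh, ContinuousLinearMap.comp_apply, h2, map_sum, _root_.sum_apply]
        refine Finset.sum_congr rfl fun i _ => ?_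
        rw [map_smul, smul_eq_mul, _root_.smul_apply, smul_eq_mul, mul_comm]
      have h3 : v = ∑ i : Fin (m + 1), (Φ (f i)) • (Pi.single i (1 : 𝕜) : Fin (m + 1) → 𝕜) := by
        ext j
        simp [v, Finset.sum_apply, Pi.single_apply]
      rw [h1, map_sum, h3, map_sum]
      refine Finset.sum_congr rfl fun i _ => ?_
      rw [map_smul, map_smul, smul_eq_mul, smul_eq_mul, mul_comm]
    have h4 : RCLike.re (g v) ≤ ‖Φ‖ * (u / R) := by
      rw [← hΦ]
      calc RCLike.re (Φ h) ≤ ‖Φ h‖ := RCLike.re_le_norm _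
        _ ≤ ‖Φ‖ * ‖h‖ := Φ.le_opNorm h
        _ ≤ ‖Φ‖ * (u / R) := by gcongr
    have h5 : ‖Φ‖ * (u / R) ≤ u := by
      rw [mul_div_assoc', div_le_iff₀ hR0]
      nlinarith [norm_nonneg Φ]
    linarith
  rw [Metric.mem_closure_iff] at hv
  obtain ⟨_, ⟨T, hT, rfl⟩, hd⟩ := hv ε hε
  refine ⟨T, by simpa using hT, fun n hn => ?_⟩
  have h1 := dist_le_pi_dist v (L T) ⟨n, by omega⟩
  rw [dist_comm, dist_eq_norm] at h1
  exact h1.trans hd.le

end Pool.Agent.CALQ
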