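import Pool.Agent.CALQ.Tri
import Pool.Agent.CALQ.Helly
import Pool.Agent.CALQ.Gro

set_option autoImplicit false

open Filter Topology Finset

namespace Pool.Agent.CALQ

open Pool.Agent.ANT (IsReflexive IsGrothendieck exists_ulim)

variable {𝕜 : Type*} [RCLike 𝕜] {X : Type*} [NormedAddCommGroup X] [NormedSpace 𝕜 X]
variable {P : ℕ → X →L[𝕜] X}

/-- ultrafilter values of a bounded sequence in a Grothendieck space tend to zero -/
lemma ulim_null' {G E : Type*} [NormedAddCommGroup G] [NormedSpace 𝕜 G] [NormedAddCommGroup E]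
    [NormedSpace 𝕜 E] (hG : IsGrothendieck 𝕜 G) (U : Ultrafilter ℕ) (ι : G →L[𝕜] E)
    (W : ℕ → G) (M : ℝ) (hM : ∀ m, ‖W m‖ ≤ M)
    (ψ : ℕ → E →L[𝕜] 𝕜) (hψ : ∀ T, Tendsto (fun k => ψ k T) atTop (𝓝 0)) :
    ∃ l : ℕ → 𝕜, (∀ k, Tendsto (fun m => ψ k (ι (W m))) U (𝓝 (l k))) ∧
      Tendsto l atTop (𝓝 0) := by
  obtain ⟨Λ, -, hΛ⟩ := exists_ulim (𝕜 := 𝕜) (V := G →L[𝕜] 𝕜) U
    (fun m => ContinuousLinearMap.apply 𝕜 𝕜 (W m)) M (by
      intro h m
      rw [ContinuousLinearMap.apply_apply, mul_comm]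
      exact (h.le_opNorm _).trans (mul_le_mul_of_nonneg_left (hM m) (norm_nonneg _)))
  refine ⟨fun k => Λ ((ψ k).comp ι), fun k => ?_, ?_⟩
  · exact hΛ ((ψ k).comp ι)
  · have h1 := hG (fun k => (ψ k).comp ι) 0 (fun T => by
      simpa using hψ (ι T)) Λ
    simpa using h1

/-- ultrafilter values of a bounded sequence of block-diagonal operators tend to zero -/
lemma ulim_null {t : ℕ → ℕ} (hG : IsGrothendieck 𝕜 (BD P t)) (U : Ultrafilter ℕ)
    (V : ℕ → X →L[𝕜] X) (hV : ∀ m, V m ∈ BD P t) (M : ℝ) (hM : ∀ m, ‖V m‖ ≤ M)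
    (ψ : ℕ → (X →L[𝕜] X) →L[𝕜] 𝕜) (hψ : ∀ T, Tendsto (fun k => ψ k T) atTop (𝓝 0)) :
    ∃ l : ℕ → 𝕜, (∀ k, Tendsto (fun m => ψ k (V m)) U (𝓝 (l k))) ∧
      Tendsto l atTop (𝓝 0) :=
  ulim_null' hG U (BD P t).subtypeL (fun m => ⟨V m, hV m⟩) M hM ψ hψ

/-- (c) implies (b) -/
theorem calkin_of_bd [CompleteSpace X] (hr : IsReflexive 𝕜 X) {P : ℕ → X →L[𝕜] X}
    (hP : IsUFDD P)
    (h : ∀ t : ℕ → ℕ, StrictMono t → t 0 = 0 → IsGrothendieck 𝕜 (BD P t)) :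
    IsGrothendieck 𝕜 (Calkin 𝕜 X) := by
  classical
  refine grothendieck_of_zero fun f hf Ψ => ?_
  let R : (X →L[𝕜] X) →L[𝕜] Calkin 𝕜 X := (compacts 𝕜 X).mkQL
  have hR : Function.Surjective R := (compacts 𝕜 X).mkQ_surjective
  obtain ⟨Φ, hΦ⟩ := exists_bidual_lift R hR Ψ
  let ψ : ℕ → (X →L[𝕜] X) →L[𝕜] 𝕜 := fun k => (f k).comp R
  have hψ0 : ∀ T, Tendsto (fun k => ψ k T) atTop (𝓝 0) := fun T => hf (R T)
  have hψc : ∀ k (T : X →L[𝕜] X), IsCompactOperator T → ψ k T = 0 := by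
    intro k T hT
    have h1 : R T = 0 := by
      rw [Submodule.mkQL_apply, Submodule.mkQ_apply, Submodule.Quotient.mk_eq_zero]
      exact hT
    change f k (R T) = 0
    rw [h1, map_zero]
  choose T hTn hT using fun m : ℕ => helly Φ ψ m (1 / ((m : ℝ) + 1)) (by positivity)
  obtain ⟨s, hs, h0, hst⟩ := blocking hr hP T
  have ht1 : StrictMono fun j => s (2 * j) := strictMono_even hs
  have ht2 : StrictMono fun j => s (2 * j - 1) := strictMono_odd hs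
  have h01 : (fun j => s (2 * j)) 0 = 0 := by simpa using h0
  have h02 : (fun j => s (2 * j - 1)) 0 = 0 := by simpa using h0
  obtain ⟨D1, hD1⟩ := exists_delta hr hP ht1 h01
  obtain ⟨D2, hD2⟩ := exists_delta hr hP ht2 h02
  obtain ⟨D3, hD3⟩ := exists_delta hr hP hs h0
  let U : Ultrafilter ℕ := Ultrafilter.of atTop
  have hU : (U : Filter ℕ) ≤ atTop := Ultrafilter.of_le atTop
  have hbd : ∀ (D : (X →L[𝕜] X) →L[𝕜] (X →L[𝕜] X)) m, ‖D (T m)‖ ≤ ‖D‖ * (‖Φ‖ + 1) :=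
    fun D m => (D.le_opNorm _).trans (mul_le_mul_of_nonneg_left (hTn m) (norm_nonneg _))
  obtain ⟨l1, hl1, hl1'⟩ := ulim_null (h _ ht1 h01) U (fun m => D1 (T m))
    (fun m => delta_mem hP ht1 (fun T j => (hD1 T j).2) (T m)) _ (hbd D1) ψ hψ0
  obtain ⟨l2, hl2, hl2'⟩ := ulim_null (h _ ht2 h02) U (fun m => D2 (T m))
    (fun m => delta_mem hP ht2 (fun T j => (hD2 T j).2) (T m)) _ (hbd D2) ψ hψ0
  obtain ⟨l3, hl3, hl3'⟩ := ulim_null (h _ hs h0) U (fun m => D3 (T m))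
    (fun m => delta_mem hP hs (fun T j => (hD3 T j).2) (T m)) _ (hbd D3) ψ hψ0
  have hcomb : ∀ k m, ψ k (T m) = ψ k (D1 (T m)) + ψ k (D2 (T m)) - ψ k (D3 (T m)) := by
    intro k m
    have h1 := hψc k _ (tri_compact hP hs h0 (m := m) (T := T m)
      (fun j hj => hst j m hj) (fun j => (hD1 (T m) j).1) (fun j => (hD2 (T m) j).1)
      (fun j => (hD3 (T m) j).1))
    rw [map_add, map_sub, map_sub] at h1
    linear_combination h1
  have hval : ∀ k, Φ (ψ k) = l1 k + l2 k - l3 k := by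
    intro k
    have h1 : Tendsto (fun m => ψ k (T m)) U (𝓝 (l1 k + l2 k - l3 k)) := by
      simp only [hcomb]
      exact ((hl1 k).add (hl2 k)).sub (hl3 k)
    have h2 : Tendsto (fun m => ψ k (T m)) atTop (𝓝 (Φ (ψ k))) := by
      rw [tendsto_iff_norm_sub_tendsto_zero]
      refine squeeze_zero' (Eventually.of_forall fun m => norm_nonneg _)
        ?_ tendsto_one_div_add_atTop_nhds_zero_nat
      filter_upwards [eventually_ge_atTop k] with m hm
      exact hT m k hm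
    exact tendsto_nhds_unique (h2.mono_left hU) h1
  have h3 : Tendsto (fun k => Φ (ψ k)) atTop (𝓝 0) := by
    simp only [hval]
    simpa using (hl1'.add hl2').sub hl3'
  exact h3.congr fun k => hΦ (f k)

end Pool.Agent.CALQ
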