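import Pool.Agent.ANT.Defs

set_option autoImplicit false

namespace Pool.Agent.CALQ

open Filter Topology Pool.Agent.ANT

/-- left multiplication `T ↦ F ∘ T` -/
noncomputable def lmul {𝕜 : Type*} [RCLike 𝕜] {X : Type*} [NormedAddCommGroup X]
    [NormedSpace 𝕜 X] (F : X →L[𝕜] X) : (X →L[𝕜] X) →L[𝕜] (X →L[𝕜] X) :=
  ContinuousLinearMap.compL 𝕜 X X X F

section

variable {𝕜 : Type*} [RCLike 𝕜] {X : Type*} [NormedAddCommGroup X] [NormedSpace 𝕜 X]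

@[simp] lemma lmul_apply (F T : X →L[𝕜] X) : lmul F T = F.comp T := rfl

/-- a finite rank operator is a finite sum of rank one operators -/
lemma fin_rank (F : X →L[𝕜] X) (hF : FiniteDimensional 𝕜 (LinearMap.range (F : X →ₗ[𝕜] X))) :
    ∃ (n : ℕ) (g : Fin n → X →L[𝕜] 𝕜) (y : Fin n → X), ∀ x, F x = ∑ k, g k x • y k := by
  classical
  let V := LinearMap.range (F : X →ₗ[𝕜] X)
  let b := Module.finBasis 𝕜 V
  let F' : X →L[𝕜] V := F.codRestrict V (fun x => ⟨x, rfl⟩)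
  refine ⟨Module.finrank 𝕜 V, fun k => (LinearMap.toContinuousLinearMap (b.coord k)).comp F',
    fun k => (b k : X), fun x => ?_⟩
  have h1 : (F' x : X) = F x := rfl
  have h2 := congrArg V.subtype (b.sum_repr (F' x))
  rw [map_sum] at h2
  rw [← h1]
  refine h2.symm.trans (Finset.sum_congr rfl fun k _ => ?_)
  rfl

/-- the functional `T ↦ f (T x)` -/
noncomputable def evB (𝕜 : Type*) [RCLike 𝕜] (X : Type*) [NormedAddCommGroup X]
    [NormedSpace 𝕜 X] : X →L[𝕜] (X →L[𝕜] 𝕜) →L[𝕜] ((X →L[𝕜] X) →L[𝕜] 𝕜) :=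
  (ContinuousLinearMap.compL 𝕜 (X →L[𝕜] X) X 𝕜).flip.comp (ContinuousLinearMap.apply 𝕜 X)

lemma evB_apply (x : X) (f : X →L[𝕜] 𝕜) (T : X →L[𝕜] X) : evB 𝕜 X x f T = f (T x) := rfl

theorem bidual_op (hX : IsReflexive 𝕜 X) (P : ((X →L[𝕜] X) →L[𝕜] 𝕜) →L[𝕜] 𝕜) :
    ∃ T : X →L[𝕜] X, ∀ (F : X →L[𝕜] X),
      FiniteDimensional 𝕜 (LinearMap.range (F : X →ₗ[𝕜] X)) →
      ∀ φ : (X →L[𝕜] X) →L[𝕜] 𝕜, P (φ.comp (lmul F)) = φ (F.comp T) := by
  classical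
  have hsurj : Function.Surjective (NormedSpace.inclusionInDoubleDualLi (𝕜 := 𝕜) (E := X)) := by
    intro p
    obtain ⟨x, hx⟩ := hX p
    refine ⟨x, ?_⟩
    ext f
    exact (hx f).symm
  let J : X ≃ₗᵢ[𝕜] StrongDual 𝕜 (StrongDual 𝕜 X) :=
    LinearIsometryEquiv.ofSurjective (NormedSpace.inclusionInDoubleDualLi (𝕜 := 𝕜) (E := X)) hsurj
  let Q : X →L[𝕜] StrongDual 𝕜 (StrongDual 𝕜 X) :=
    (ContinuousLinearMap.compL 𝕜 (X →L[𝕜] 𝕜) ((X →L[𝕜] X) →L[𝕜] 𝕜) 𝕜 P).comp (evB 𝕜 X)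
  let T : X →L[𝕜] X := (J.symm : _ →L[𝕜] X).comp Q
  have hT : ∀ (x : X) (f : X →L[𝕜] 𝕜), f (T x) = P (evB 𝕜 X x f) := by
    intro x f
    have h1 : J (T x) = Q x := J.apply_symm_apply (Q x)
    have h2 : (J (T x)) f = f (T x) := rfl
    rw [← h2, h1]
    rfl
  refine ⟨T, fun F hF φ => ?_⟩
  obtain ⟨n, g, y, hg⟩ := fin_rank F hF
  have hx : ∀ k, ∃ x : X, ∀ h : X →L[𝕜] 𝕜, φ (h.smulRight (y k)) = h x := by
    intro k
    obtain ⟨x, hx⟩ := hX (φ.comp ((ContinuousLinearMap.smulRightL 𝕜 X X).flip (y k)))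
    exact ⟨x, fun h => hx h⟩
  choose x hx using hx
  have hS : ∀ S : X →L[𝕜] X, φ (F.comp S) = ∑ k, g k (S (x k)) := by
    intro S
    have h1 : F.comp S = ∑ k, ((g k).comp S).smulRight (y k) := by
      ext z
      simp [hg (S z)]
    rw [h1, map_sum]
    exact Finset.sum_congr rfl fun k _ => hx k _
  have h2 : φ.comp (lmul F) = ∑ k, evB 𝕜 X (x k) (g k) := by
    ext S
    simp only [ContinuousLinearMap.comp_apply, lmul_apply, _root_.sum_apply,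
      evB_apply]
    exact hS S
  rw [h2, map_sum, hS T]
  exact Finset.sum_congr rfl fun k _ => (hT (x k) (g k)).symm

end

end Pool.Agent.CALQ
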