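import Pool.Agent.ANT.Defs

set_option autoImplicit false

namespace Pool.Agent.CALQ

open Filter Topology Pool.Agent.ANT

section

variable {𝕜 : Type*} [RCLike 𝕜] {X : Type*} [NormedAddCommGroup X] [NormedSpace 𝕜 X]

/-- pointwise convergent operators are uniformly bounded -/
theorem bdd_of_tendsto [CompleteSpace X] (S : ℕ → X →L[𝕜] X)
    (hS : ∀ x, Tendsto (fun N => S N x) atTop (𝓝 x)) : ∃ C : ℝ, 0 ≤ C ∧ ∀ N, ‖S N‖ ≤ C := by
  obtain ⟨C, hC⟩ := banach_steinhaus (g := S) (fun x => by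
    obtain ⟨C, hC⟩ := (hS x).norm.bddAbove_range
    exact ⟨C, fun N => hC ⟨N, rfl⟩⟩)
  exact ⟨C, (norm_nonneg _).trans (hC 0), hC⟩

lemma mem_closure_span (hX : IsReflexive 𝕜 X) (S : ℕ → X →L[𝕜] X)
    (hS : ∀ x, Tendsto (fun N => S N x) atTop (𝓝 x)) (f : X →L[𝕜] 𝕜) :
    f ∈ (Submodule.span 𝕜 (Set.range fun N => f.comp (S N))).topologicalClosure := by
  by_contra hf
  set W := (Submodule.span 𝕜 (Set.range fun N => f.comp (S N))).topologicalClosure with hW
  have : IsClosed (W : Set (X →L[𝕜] 𝕜)) := Submodule.isClosed_topologicalClosure _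
  have hne : W.mkQL f ≠ 0 := by
    intro h
    rw [Submodule.mkQL_apply, Submodule.mkQ_apply, Submodule.Quotient.mk_eq_zero] at h
    exact hf h
  have hne' : ‖W.mkQL f‖ ≠ 0 := by
    intro h
    have h1 : (QuotientAddGroup.mk f : (X →L[𝕜] 𝕜) ⧸ W.toAddSubgroup) = 0 := by
      have h2 := (QuotientAddGroup.norm_mk_eq_zero_iff_mem_closure (S := W.toAddSubgroup)).mp h
      rw [QuotientAddGroup.eq_zero_iff]
      exact (IsClosed.closure_eq (by assumption) ▸ h2 : f ∈ (W : Set (X →L[𝕜] 𝕜)))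
    exact hf ((QuotientAddGroup.eq_zero_iff f).mp h1)
  obtain ⟨g, -, hg⟩ := exists_dual_vector 𝕜 (W.mkQL f) hne'
  obtain ⟨x, hx⟩ := hX (g.comp W.mkQL)
  have h0 : ∀ N, f (S N x) = 0 := by
    intro N
    have h1 := hx (f.comp (S N))
    have h2 : W.mkQL (f.comp (S N)) = 0 := by
      rw [Submodule.mkQL_apply, Submodule.mkQ_apply, Submodule.Quotient.mk_eq_zero]
      exact Submodule.le_topologicalClosure _ (Submodule.subset_span ⟨N, rfl⟩)
    rw [ContinuousLinearMap.comp_apply, h2, map_zero] at h1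
    exact h1.symm
  have h3 : f x = 0 := by
    have h4 : Tendsto (fun N => f (S N x)) atTop (𝓝 (f x)) :=
      (f.continuous.tendsto x).comp (hS x)
    simp only [h0] at h4
    exact (tendsto_nhds_unique h4 tendsto_const_nhds)
  have h5 : g (W.mkQL f) = 0 := by
    have := hx f
    rw [ContinuousLinearMap.comp_apply] at this
    rw [this, h3]
  rw [hg] at h5
  exact hne' (by exact_mod_cast h5)

theorem shrinking [CompleteSpace X] (hX : IsReflexive 𝕜 X) (S : ℕ → X →L[𝕜] X)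
    (hS : ∀ x, Tendsto (fun N => S N x) atTop (𝓝 x))
    (hmul : ∀ M N, M ≤ N → (S M).comp (S N) = S M) (f : X →L[𝕜] 𝕜) :
    Tendsto (fun N => f.comp (S N)) atTop (𝓝 f) := by
  obtain ⟨C, hC0, hC⟩ := bdd_of_tendsto S hS
  rw [Metric.tendsto_atTop]
  intro ε hε
  have hf := mem_closure_span hX S hS f
  rw [← SetLike.mem_coe, Submodule.topologicalClosure_coe, Metric.mem_closure_iff] at hf
  obtain ⟨g, hg, hfg⟩ := hf (ε / (C + 2)) (by positivity)
  have hst : ∃ M, ∀ N, M ≤ N → g.comp (S N) = g := by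
    refine Submodule.span_induction (p := fun g _ => ∃ M, ∀ N, M ≤ N → g.comp (S N) = g)
      ?_ ?_ ?_ ?_ hg
    · rintro _ ⟨M, rfl⟩
      exact ⟨M, fun N hN => by rw [ContinuousLinearMap.comp_assoc, hmul M N hN]⟩
    · exact ⟨0, fun N _ => by ext; simp⟩
    · rintro a b - - ⟨M1, h1⟩ ⟨M2, h2⟩
      refine ⟨max M1 M2, fun N hN => ?_⟩
      rw [ContinuousLinearMap.add_comp, h1 N ((le_max_left _ _).trans hN),
        h2 N ((le_max_right _ _).trans hN)]
    · rintro c a - ⟨M1, h1⟩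
      refine ⟨M1, fun N hN => ?_⟩
      rw [ContinuousLinearMap.smul_comp, h1 N hN]
  obtain ⟨M, hM⟩ := hst
  refine ⟨M, fun N hN => ?_⟩
  have h1 : f.comp (S N) - f = (f - g).comp (S N) + (g - f) := by
    rw [ContinuousLinearMap.sub_comp, hM N hN]
    abel
  rw [dist_eq_norm] at hfg ⊢
  rw [h1]
  calc ‖(f - g).comp (S N) + (g - f)‖ ≤ ‖(f - g).comp (S N)‖ + ‖g - f‖ := norm_add_le _ _
    _ ≤ ‖f - g‖ * ‖S N‖ + ‖f - g‖ := by
        gcongr
        · exact ContinuousLinearMap.opNorm_comp_le _ _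
        · rw [norm_sub_rev]
    _ ≤ ‖f - g‖ * C + ‖f - g‖ := by
        gcongr
        exact hC N
    _ = ‖f - g‖ * (C + 1) := by ring
    _ ≤ ε / (C + 2) * (C + 1) := by gcongr
    _ < ε := by
        rw [div_mul_eq_mul_div, div_lt_iff₀ (by positivity)]
        nlinarith

end

end Pool.Agent.CALQ
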