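import Pool.Agent.CALQ.Defs
import Pool.Agent.CALQ.Op
import Pool.Agent.CALQ.Shr

set_option autoImplicit false

namespace Pool.Agent.CALQ

open Filter Topology Finset Pool.Agent.ANT

variable {𝕜 : Type*} [RCLike 𝕜] {X : Type*} [NormedAddCommGroup X] [NormedSpace 𝕜 X]

/-- finite rank -/
abbrev FR (F : X →L[𝕜] X) : Prop := FiniteDimensional 𝕜 (LinearMap.range (F : X →ₗ[𝕜] X))

lemma fr_zero : FR (0 : X →L[𝕜] X) := by
  have : LinearMap.range ((0 : X →L[𝕜] X) : X →ₗ[𝕜] X) = ⊥ := by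
    rw [ContinuousLinearMap.toLinearMap_zero, LinearMap.range_zero]
  unfold FR
  rw [this]
  infer_instance

lemma fr_add {F G : X →L[𝕜] X} (hF : FR F) (hG : FR G) : FR (F + G) := by
  unfold FR at *
  refine Submodule.finiteDimensional_of_le (S₂ := LinearMap.range (F : X →ₗ[𝕜] X) ⊔
    LinearMap.range (G : X →ₗ[𝕜] X)) ?_
  rintro _ ⟨x, rfl⟩
  exact Submodule.add_mem_sup ⟨x, rfl⟩ ⟨x, rfl⟩

lemma fr_comp_left {F : X →L[𝕜] X} (hF : FR F) (T : X →L[𝕜] X) : FR (F.comp T) := by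
  unfold FR at *
  refine Submodule.finiteDimensional_of_le (S₂ := LinearMap.range (F : X →ₗ[𝕜] X)) ?_
  rintro _ ⟨x, rfl⟩
  exact ⟨T x, rfl⟩

lemma fr_comp_right {F : X →L[𝕜] X} (hF : FR F) (T : X →L[𝕜] X) : FR (T.comp F) := by
  unfold FR at *
  refine Submodule.finiteDimensional_of_le
    (S₂ := (LinearMap.range (F : X →ₗ[𝕜] X)).map (T : X →ₗ[𝕜] X)) ?_
  rintro _ ⟨x, rfl⟩
  exact ⟨F x, ⟨x, rfl⟩, rfl⟩

lemma fr_sum {P : ℕ → X →L[𝕜] X} (hP : IsUFDD P) (A : Finset ℕ) : FR (∑ n ∈ A, P n) := by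
  classical
  induction A using Finset.induction_on with
  | empty => simpa using fr_zero
  | insert a s ha ih =>
    rw [Finset.sum_insert ha]
    exact fr_add (hP.1 a) ih

lemma sum_tendsto {P : ℕ → X →L[𝕜] X} (hP : IsUFDD P) (x : X) :
    Tendsto (fun N => (∑ n ∈ range N, P n) x) atTop (𝓝 x) := by
  simpa [_root_.sum_apply] using (hP.2.2 x).tendsto_sum_nat

lemma sum_comp_sum {P : ℕ → X →L[𝕜] X} (hP : IsUFDD P) (A B : Finset ℕ) :
    (∑ n ∈ A, P n).comp (∑ n ∈ B, P n) = ∑ n ∈ A ∩ B, P n := by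
  classical
  ext x
  rw [ContinuousLinearMap.comp_apply, _root_.sum_apply, _root_.sum_apply, _root_.sum_apply]
  have h1 : ∀ i ∈ A, P i (∑ k ∈ B, P k x) = if i ∈ B then P i x else 0 := by
    intro i _
    rw [map_sum]
    simp only [hP.2.1]
    rw [Finset.sum_ite_eq]
  rw [Finset.sum_congr rfl h1, ← Finset.sum_filter, Finset.filter_mem_eq_inter]

/-- finite rank operators are approximated from the left -/
lemma fr_left {P : ℕ → X →L[𝕜] X} (hP : IsUFDD P) {F : X →L[𝕜] X} (hF : FR F) :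
    Tendsto (fun N => (∑ n ∈ range N, P n).comp F) atTop (𝓝 F) := by
  obtain ⟨n, g, y, hg⟩ := fin_rank F hF
  have h1 : F = ∑ k, (g k).smulRight (y k) := by
    ext x
    simp [hg x, _root_.sum_apply]
  have h2 : ∀ N, (∑ n ∈ range N, P n).comp F =
      ∑ k, (g k).smulRight ((∑ n ∈ range N, P n) (y k)) := by
    intro N
    ext x
    rw [ContinuousLinearMap.comp_apply, hg x, map_sum]
    simp [_root_.sum_apply]
  simp only [h2]
  conv => arg 3; rw [h1]
  refine tendsto_finset_sum _ fun k _ => ?_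
  have h3 : Tendsto (fun N => ContinuousLinearMap.smulRightL 𝕜 X X (g k)
      ((∑ n ∈ range N, P n) (y k))) atTop
      (𝓝 (ContinuousLinearMap.smulRightL 𝕜 X X (g k) (y k))) :=
    ((ContinuousLinearMap.smulRightL 𝕜 X X (g k)).continuous.tendsto _).comp
      (sum_tendsto hP (y k))
  exact h3

/-- finite rank operators are approximated from the right -/
lemma fr_right [CompleteSpace X] (hr : IsReflexive 𝕜 X) {P : ℕ → X →L[𝕜] X} (hP : IsUFDD P)
    {F : X →L[𝕜] X} (hF : FR F) :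
    Tendsto (fun N => F.comp (∑ n ∈ range N, P n)) atTop (𝓝 F) := by
  obtain ⟨n, g, y, hg⟩ := fin_rank F hF
  have h1 : F = ∑ k, (g k).smulRight (y k) := by
    ext x
    simp [hg x, _root_.sum_apply]
  have h2 : ∀ N, F.comp (∑ n ∈ range N, P n) =
      ∑ k, ((g k).comp (∑ n ∈ range N, P n)).smulRight (y k) := by
    intro N
    ext x
    rw [ContinuousLinearMap.comp_apply, hg]
    simp [_root_.sum_apply]
  simp only [h2]
  conv => arg 3; rw [h1]
  refine tendsto_finset_sum _ fun k _ => ?_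
  have h3 : Tendsto (fun N => (g k).comp (∑ n ∈ range N, P n)) atTop (𝓝 (g k)) := by
    refine shrinking hr _ (sum_tendsto hP) (fun M N hMN => ?_) (g k)
    rw [sum_comp_sum hP, Finset.inter_eq_left.mpr (Finset.range_mono hMN)]
  have h4 : Tendsto (fun N => (ContinuousLinearMap.smulRightL 𝕜 X X).flip (y k)
      ((g k).comp (∑ n ∈ range N, P n))) atTop
      (𝓝 ((ContinuousLinearMap.smulRightL 𝕜 X X).flip (y k) (g k))) :=
    (((ContinuousLinearMap.smulRightL 𝕜 X X).flip (y k)).continuous.tendsto _).comp h3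
  exact h4

theorem blocking [CompleteSpace X] (hr : IsReflexive 𝕜 X) {P : ℕ → X →L[𝕜] X} (hP : IsUFDD P)
    (T : ℕ → X →L[𝕜] X) :
    ∃ s : ℕ → ℕ, StrictMono s ∧ s 0 = 0 ∧ ∀ j, ∀ m ≤ j,
      ‖(T m).comp (∑ n ∈ range (s j), P n) -
        (∑ n ∈ range (s (j + 1)), P n).comp ((T m).comp (∑ n ∈ range (s j), P n))‖ ≤
          (1 / 2 : ℝ) ^ j ∧
      ‖(∑ n ∈ range (s j), P n).comp (T m) -
        ((∑ n ∈ range (s j), P n).comp (T m)).comp (∑ n ∈ range (s (j + 1)), P n)‖ ≤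
          (1 / 2 : ℝ) ^ j := by
  have step : ∀ j N : ℕ, ∃ M : ℕ, N < M ∧ ∀ m ≤ j,
      ‖(T m).comp (∑ n ∈ range N, P n) -
        (∑ n ∈ range M, P n).comp ((T m).comp (∑ n ∈ range N, P n))‖ ≤ (1 / 2 : ℝ) ^ j ∧
      ‖(∑ n ∈ range N, P n).comp (T m) -
        ((∑ n ∈ range N, P n).comp (T m)).comp (∑ n ∈ range M, P n)‖ ≤ (1 / 2 : ℝ) ^ j := by
    intro j N
    have hpos : (0 : ℝ) < (1 / 2 : ℝ) ^ j := by positivity
    have h1 : ∀ m, ∀ᶠ M in atTop, ‖(T m).comp (∑ n ∈ range N, P n) -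
        (∑ n ∈ range M, P n).comp ((T m).comp (∑ n ∈ range N, P n))‖ ≤ (1 / 2 : ℝ) ^ j := by
      intro m
      have h := fr_left hP (fr_comp_right (fr_sum hP (range N)) (T m))
      have h' := (tendsto_const_nhds (x := (T m).comp (∑ n ∈ range N, P n))).sub h
      rw [sub_self] at h'
      have h'' := h'.norm
      rw [norm_zero] at h''
      exact h''.eventually (Iic_mem_nhds hpos)
    have h2 : ∀ m, ∀ᶠ M in atTop, ‖(∑ n ∈ range N, P n).comp (T m) -
        ((∑ n ∈ range N, P n).comp (T m)).comp (∑ n ∈ range M, P n)‖ ≤ (1 / 2 : ℝ) ^ j := by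
      intro m
      have h := fr_right hr hP (fr_comp_left (fr_sum hP (range N)) (T m))
      have h' := (tendsto_const_nhds (x := (∑ n ∈ range N, P n).comp (T m))).sub h
      rw [sub_self] at h'
      have h'' := h'.norm
      rw [norm_zero] at h''
      exact h''.eventually (Iic_mem_nhds hpos)
    have h3 : ∀ᶠ M in atTop, ∀ m ∈ Finset.range (j + 1),
        (‖(T m).comp (∑ n ∈ range N, P n) -
          (∑ n ∈ range M, P n).comp ((T m).comp (∑ n ∈ range N, P n))‖ ≤ (1 / 2 : ℝ) ^ j ∧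
        ‖(∑ n ∈ range N, P n).comp (T m) -
          ((∑ n ∈ range N, P n).comp (T m)).comp (∑ n ∈ range M, P n)‖ ≤ (1 / 2 : ℝ) ^ j) := by
      rw [Filter.eventually_all_finset]
      exact fun m _ => (h1 m).and (h2 m)
    obtain ⟨M, hM1, hM2⟩ := (h3.and (eventually_gt_atTop N)).exists
    exact ⟨M, hM2, fun m hm => hM1 m (Finset.mem_range.mpr (by omega))⟩
  choose nx hnx1 hnx2 using step
  let s : ℕ → ℕ := fun n => Nat.rec 0 (fun j N => nx j N) n
  have hs : ∀ j, s (j + 1) = nx j (s j) := fun j => rfl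
  refine ⟨s, strictMono_nat_of_lt_succ fun j => ?_, rfl, fun j m hm => ?_⟩
  · rw [hs]; exact hnx1 j (s j)
  · rw [hs]; exact hnx2 j (s j) m hm

end Pool.Agent.CALQ
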