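import Mathlib
import Pool.Agent.ANT.Defs

/-!
# Definitions for the Calkin algebra criterion (MP_89809f_an)
-/

set_option autoImplicit false

open Filter Topology

namespace Pool.Agent.CALQ

/-- The closed subspace `K(X)` of the compact operators in `B(X)`. -/
def compacts (𝕜 : Type*) [RCLike 𝕜] (X : Type*) [NormedAddCommGroup X] [NormedSpace 𝕜 X] :
    Submodule 𝕜 (X →L[𝕜] X) where
  carrier := {T | IsCompactOperator T}
  add_mem' := fun ha hb => ha.add hb
  zero_mem' := isCompactOperator_zero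
  smul_mem' := fun c _ hT => hT.smul c

instance isClosed_compacts (𝕜 : Type*) [RCLike 𝕜] (X : Type*) [NormedAddCommGroup X]
    [NormedSpace 𝕜 X] [CompleteSpace X] : IsClosed (compacts 𝕜 X : Set (X →L[𝕜] X)) :=
  isClosed_setOf_isCompactOperator

/-- The Calkin algebra `B(X) / K(X)` (as a Banach space). -/
abbrev Calkin (𝕜 : Type*) [RCLike 𝕜] (X : Type*) [NormedAddCommGroup X] [NormedSpace 𝕜 X] :
    Type _ := (X →L[𝕜] X) ⧸ compacts 𝕜 X

/-- The subspaces `F n` form an unconditional finite-dimensional Schauder decomposition of `X`: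
they are finite-dimensional, every `x` is the sum of an unconditionally convergent series of
vectors `u n ∈ F n`, and the expansion is unique (no other convergent series of vectors
`u n ∈ F n` represents `x`; by linearity it is enough to say this for `x = 0`). -/
def IsUnconditionalFDD {𝕜 : Type*} [RCLike 𝕜] {X : Type*} [NormedAddCommGroup X]
    [NormedSpace 𝕜 X] (F : ℕ → Submodule 𝕜 X) : Prop :=
  (∀ n, FiniteDimensional 𝕜 (F n)) ∧
  (∀ x, ∃ u : ℕ → X, (∀ n, u n ∈ F n) ∧ HasSum u x) ∧
  ∀ u : ℕ → X, (∀ n, u n ∈ F n) →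
    Tendsto (fun N => ∑ n ∈ Finset.range N, u n) atTop (𝓝 0) → ∀ n, u n = 0

/-- The block `F (t j) + ... + F (t (j + 1) - 1)`. -/
def Blk {𝕜 : Type*} [RCLike 𝕜] {X : Type*} [NormedAddCommGroup X] [NormedSpace 𝕜 X]
    (F : ℕ → Submodule 𝕜 X) (t : ℕ → ℕ) (j : ℕ) : Submodule 𝕜 X :=
  ⨆ n ∈ Finset.Ico (t j) (t (j + 1)), F n

/-- The algebra of the bounded operators which map every block `Blk F t j` into itself. -/
def BlockDiag {𝕜 : Type*} [RCLike 𝕜] {X : Type*} [NormedAddCommGroup X] [NormedSpace 𝕜 X]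
    (F : ℕ → Submodule 𝕜 X) (t : ℕ → ℕ) : Submodule 𝕜 (X →L[𝕜] X) where
  carrier := {T | ∀ j, ∀ x ∈ Blk F t j, T x ∈ Blk F t j}
  add_mem' := fun ha hb j x hx => (Blk F t j).add_mem (ha j x hx) (hb j x hx)
  zero_mem' := fun j _ _ => (Blk F t j).zero_mem
  smul_mem' := fun c _ hT j x hx => (Blk F t j).smul_mem c (hT j x hx)

/-- The operators `P n` are the coordinate projections of an unconditional finite-dimensional
Schauder decomposition of `X`: they have finite-dimensional ranges, `P n P k = 0` for `n ≠ k`,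
`P n P n = P n`, and every `x` is the sum of the unconditionally convergent series of the
`P n x`. -/
def IsUFDD {𝕜 : Type*} [RCLike 𝕜] {X : Type*} [NormedAddCommGroup X] [NormedSpace 𝕜 X]
    (P : ℕ → X →L[𝕜] X) : Prop :=
  (∀ n, FiniteDimensional 𝕜 (P n).range) ∧
  (∀ n k x, P n (P k x) = if n = k then P k x else 0) ∧
  ∀ x, HasSum (fun n => P n x) x

end Pool.Agent.CALQ
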