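import Mathlib
import Pool.Agent.CALQ.Defs

/-!
# Multipliers of an unconditional Schauder decomposition
-/

set_option autoImplicit false

open Filter Topology BoundedContinuousFunction

namespace Pool.Agent.CALQ

variable {𝕜 : Type*} [RCLike 𝕜] {X : Type*} [NormedAddCommGroup X] [NormedSpace 𝕜 X]

theorem sum_abs_le (r : ℕ → ℝ) (F : Finset ℕ) (c : ℝ) (hc : ∀ G ⊆ F, |∑ n ∈ G, r n| ≤ c) :
    ∑ n ∈ F, |r n| ≤ 2 * c := by
  classical
  have h1 : ∑ n ∈ F, |r n| = ∑ n ∈ F.filter (fun n => 0 ≤ r n), r n -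
      ∑ n ∈ F.filter (fun n => ¬ 0 ≤ r n), r n := by
    rw [← Finset.sum_filter_add_sum_filter_not F (fun n => 0 ≤ r n) (fun n => |r n|), sub_eq_add_neg,
      ← Finset.sum_neg_distrib]
    congr 1
    · refine Finset.sum_congr rfl (fun n hn => ?_)
      exact abs_of_nonneg (Finset.mem_filter.1 hn).2
    · refine Finset.sum_congr rfl (fun n hn => ?_)
      exact abs_of_neg (not_le.1 (Finset.mem_filter.1 hn).2)
  have h2 := hc _ (Finset.filter_subset (fun n => 0 ≤ r n) F)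
  have h3 := hc _ (Finset.filter_subset (fun n => ¬ 0 ≤ r n) F)
  have h4 := le_abs_self (∑ n ∈ F.filter (fun n => 0 ≤ r n), r n)
  have h5 := neg_abs_le (∑ n ∈ F.filter (fun n => ¬ 0 ≤ r n), r n)
  linarith

theorem sum_norm_le (z : ℕ → 𝕜) (F : Finset ℕ) (c : ℝ) (hc : ∀ G ⊆ F, ‖∑ n ∈ G, z n‖ ≤ c) :
    ∑ n ∈ F, ‖z n‖ ≤ 4 * c := by
  have h1 : ∑ n ∈ F, |RCLike.re (z n)| ≤ 2 * c := by
    refine sum_abs_le _ F c (fun G hG => ?_)
    rw [← map_sum]
    exact (RCLike.abs_re_le_norm _).trans (hc G hG)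
  have h2 : ∑ n ∈ F, |RCLike.im (z n)| ≤ 2 * c := by
    refine sum_abs_le _ F c (fun G hG => ?_)
    rw [← map_sum]
    exact (RCLike.abs_im_le_norm _).trans (hc G hG)
  have h3 : ∑ n ∈ F, ‖z n‖ ≤ ∑ n ∈ F, (|RCLike.re (z n)| + |RCLike.im (z n)|) := by
    refine Finset.sum_le_sum (fun n _ => ?_)
    conv_lhs => rw [← RCLike.re_add_im (z n)]
    refine (norm_add_le _ _).trans (add_le_add ?_ ?_)
    · rw [RCLike.norm_ofReal]
    · rw [norm_mul, RCLike.norm_ofReal]
      refine mul_le_of_le_one_right (abs_nonneg _) ?_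
      by_cases h : (RCLike.I : 𝕜) = 0
      · rw [h, norm_zero]; exact zero_le_one
      · rw [RCLike.norm_I_of_ne_zero h]
  rw [Finset.sum_add_distrib] at h3
  linarith

theorem sum_mul_le (v : ℕ → X) (a : ℕ → 𝕜) (F : Finset ℕ) (A c : ℝ) (hA : ∀ n, ‖a n‖ ≤ A)
    (hc : ∀ G ⊆ F, ‖∑ n ∈ G, v n‖ ≤ c) : ‖∑ n ∈ F, a n • v n‖ ≤ 4 * A * c := by
  obtain ⟨f, hf, hfx⟩ := exists_dual_vector'' 𝕜 (∑ n ∈ F, a n • v n)
  have hA0 : 0 ≤ A := (norm_nonneg _).trans (hA 0)
  have h1 : ‖∑ n ∈ F, a n • v n‖ = ‖f (∑ n ∈ F, a n • v n)‖ := by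
    rw [hfx, RCLike.norm_ofReal, abs_of_nonneg (norm_nonneg _)]
  rw [h1, map_sum]
  calc ‖∑ n ∈ F, f (a n • v n)‖ ≤ ∑ n ∈ F, ‖f (a n • v n)‖ := norm_sum_le _ _
    _ ≤ ∑ n ∈ F, A * ‖f (v n)‖ := by
        refine Finset.sum_le_sum (fun n _ => ?_)
        rw [map_smul, norm_smul]
        exact mul_le_mul_of_nonneg_right (hA n) (norm_nonneg _)
    _ = A * ∑ n ∈ F, ‖f (v n)‖ := by rw [Finset.mul_sum]
    _ ≤ A * (4 * c) := by
        refine mul_le_mul_of_nonneg_left (sum_norm_le _ F c (fun G hG => ?_)) hA0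
        rw [← map_sum]
        refine (f.le_opNorm _).trans ?_
        have := hc G hG
        have h0 := norm_nonneg (∑ n ∈ G, v n)
        nlinarith [norm_nonneg f]
    _ = 4 * A * c := by ring

theorem bdd_sums [CompleteSpace X] (v : ℕ → X) (hv : Summable v) :
    ∃ C : ℝ, ∀ G : Finset ℕ, ‖∑ n ∈ G, v n‖ ≤ C := by
  classical
  obtain ⟨s, hs⟩ := summable_iff_vanishing_norm.1 hv 1 one_pos
  refine ⟨∑ n ∈ s, ‖v n‖ + 1, fun G => ?_⟩
  rw [← Finset.sum_inter_add_sum_sdiff G s v]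
  refine (norm_add_le _ _).trans (add_le_add ?_ ?_)
  · refine (norm_sum_le _ _).trans ?_
    exact Finset.sum_le_sum_of_subset_of_nonneg Finset.inter_subset_right
      (fun _ _ _ => norm_nonneg _)
  · exact (hs _ Finset.sdiff_disjoint).le

theorem summable_mul [CompleteSpace X] (v : ℕ → X) (hv : Summable v) (a : ℕ → 𝕜) (A : ℝ)
    (hA : ∀ n, ‖a n‖ ≤ A) : Summable (fun n => a n • v n) := by
  have hA0 : 0 ≤ A := (norm_nonneg _).trans (hA 0)
  rw [summable_iff_vanishing_norm] at hv ⊢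
  intro ε hε
  obtain ⟨s, hs⟩ := hv (ε / (4 * A + 1)) (by positivity)
  refine ⟨s, fun t ht => ?_⟩
  have h1 := sum_mul_le v a t A (ε / (4 * A + 1)) hA
    (fun G hG => (hs G (Finset.disjoint_of_subset_left hG ht)).le)
  refine h1.trans_lt ?_
  rw [mul_div_assoc', div_lt_iff₀ (by positivity)]
  nlinarith

/-- The multipliers of an unconditional decomposition form a bounded linear map
`l_∞ → B(X)`. -/
theorem exists_mult [CompleteSpace X] {P : ℕ → X →L[𝕜] X} (hP : IsUFDD P) :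
    ∃ D : (ℕ →ᵇ 𝕜) →L[𝕜] (X →L[𝕜] X), ∀ a x, HasSum (fun n => a n • P n x) (D a x) := by
  classical
  have hsum : ∀ x, Summable (fun n => P n x) := fun x => (hP.2.2 x).summable
  obtain ⟨C, hC⟩ := banach_steinhaus (g := fun G : Finset ℕ => ∑ n ∈ G, P n) (fun x => by
    obtain ⟨C, hC⟩ := bdd_sums _ (hsum x)
    refine ⟨C, fun G => ?_⟩
    rw [ContinuousLinearMap.sum_apply]
    exact hC G)
  have hC0 : 0 ≤ C := (norm_nonneg _).trans (hC ∅)
  have hab : ∀ (a : ℕ →ᵇ 𝕜) n, ‖a n‖ ≤ ‖a‖ := fun a n => a.norm_coe_le_norm n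
  have hs : ∀ (a : ℕ →ᵇ 𝕜) x, Summable (fun n => a n • P n x) := fun a x =>
    summable_mul _ (hsum x) _ _ (hab a)
  choose D0 hD0 using hs
  have hbd : ∀ (a : ℕ →ᵇ 𝕜) x, ‖D0 a x‖ ≤ (4 * C * ‖a‖) * ‖x‖ := by
    intro a x
    refine le_of_tendsto (hD0 a x).norm (Eventually.of_forall (fun F => ?_))
    have := sum_mul_le (fun n => P n x) a F ‖a‖ (C * ‖x‖) (hab a) (fun G _ => by
      have h1 := (∑ n ∈ G, P n).le_opNorm x
      rw [ContinuousLinearMap.sum_apply] at h1
      exact h1.trans (mul_le_mul_of_nonneg_right (hC G) (norm_nonneg _)))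
    calc _ ≤ 4 * ‖a‖ * (C * ‖x‖) := this
      _ = _ := by ring
  let D1 : (ℕ →ᵇ 𝕜) → (X →L[𝕜] X) := fun a => LinearMap.mkContinuous
    { toFun := fun x => D0 a x
      map_add' := fun x y => by
        refine (hD0 a (x + y)).unique ?_
        have := (hD0 a x).add (hD0 a y)
        refine this.congr_fun ?_
        intro n
        rw [map_add, smul_add]
      map_smul' := fun c x => by
        refine (hD0 a (c • x)).unique ?_
        have := (hD0 a x).const_smul c
        refine this.congr_fun ?_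
        intro n
        rw [map_smul, smul_comm] } (4 * C * ‖a‖) (hbd a)
  have hD1 : ∀ a x, HasSum (fun n => a n • P n x) (D1 a x) := fun a x => hD0 a x
  refine ⟨LinearMap.mkContinuous
    { toFun := D1
      map_add' := fun a b => by
        ext x
        refine (hD1 (a + b) x).unique ?_
        have := (hD1 a x).add (hD1 b x)
        refine this.congr_fun ?_
        intro n
        rw [BoundedContinuousFunction.add_apply, add_smul]
      map_smul' := fun c a => by
        ext x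
        refine (hD1 (c • a) x).unique ?_
        have := (hD1 a x).const_smul c
        refine this.congr_fun ?_
        intro n
        rw [BoundedContinuousFunction.smul_apply, smul_assoc] } (4 * C) (fun a => ?_), ?_⟩
  · exact LinearMap.mkContinuous_norm_le _ (by positivity) (hbd a)
  · exact hD1

end Pool.Agent.CALQ
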