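import Mathlib

/-!
# The diagonal form of the lemma of Phillips
-/

set_option autoImplicit false

open Filter Topology

namespace Pool.Agent.CALQ

/-- For a finitely additive function of bounded variation, every infinite set has an infinite
subset on the subsets of which the function is small. -/
theorem exists_small {𝕜 : Type*} [RCLike 𝕜] (m : Set ℕ → 𝕜) (M : ℝ)
    (hM : ∀ (s : Finset ℕ) (B : ℕ → Set ℕ),
      (∀ a ∈ s, ∀ b ∈ s, a ≠ b → Disjoint (B a) (B b)) → ∑ l ∈ s, ‖m (B l)‖ ≤ M)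
    (η : ℝ) (hη : 0 < η) (A : Set ℕ) (hA : A.Infinite) :
    ∃ A' ⊆ A, A'.Infinite ∧ ∀ B ⊆ A', ‖m B‖ ≤ η := by
  classical
  obtain ⟨L, hL⟩ := exists_nat_gt (M / η)
  have hL' : M < L * η := by rwa [div_lt_iff₀ hη] at hL
  have hM0 : 0 ≤ M := by simpa using hM ∅ (fun _ => ∅) (by simp)
  have hLpos : 0 < L := by
    by_contra h
    have : L = 0 := by omega
    rw [this] at hL'
    simp at hL'
    linarith
  let f : ℕ ↪ A := hA.natEmbedding
  let A' : ℕ → Set ℕ := fun l => (fun n => (f n : ℕ)) '' {n | n % L = l}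
  have hinj : Function.Injective (fun n => (f n : ℕ)) :=
    Subtype.val_injective.comp f.injective
  by_contra hcon
  push Not at hcon
  have hsub : ∀ l, A' l ⊆ A := by
    rintro l _ ⟨n, -, rfl⟩
    exact (f n).2
  have hinf : ∀ l < L, (A' l).Infinite := by
    intro l hl
    refine Set.Infinite.image (hinj.injOn) ?_
    refine Set.infinite_of_injective_forall_mem (f := fun k => l + L * k) ?_ ?_
    · intro a b hab
      have : L * a = L * b := by simpa using hab
      exact Nat.eq_of_mul_eq_mul_left hLpos this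
    · intro k
      change (l + L * k) % L = l
      rw [Nat.add_mul_mod_self_left, Nat.mod_eq_of_lt hl]
  have hB : ∀ l, ∃ B ⊆ A' l, l < L → η < ‖m B‖ := by
    intro l
    by_cases hl : l < L
    · obtain ⟨B, hB, h⟩ := hcon (A' l) (hsub l) (hinf l hl)
      exact ⟨B, hB, fun _ => h⟩
    · exact ⟨∅, by simp, fun h => absurd h hl⟩
  choose B hB1 hB2 using hB
  have hdisj : ∀ a b, a ≠ b → Disjoint (A' a) (A' b) := by
    intro a b hab
    rw [Set.disjoint_left]
    rintro _ ⟨n, hn, rfl⟩ ⟨n', hn', h⟩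
    have : n' = n := hinj h
    subst this
    exact hab (by simpa using hn.symm.trans hn')
  have h1 := hM (Finset.range L) B
    (fun a _ b _ hab => Disjoint.mono (hB1 a) (hB1 b) (hdisj a b hab))
  have h2 : (L : ℝ) * η ≤ ∑ l ∈ Finset.range L, ‖m (B l)‖ := by
    have : ∑ _l ∈ Finset.range L, η ≤ ∑ l ∈ Finset.range L, ‖m (B l)‖ :=
      Finset.sum_le_sum (fun l hl => (hB2 l (Finset.mem_range.1 hl)).le)
    simpa using this
  linarith

/-- **The lemma of Phillips**, diagonal form: if the finitely additive functions `m i`, of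
uniformly bounded variation, tend to `0` at every set, then `m i {i}` tends to `0`. -/
theorem diag {𝕜 : Type*} [RCLike 𝕜] (m : ℕ → Set ℕ → 𝕜) (M : ℝ)
    (hadd : ∀ i A B, Disjoint A B → m i (A ∪ B) = m i A + m i B)
    (hM : ∀ i (s : Finset ℕ) (B : ℕ → Set ℕ),
      (∀ a ∈ s, ∀ b ∈ s, a ≠ b → Disjoint (B a) (B b)) → ∑ l ∈ s, ‖m i (B l)‖ ≤ M)
    (h0 : ∀ B, Tendsto (fun i => m i B) atTop (𝓝 0)) :
    Tendsto (fun i => m i {i}) atTop (𝓝 0) := by
  classical
  by_contra hcon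
  rw [Metric.tendsto_atTop] at hcon
  push Not at hcon
  obtain ⟨δ, hδ, hfreq⟩ := hcon
  set A0 : Set ℕ := {i | δ ≤ ‖m i {i}‖} with hA0
  have hA0inf : A0.Infinite := by
    refine Set.infinite_of_not_bddAbove ?_
    rintro ⟨b, hb⟩
    obtain ⟨i, hi, h⟩ := hfreq (b + 1)
    have : i ≤ b := hb (by simpa [hA0] using h)
    omega
  have hstep : ∀ p : {p : ℕ × Finset ℕ × Set ℕ // p.2.2.Infinite ∧ p.2.2 ⊆ A0},
      ∃ q : {p : ℕ × Finset ℕ × Set ℕ // p.2.2.Infinite ∧ p.2.2 ⊆ A0},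
        q.1.1 ∈ p.1.2.2 ∧ q.1.2.1 = insert p.1.1 p.1.2.1 ∧ q.1.1 ∉ q.1.2.1 ∧
        ‖m q.1.1 q.1.2.1‖ ≤ δ / 4 ∧ p.1.1 < q.1.1 ∧ q.1.2.2 ⊆ p.1.2.2 ∧
        (∀ B ⊆ q.1.2.2, ‖m q.1.1 B‖ ≤ δ / 4) ∧ ∀ a ∈ q.1.2.2, q.1.1 < a := by
    rintro ⟨⟨k, F, A⟩, hAinf, hAsub⟩
    set F' : Finset ℕ := insert k F with hF'
    have h1 := h0 (F' : Set ℕ)
    rw [Metric.tendsto_atTop] at h1
    obtain ⟨N, hN⟩ := h1 (δ / 4) (by positivity)
    obtain ⟨k', hk'A, hk'⟩ := hAinf.exists_gt (N + F'.sup id)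
    have hk'N : N ≤ k' := by omega
    have hk'F : ∀ a ∈ F', a < k' := by
      intro a ha
      have : a ≤ F'.sup id := Finset.le_sup (f := id) ha
      omega
    have hinf2 : {a ∈ A | k' < a}.Infinite := by
      have : {a ∈ A | k' < a} = A \ {a | a ≤ k'} := by
        ext a; simp
      rw [this]
      exact hAinf.sdiff (Set.finite_le_nat k')
    obtain ⟨A', hA', hA'inf, hA'B⟩ := exists_small (m k') M (hM k') (δ / 4) (by positivity)
      _ hinf2
    refine ⟨⟨⟨k', F', A'⟩, hA'inf, fun a ha => hAsub (hA' ha).1⟩, hk'A, rfl, ?_, ?_, ?_, ?_,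
      hA'B, ?_⟩
    · exact fun h => lt_irrefl _ (hk'F k' h)
    · have := hN k' hk'N
      rw [dist_zero_right] at this
      exact this.le
    · exact hk'F k (Finset.mem_insert_self _ _)
    · exact fun a ha => (hA' ha).1
    · exact fun a ha => (hA' ha).2
  choose next h1 h2 h3 h4 h5 h6 h7 h8 using hstep
  let s0 : {p : ℕ × Finset ℕ × Set ℕ // p.2.2.Infinite ∧ p.2.2 ⊆ A0} :=
    ⟨⟨0, ∅, A0⟩, hA0inf, subset_rfl⟩
  let u : ℕ → {p : ℕ × Finset ℕ × Set ℕ // p.2.2.Infinite ∧ p.2.2 ⊆ A0} :=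
    fun n => next^[n + 1] s0
  have hu : ∀ n, u (n + 1) = next (u n) := fun n => Function.iterate_succ_apply' next (n + 1) s0
  have hu' : ∀ n, ∃ p, u n = next p := fun n => ⟨next^[n] s0, Function.iterate_succ_apply' next n s0⟩
  let k : ℕ → ℕ := fun n => (u n).1.1
  let F : ℕ → Finset ℕ := fun n => (u n).1.2.1
  let A : ℕ → Set ℕ := fun n => (u n).1.2.2
  have hkmono : StrictMono k := strictMono_nat_of_lt_succ (fun n => by
    change (u n).1.1 < (u (n + 1)).1.1
    rw [hu]; exact h5 _)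
  have hkA : ∀ n, k (n + 1) ∈ A n := fun n => by
    change (u (n + 1)).1.1 ∈ (u n).1.2.2
    rw [hu]; exact h1 _
  have hAanti : Antitone A := antitone_nat_of_succ_le (fun n => by
    change (u (n + 1)).1.2.2 ⊆ (u n).1.2.2
    rw [hu]; exact h6 _)
  have hF : ∀ n, F (n + 1) = insert (k n) (F n) := fun n => by
    change (u (n + 1)).1.2.1 = insert (u n).1.1 (u n).1.2.1
    rw [hu]; exact h2 _
  have hkA0 : ∀ n, k n ∈ A0 := fun n => by
    obtain ⟨p, hp⟩ := hu' n
    change (u n).1.1 ∈ A0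
    rw [hp]; exact p.2.2 (h1 p)
  have hkF : ∀ n, k n ∉ F n := fun n => by
    obtain ⟨p, hp⟩ := hu' n
    change (u n).1.1 ∉ (u n).1.2.1
    rw [hp]; exact h3 p
  have hmF : ∀ n, ‖m (k n) (F n)‖ ≤ δ / 4 := fun n => by
    obtain ⟨p, hp⟩ := hu' n
    change ‖m (u n).1.1 (u n).1.2.1‖ ≤ δ / 4
    rw [hp]; exact h4 p
  have hmB : ∀ n, ∀ B ⊆ A n, ‖m (k n) B‖ ≤ δ / 4 := fun n => by
    obtain ⟨p, hp⟩ := hu' n
    change ∀ B ⊆ (u n).1.2.2, ‖m (u n).1.1 B‖ ≤ δ / 4
    rw [hp]; exact h7 p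
  have hAk : ∀ n, ∀ a ∈ A n, k n < a := fun n => by
    obtain ⟨p, hp⟩ := hu' n
    change ∀ a ∈ (u n).1.2.2, (u n).1.1 < a
    rw [hp]; exact h8 p
  set S : Set ℕ := (F 0 : Set ℕ) ∪ Set.range k with hS
  have hSn : ∀ n, S = (F n : Set ℕ) ∪ ({k n} ∪ {a | ∃ i, n < i ∧ k i = a}) := by
    intro n
    induction n with
    | zero =>
      ext a
      simp only [hS, Set.mem_union, Set.mem_range, Set.mem_singleton_iff, Set.mem_ofPred_eq]
      constructor
      · rintro (h | ⟨i, rfl⟩)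
        · exact Or.inl h
        · rcases Nat.eq_zero_or_pos i with rfl | hi
          · exact Or.inr (Or.inl rfl)
          · exact Or.inr (Or.inr ⟨i, hi, rfl⟩)
      · rintro (h | rfl | ⟨i, -, rfl⟩)
        · exact Or.inl h
        · exact Or.inr ⟨0, rfl⟩
        · exact Or.inr ⟨i, rfl⟩
    | succ n ih =>
      rw [ih, hF]
      ext a
      simp only [Set.mem_union, Set.mem_singleton_iff, Set.mem_ofPred_eq, Finset.coe_insert,
        Set.mem_insert_iff]
      constructor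
      · rintro (h | rfl | ⟨i, hi, rfl⟩)
        · exact Or.inl (Or.inr h)
        · exact Or.inl (Or.inl rfl)
        · rcases Nat.lt_or_ge (n + 1) i with h | h
          · exact Or.inr (Or.inr ⟨i, h, rfl⟩)
          · have : i = n + 1 := by omega
            exact Or.inr (Or.inl (by rw [this]))
      · rintro ((rfl | h) | rfl | ⟨i, hi, rfl⟩)
        · exact Or.inr (Or.inl rfl)
        · exact Or.inl h
        · exact Or.inr (Or.inr ⟨n + 1, by omega, rfl⟩)
        · exact Or.inr (Or.inr ⟨i, by omega, rfl⟩)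
  have hR : ∀ n, {a | ∃ i, n < i ∧ k i = a} ⊆ A n := by
    rintro n _ ⟨i, hi, rfl⟩
    obtain ⟨j, rfl⟩ : ∃ j, i = j + 1 := ⟨i - 1, by omega⟩
    exact hAanti (by omega : n ≤ j) (hkA j)
  have hFlt : ∀ n, ∀ a ∈ F n, a < k n ∨ a ∈ F 0 := by
    intro n
    induction n with
    | zero => exact fun a ha => Or.inr ha
    | succ n ih =>
      intro a ha
      rw [hF, Finset.mem_insert] at ha
      rcases ha with rfl | ha
      · exact Or.inl (hkmono (Nat.lt_succ_self n))
      · rcases ih a ha with h | h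
        · exact Or.inl (h.trans (hkmono (Nat.lt_succ_self n)))
        · exact Or.inr h
  have hF0 : ∀ n, ∀ a ∈ F n, a < k n := by
    intro n a ha
    rcases hFlt n a ha with h | h
    · exact h
    · have h00 : F 0 = {0} := by
        change (next s0).1.2.1 = {0}
        rw [h2]
        rfl
      have h01 : a = 0 := by
        rw [h00] at h
        simpa using h
      have h02 : 0 < k 0 := h5 s0
      have h03 : k 0 ≤ k n := hkmono.monotone (Nat.zero_le n)
      omega
  have hbig : ∀ n, δ / 2 ≤ ‖m (k n) S‖ := by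
    intro n
    have hd1 : Disjoint ({k n} : Set ℕ) {a | ∃ i, n < i ∧ k i = a} := by
      rw [Set.disjoint_singleton_left]
      intro h
      exact lt_irrefl _ (hAk n _ (hR n h))
    have hd2 : Disjoint (F n : Set ℕ) ({k n} ∪ {a | ∃ i, n < i ∧ k i = a}) := by
      rw [Set.disjoint_left]
      intro a ha h
      have h1 := hF0 n a ha
      rcases h with h | h
      · rw [Set.mem_singleton_iff] at h
        omega
      · have := hAk n a (hR n h)
        omega
    have e1 : m (k n) S = m (k n) (F n) + (m (k n) {k n} + m (k n) {a | ∃ i, n < i ∧ k i = a}) := by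
      rw [← hadd _ _ _ hd1, ← hadd _ _ _ hd2, ← hSn n]
    have e2 := hmF n
    have e3 := hmB n _ (hR n)
    have e4 : δ ≤ ‖m (k n) {k n}‖ := hkA0 n
    have e5 : ‖m (k n) {k n}‖ ≤ ‖m (k n) S‖ + ‖m (k n) (F n)‖ +
        ‖m (k n) {a | ∃ i, n < i ∧ k i = a}‖ := by
      have : m (k n) {k n} = m (k n) S - m (k n) (F n) - m (k n) {a | ∃ i, n < i ∧ k i = a} := by
        rw [e1]; ring
      rw [this]
      calc _ ≤ ‖m (k n) S - m (k n) (F n)‖ + ‖m (k n) {a | ∃ i, n < i ∧ k i = a}‖ :=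
            norm_sub_le _ _
        _ ≤ _ := by
          have := norm_sub_le (m (k n) S) (m (k n) (F n))
          linarith
    linarith
  have hlim := (h0 S).comp hkmono.tendsto_atTop
  rw [Metric.tendsto_atTop] at hlim
  obtain ⟨N, hN⟩ := hlim (δ / 2) (by positivity)
  have := hN N le_rfl
  rw [Function.comp_apply, dist_zero_right] at this
  linarith [hbig N]

end Pool.Agent.CALQ
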