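import Mathlib
import Pool.Agent.CALQ.Diag

/-!
# The lemma of Phillips
-/

set_option autoImplicit false

open Filter Topology BoundedContinuousFunction

namespace Pool.Agent.CALQ

/-- The indicator function of the set `A`, as a bounded sequence. -/
noncomputable def indf (𝕜 : Type*) [RCLike 𝕜] (A : Set ℕ) : ℕ →ᵇ 𝕜 :=
  BoundedContinuousFunction.ofNormedAddCommGroupDiscrete (A.indicator (fun _ => (1 : 𝕜))) 1
    (fun n => by
      classical
      rw [Set.indicator_apply]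
      split_ifs <;> simp)

variable {𝕜 : Type*} [RCLike 𝕜]

theorem indf_apply (A : Set ℕ) (n : ℕ) : indf 𝕜 A n = A.indicator (fun _ => (1 : 𝕜)) n := rfl

theorem indf_union {A B : Set ℕ} (h : Disjoint A B) : indf 𝕜 (A ∪ B) = indf 𝕜 A + indf 𝕜 B := by
  ext n
  rw [BoundedContinuousFunction.add_apply, indf_apply, indf_apply, indf_apply,
    Set.indicator_union_of_disjoint h]

theorem exists_phase (z : 𝕜) : ∃ u : 𝕜, ‖u‖ ≤ 1 ∧ u * z = (‖z‖ : 𝕜) := by
  by_cases hz : z = 0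
  · exact ⟨0, by simp, by simp [hz]⟩
  · refine ⟨(‖z‖ : 𝕜) / z, ?_, by field_simp⟩
    rw [norm_div, RCLike.norm_ofReal, abs_of_nonneg (norm_nonneg z),
      div_self (norm_ne_zero_iff.2 hz)]

theorem var_le (μ : (ℕ →ᵇ 𝕜) →L[𝕜] 𝕜) (s : Finset ℕ) (B : ℕ → Set ℕ)
    (hB : ∀ a ∈ s, ∀ b ∈ s, a ≠ b → Disjoint (B a) (B b)) :
    ∑ l ∈ s, ‖μ (indf 𝕜 (B l))‖ ≤ ‖μ‖ := by
  classical
  choose u hu1 hu2 using fun l => exists_phase (μ (indf 𝕜 (B l)))
  have h1 : ((∑ l ∈ s, ‖μ (indf 𝕜 (B l))‖ : ℝ) : 𝕜) = μ (∑ l ∈ s, u l • indf 𝕜 (B l)) := by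
    rw [map_sum, RCLike.ofReal_sum]
    refine Finset.sum_congr rfl (fun l _ => ?_)
    rw [map_smul, smul_eq_mul, hu2]
  have h2 : ‖∑ l ∈ s, u l • indf 𝕜 (B l)‖ ≤ 1 := by
    rw [BoundedContinuousFunction.norm_le zero_le_one]
    intro n
    have e1 : (∑ l ∈ s, u l • indf 𝕜 (B l)) n = ∑ l ∈ s, u l * indf 𝕜 (B l) n := by
      rw [BoundedContinuousFunction.sum_apply]
      rfl
    rw [e1]
    by_cases hn : ∃ l ∈ s, n ∈ B l
    · obtain ⟨l, hl, hnl⟩ := hn
      rw [Finset.sum_eq_single l]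
      · rw [indf_apply, Set.indicator_of_mem hnl, mul_one]
        exact hu1 l
      · intro b hb hbl
        rw [indf_apply, Set.indicator_of_notMem, mul_zero]
        intro h
        exact Set.disjoint_left.1 (hB b hb l hl hbl) h hnl
      · exact fun h => absurd hl h
    · push Not at hn
      rw [Finset.sum_eq_zero]
      · simp
      · intro l hl
        rw [indf_apply, Set.indicator_of_notMem (hn l hl), mul_zero]
  have h3 : 0 ≤ ∑ l ∈ s, ‖μ (indf 𝕜 (B l))‖ := Finset.sum_nonneg (fun _ _ => norm_nonneg _)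
  have h4 : ∑ l ∈ s, ‖μ (indf 𝕜 (B l))‖ = ‖μ (∑ l ∈ s, u l • indf 𝕜 (B l))‖ := by
    rw [← h1, RCLike.norm_ofReal, abs_of_nonneg h3]
  rw [h4]
  refine (μ.le_opNorm _).trans ?_
  exact mul_le_of_le_one_right (norm_nonneg _) h2

/-- The union of the intervals `[L i, L (i + 1))`, `i ∈ B`. -/
def blocks (L : ℕ → ℕ) (B : Set ℕ) : Set ℕ := {x | ∃ i ∈ B, L i ≤ x ∧ x < L (i + 1)}

theorem blocks_disjoint {L : ℕ → ℕ} (hL : StrictMono L) {A B : Set ℕ} (h : Disjoint A B) :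
    Disjoint (blocks L A) (blocks L B) := by
  rw [Set.disjoint_left]
  rintro x ⟨i, hi, h1, h2⟩ ⟨j, hj, h3, h4⟩
  rcases lt_trichotomy i j with hij | hij | hij
  · have := hL.monotone (show i + 1 ≤ j from hij)
    omega
  · subst hij
    exact Set.disjoint_left.1 h hi hj
  · have := hL.monotone (show j + 1 ≤ i from hij)
    omega

theorem blocks_union (L : ℕ → ℕ) (A B : Set ℕ) :
    blocks L (A ∪ B) = blocks L A ∪ blocks L B := by
  ext x
  constructor
  · rintro ⟨i, hi | hi, h⟩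
    · exact Or.inl ⟨i, hi, h⟩
    · exact Or.inr ⟨i, hi, h⟩
  · rintro (⟨i, hi, h⟩ | ⟨i, hi, h⟩)
    · exact ⟨i, Or.inl hi, h⟩
    · exact ⟨i, Or.inr hi, h⟩

theorem blocks_singleton (L : ℕ → ℕ) (i : ℕ) : blocks L {i} = Set.Ico (L i) (L (i + 1)) := by
  ext x
  constructor
  · rintro ⟨j, hj, h⟩
    rw [Set.mem_singleton_iff] at hj
    subst hj
    exact h
  · intro h
    exact ⟨i, rfl, h⟩

/-- **The lemma of Phillips**: if `μ k` tends to `0` at every point of `l_∞`, then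
`sup_N |μ k (1_{[0, N)})|` tends to `0`. -/
theorem phillips (μ : ℕ → (ℕ →ᵇ 𝕜) →L[𝕜] 𝕜) (h : ∀ a, Tendsto (fun k => μ k a) atTop (𝓝 0))
    (δ : ℝ) (hδ : 0 < δ) : ∀ᶠ k in atTop, ∀ N : ℕ, ‖μ k (indf 𝕜 (Set.Iio N))‖ ≤ δ := by
  classical
  by_contra hcon
  rw [not_eventually] at hcon
  obtain ⟨M, hM⟩ := banach_steinhaus (g := μ) (fun a => by
    obtain ⟨C, hC⟩ := (h a).norm.bddAbove_range
    exact ⟨C, fun i => hC ⟨i, rfl⟩⟩)
  have hstep : ∀ p : ℕ × ℕ, ∃ q : ℕ × ℕ, p.1 < q.1 ∧ p.2 < q.2 ∧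
      δ / 2 < ‖μ q.1 (indf 𝕜 (Set.Ico p.2 q.2))‖ := by
    rintro ⟨k, L⟩
    have h1 : ∀ᶠ k' in atTop, ∀ N ∈ Finset.range (L + 1),
        ‖μ k' (indf 𝕜 (Set.Iio N))‖ ≤ δ / 2 := by
      rw [eventually_all_finset]
      intro N _
      have := h (indf 𝕜 (Set.Iio N))
      rw [Metric.tendsto_atTop] at this
      obtain ⟨k0, hk0⟩ := this (δ / 2) (by positivity)
      filter_upwards [eventually_ge_atTop k0] with k' hk'
      have := hk0 k' hk'
      rw [dist_zero_right] at this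
      exact this.le
    obtain ⟨k', hk', hk'1, hk'2⟩ := (hcon.and_eventually (h1.and (eventually_gt_atTop k))).exists
    push Not at hk'
    obtain ⟨N, hN⟩ := hk'
    have hNL : L < N := by
      by_contra hc
      have := hk'1 N (Finset.mem_range.2 (by omega))
      linarith
    refine ⟨(k', N), hk'2, hNL, ?_⟩
    have e1 : (Set.Iio N : Set ℕ) = Set.Iio L ∪ Set.Ico L N := by
      ext x; simp only [Set.mem_Iio, Set.mem_union, Set.mem_Ico]; omega
    have e2 : Disjoint (Set.Iio L : Set ℕ) (Set.Ico L N) := by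
      rw [Set.disjoint_left]; intro x hx hx2
      exact absurd hx2.1 (not_le.2 hx)
    rw [e1, indf_union e2, map_add] at hN
    have e3 := hk'1 L (Finset.mem_range.2 (by omega))
    have e4 := norm_add_le (μ k' (indf 𝕜 (Set.Iio L))) (μ k' (indf 𝕜 (Set.Ico L N)))
    change δ / 2 < ‖μ k' (indf 𝕜 (Set.Ico L N))‖
    linarith
  choose next hn1 hn2 hn3 using hstep
  let u : ℕ → ℕ × ℕ := fun n => next^[n] (0, 0)
  have hu : ∀ n, u (n + 1) = next (u n) := fun n => Function.iterate_succ_apply' next n (0, 0)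
  let K : ℕ → ℕ := fun n => (u n).1
  let L : ℕ → ℕ := fun n => (u n).2
  have hK : StrictMono K := strictMono_nat_of_lt_succ (fun n => by
    change (u n).1 < (u (n + 1)).1
    rw [hu]; exact hn1 _)
  have hL : StrictMono L := strictMono_nat_of_lt_succ (fun n => by
    change (u n).2 < (u (n + 1)).2
    rw [hu]; exact hn2 _)
  have hbig : ∀ n, δ / 2 < ‖μ (K (n + 1)) (indf 𝕜 (Set.Ico (L n) (L (n + 1))))‖ := fun n => by
    change δ / 2 < ‖μ (u (n + 1)).1 (indf 𝕜 (Set.Ico (u n).2 (u (n + 1)).2))‖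
    rw [hu]; exact hn3 _
  have hdiag := diag (fun n B => μ (K (n + 1)) (indf 𝕜 (blocks L B))) M
    (fun i A B hAB => by
      change μ _ (indf 𝕜 (blocks L (A ∪ B))) = _
      rw [blocks_union, indf_union (blocks_disjoint hL hAB), map_add])
    (fun i s B hB => (var_le _ s (fun l => blocks L (B l))
      (fun a ha b hb hab => blocks_disjoint hL (hB a ha b hb hab))).trans (hM _))
    (fun B => (h (indf 𝕜 (blocks L B))).comp
      (hK.tendsto_atTop.comp (tendsto_add_atTop_nat 1)))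
  rw [Metric.tendsto_atTop] at hdiag
  obtain ⟨N, hN⟩ := hdiag (δ / 2) (by positivity)
  have h1 := hN N le_rfl
  rw [dist_zero_right, blocks_singleton] at h1
  linarith [hbig N]

end Pool.Agent.CALQ
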