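import Mathlib
import Pool.Agent.CALQ.Defs
import Pool.Agent.CALQ.Mult
import Pool.Agent.CALQ.Phil
import Pool.Agent.CALQ.Gro
import Pool.Agent.CALQ.Op
import Pool.Agent.CALQ.Shr

/-!
# The Calkin algebra criterion
-/

set_option autoImplicit false

open Filter Topology BoundedContinuousFunction

namespace Pool.Agent.CALQ

variable {𝕜 : Type*} [RCLike 𝕜] {X : Type*} [NormedAddCommGroup X] [NormedSpace 𝕜 X]

/-- The partial sum projections. -/
noncomputable def ps (P : ℕ → X →L[𝕜] X) (N : ℕ) : X →L[𝕜] X := ∑ n ∈ Finset.range N, P n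

theorem ps_apply (P : ℕ → X →L[𝕜] X) (N : ℕ) (x : X) :
    ps P N x = ∑ n ∈ Finset.range N, P n x := by
  rw [ps, ContinuousLinearMap.sum_apply]

theorem ps_tendsto {P : ℕ → X →L[𝕜] X} (hP : IsUFDD P) (x : X) :
    Tendsto (fun N => ps P N x) atTop (𝓝 x) := by
  simp only [ps_apply]
  exact (hP.2.2 x).tendsto_sum_nat

theorem ps_ps {P : ℕ → X →L[𝕜] X} (hP : IsUFDD P) (M N : ℕ) (x : X) :
    ps P M (ps P N x) = ps P (min M N) x := by
  rw [ps_apply, ps_apply, ps_apply]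
  have h1 : ∀ n, P n (∑ k ∈ Finset.range N, P k x) = if n ∈ Finset.range N then P n x else 0 := by
    intro n
    rw [map_sum]
    simp only [hP.2.1]
    rw [Finset.sum_ite_eq]
  simp only [h1]
  rw [← Finset.sum_filter]
  congr 1
  ext n
  simp only [Finset.mem_filter, Finset.mem_range]
  omega

theorem ps_comp {P : ℕ → X →L[𝕜] X} (hP : IsUFDD P) (M N : ℕ) (h : M ≤ N) :
    (ps P M).comp (ps P N) = ps P M := by
  ext x
  rw [ContinuousLinearMap.comp_apply, ps_ps hP, min_eq_left h]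

theorem ps_comp' {P : ℕ → X →L[𝕜] X} (hP : IsUFDD P) (M N : ℕ) (h : M ≤ N) :
    (ps P N).comp (ps P M) = ps P M := by
  ext x
  rw [ContinuousLinearMap.comp_apply, ps_ps hP, min_eq_right h]

theorem ps_fin {P : ℕ → X →L[𝕜] X} (hP : IsUFDD P) (N : ℕ) :
    FiniteDimensional 𝕜 (LinearMap.range (ps P N : X →ₗ[𝕜] X)) := by
  induction N with
  | zero =>
    have : (ps P 0 : X →ₗ[𝕜] X) = 0 := by
      ext x
      change ps P 0 x = 0
      rw [ps_apply]; simp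
    rw [this, LinearMap.range_zero]
    infer_instance
  | succ N ih =>
    have h1 : (ps P (N + 1) : X →ₗ[𝕜] X) = (ps P N : X →ₗ[𝕜] X) + (P N : X →ₗ[𝕜] X) := by
      ext x
      change ps P (N + 1) x = ps P N x + P N x
      rw [ps_apply, ps_apply, Finset.sum_range_succ]
    have h2 : FiniteDimensional 𝕜 (LinearMap.range (P N : X →ₗ[𝕜] X)) := hP.1 N
    rw [h1]
    have h3 := LinearMap.range_add_le (ps P N : X →ₗ[𝕜] X) (P N : X →ₗ[𝕜] X)
    exact Submodule.finiteDimensional_of_le h3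

theorem comp_compact (S : ℕ → X →L[𝕜] X) (C : ℝ) (hC0 : 0 ≤ C) (hC : ∀ N, ‖S N‖ ≤ C)
    (hS : ∀ x, Tendsto (fun N => S N x) atTop (𝓝 x)) (K : X →L[𝕜] X)
    (hK : IsCompactOperator K) : Tendsto (fun N => (S N).comp K) atTop (𝓝 K) := by
  rw [Metric.tendsto_atTop]
  intro ε hε
  obtain ⟨Z, hZ, hsub⟩ := IsCompactOperator.image_closedBall_subset_compact
    (f := (K : X →ₗ[𝕜] X)) hK 1
  obtain ⟨t, ht, hcov⟩ := Metric.totallyBounded_iff.1 hZ.totallyBounded (ε / (4 * (C + 1)))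
    (by positivity)
  have h1 : ∀ᶠ N in atTop, ∀ y ∈ t, ‖S N y - y‖ ≤ ε / 4 := by
    rw [Filter.eventually_all_finite ht]
    intro y _
    have := (hS y)
    rw [Metric.tendsto_atTop] at this
    obtain ⟨N0, hN0⟩ := this (ε / 4) (by positivity)
    filter_upwards [eventually_ge_atTop N0] with N hN
    have := hN0 N hN
    rw [dist_eq_norm] at this
    exact this.le
  obtain ⟨N0, hN0⟩ := eventually_atTop.1 h1
  refine ⟨N0, fun N hN => ?_⟩
  have h2 := hN0 N hN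
  have h3 : ∀ x : X, ‖x‖ ≤ 1 → ‖S N (K x) - K x‖ ≤ ε / 2 := by
    intro x hx
    have hx' : K x ∈ Z := hsub ⟨x, by simpa using hx, rfl⟩
    have := hcov hx'
    rw [Set.mem_iUnion₂] at this
    obtain ⟨y, hy, hxy⟩ := this
    rw [Metric.mem_ball, dist_eq_norm] at hxy
    have e1 : S N (K x) - K x = S N (K x - y) + (S N y - y) + (y - K x) := by
      rw [map_sub]; abel
    rw [e1]
    have e2 : ‖S N (K x - y)‖ ≤ C * (ε / (4 * (C + 1))) :=
      ((S N).le_opNorm _).trans (mul_le_mul (hC N) hxy.le (norm_nonneg _) hC0)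
    have e3 : ‖y - K x‖ ≤ ε / (4 * (C + 1)) := by
      rw [norm_sub_rev]; exact hxy.le
    have e4 := h2 y hy
    have e5 : C * (ε / (4 * (C + 1))) + ε / (4 * (C + 1)) = ε / 4 := by
      field_simp
    calc _ ≤ ‖S N (K x - y)‖ + ‖S N y - y‖ + ‖y - K x‖ := norm_add₃_le
      _ ≤ ε / 2 := by linarith
  rw [dist_eq_norm]
  refine lt_of_le_of_lt (ContinuousLinearMap.opNorm_le_bound _ (by positivity : 0 ≤ ε / 2)
    (fun x => ?_)) (half_lt_self hε)
  rcases eq_or_ne x 0 with rfl | hx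
  · simp
  · have hx0 : (0 : ℝ) < ‖x‖ := norm_pos_iff.2 hx
    have h4 := h3 (((‖x‖ : 𝕜)⁻¹) • x) (by
      rw [norm_smul, norm_inv, RCLike.norm_ofReal, abs_of_pos hx0, inv_mul_cancel₀ hx0.ne'])
    rw [map_smul, map_smul, ← smul_sub, norm_smul, norm_inv, RCLike.norm_ofReal, abs_of_pos hx0,
      inv_mul_le_iff₀ hx0] at h4
    change ‖S N (K x) - K x‖ ≤ ε / 2 * ‖x‖
    linarith

theorem weak_of_factor {E F : Type*} [NormedAddCommGroup E] [NormedSpace 𝕜 E]
    [NormedAddCommGroup F] [NormedSpace 𝕜 F] (R : E →L[𝕜] F) (ψ' : ℕ → F →L[𝕜] 𝕜)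
    (h0 : ∀ x, Tendsto (fun k => ψ' k x) atTop (𝓝 0)) (hF : Pool.Agent.ANT.IsGrothendieck 𝕜 F)
    (Φ : (E →L[𝕜] 𝕜) →L[𝕜] 𝕜) : Tendsto (fun k => Φ ((ψ' k).comp R)) atTop (𝓝 0) := by
  have h1 := hF ψ' 0 h0 (Φ.comp ((ContinuousLinearMap.compL 𝕜 E F 𝕜).flip R))
  have h2 : ∀ k, (Φ.comp ((ContinuousLinearMap.compL 𝕜 E F 𝕜).flip R)) (ψ' k) =
      Φ ((ψ' k).comp R) := fun k => rfl
  simp only [h2, map_zero] at h1
  exact h1

/-- A functional which kills the compact operators factors through the Calkin algebra; a sequence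
of such functionals which tends to `0` pointwise tends to `0` weakly if the Calkin algebra is a
Grothendieck space. -/
theorem calkin_weak [CompleteSpace X] (hG : Pool.Agent.ANT.IsGrothendieck 𝕜 (Calkin 𝕜 X))
    (ψ : ℕ → (X →L[𝕜] X) →L[𝕜] 𝕜) (hK : ∀ k (T : X →L[𝕜] X), IsCompactOperator T → ψ k T = 0)
    (h0 : ∀ T, Tendsto (fun k => ψ k T) atTop (𝓝 0))
    (Φ : ((X →L[𝕜] X) →L[𝕜] 𝕜) →L[𝕜] 𝕜) : Tendsto (fun k => Φ (ψ k)) atTop (𝓝 0) := by
  have hle : ∀ k, compacts 𝕜 X ≤ LinearMap.ker (ψ k : (X →L[𝕜] X) →ₗ[𝕜] 𝕜) := by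
    intro k T hT
    rw [LinearMap.mem_ker]
    exact hK k T hT
  let ψ' : ℕ → Calkin 𝕜 X →L[𝕜] 𝕜 := fun k => (compacts 𝕜 X).liftQL (ψ k) (hle k)
  let R : (X →L[𝕜] X) →L[𝕜] Calkin 𝕜 X := (compacts 𝕜 X).mkQL
  have hψ' : ∀ k, (ψ' k).comp R = ψ k := by
    intro k
    ext T
    rfl
  have h1 := weak_of_factor R ψ' (fun x => by
    obtain ⟨T, rfl⟩ := Submodule.mkQ_surjective (compacts 𝕜 X) x
    exact h0 T) hG Φ
  simpa only [hψ'] using h1

theorem mult_indf {P : ℕ → X →L[𝕜] X} (D : (ℕ →ᵇ 𝕜) →L[𝕜] (X →L[𝕜] X))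
    (hD : ∀ a x, HasSum (fun n => a n • P n x) (D a x)) (N : ℕ) :
    D (indf 𝕜 (Set.Iio N)) = ps P N := by
  ext x
  rw [ps_apply]
  refine (hD _ x).unique ?_
  have h1 : HasSum (fun n => indf 𝕜 (Set.Iio N) n • P n x)
      (∑ n ∈ Finset.range N, indf 𝕜 (Set.Iio N) n • P n x) := by
    refine hasSum_sum_of_ne_finset_zero (fun n hn => ?_)
    rw [indf_apply, Set.indicator_of_notMem, zero_smul]
    intro h
    exact hn (Finset.mem_range.2 h)
  convert h1 using 1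
  refine Finset.sum_congr rfl (fun n hn => ?_)
  rw [indf_apply, Set.indicator_of_mem (show n ∈ Set.Iio N from Finset.mem_range.1 hn), one_smul]

/-- If the Calkin algebra of `X` is a Grothendieck space, then so is `B(X)`. -/
theorem grothendieck_of_calkin [CompleteSpace X] (hr : Pool.Agent.ANT.IsReflexive 𝕜 X)
    {P : ℕ → X →L[𝕜] X} (hP : IsUFDD P)
    (hE : ∀ φ : (X →L[𝕜] X) →L[𝕜] 𝕜, ∃ ψ : (X →L[𝕜] X) →L[𝕜] 𝕜,
      Tendsto (fun N => φ.comp (lmul (ps P N))) atTop (𝓝 ψ))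
    (hG : Pool.Agent.ANT.IsGrothendieck 𝕜 (Calkin 𝕜 X)) :
    Pool.Agent.ANT.IsGrothendieck 𝕜 (X →L[𝕜] X) := by
  obtain ⟨D, hD⟩ := exists_mult hP
  obtain ⟨C, hC0, hC⟩ := bdd_of_tendsto (ps P) (ps_tendsto hP)
  choose E hE using hE
  have hEp : ∀ φ T, Tendsto (fun N => φ ((ps P N).comp T)) atTop (𝓝 (E φ T)) := by
    intro φ T
    have h1 : Tendsto (fun L : (X →L[𝕜] X) →L[𝕜] 𝕜 => L T) (𝓝 (E φ)) (𝓝 (E φ T)) :=
      (ContinuousLinearMap.apply 𝕜 𝕜 T).continuous.tendsto (E φ)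
    exact h1.comp (hE φ)
  refine grothendieck_of_zero (fun φ hφ Φ => ?_)
  -- the canonical parts tend to `0` pointwise, by the lemma of Phillips
  have h1 : ∀ T, Tendsto (fun k => E (φ k) T) atTop (𝓝 0) := by
    intro T
    let μ : ℕ → (ℕ →ᵇ 𝕜) →L[𝕜] 𝕜 := fun k =>
      (φ k).comp (((ContinuousLinearMap.compL 𝕜 X X X).flip T).comp D)
    have hμ : ∀ k a, μ k a = φ k ((D a).comp T) := fun k a => rfl
    rw [Metric.tendsto_atTop]
    intro ε hε
    have h2 := phillips μ (fun a => by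
      simp only [hμ]
      exact hφ _) (ε / 2) (by positivity)
    obtain ⟨k0, hk0⟩ := eventually_atTop.1 h2
    refine ⟨k0, fun k hk => ?_⟩
    rw [dist_zero_right]
    refine lt_of_le_of_lt ?_ (half_lt_self hε)
    refine le_of_tendsto (hEp (φ k) T).norm (Eventually.of_forall (fun N => ?_))
    have h3 := hk0 k hk N
    rw [hμ, mult_indf D hD] at h3
    exact h3
  -- the value of `Φ` at a canonical part
  obtain ⟨T, hT⟩ := bidual_op hr Φ
  have h2 : ∀ k, Φ (E (φ k)) = E (φ k) T := by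
    intro k
    have e1 : Tendsto (fun N => Φ ((φ k).comp (lmul (ps P N)))) atTop (𝓝 (Φ (E (φ k)))) :=
      (Φ.continuous.tendsto _).comp (hE (φ k))
    have e2 : ∀ N, Φ ((φ k).comp (lmul (ps P N))) = φ k ((ps P N).comp T) := fun N =>
      hT (ps P N) (ps_fin hP N) (φ k)
    simp only [e2] at e1
    exact tendsto_nhds_unique e1 (hEp (φ k) T)
  have h3 : ∀ k (K : X →L[𝕜] X), IsCompactOperator K → (φ k - E (φ k)) K = 0 := by
    intro k K hK
    have e1 : Tendsto (fun N => φ k ((ps P N).comp K)) atTop (𝓝 (φ k K)) :=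
      ((φ k).continuous.tendsto _).comp (comp_compact (ps P) C hC0 hC (ps_tendsto hP) K hK)
    have e2 := tendsto_nhds_unique e1 (hEp (φ k) K)
    rw [ContinuousLinearMap.sub_apply, e2, sub_self]
  have h4 := calkin_weak hG (fun k => φ k - E (φ k)) h3 (fun T => by
    have := (hφ T).sub (h1 T)
    simpa using this) Φ
  have h5 := h4.add (h1 T)
  rw [add_zero] at h5
  refine h5.congr (fun k => ?_)
  rw [← h2 k, ← map_add, sub_add_cancel]

/-- `B(X)` Grothendieck implies that the Calkin algebra is Grothendieck. -/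
theorem calkin_of_grothendieck [CompleteSpace X]
    (hG : Pool.Agent.ANT.IsGrothendieck 𝕜 (X →L[𝕜] X)) :
    Pool.Agent.ANT.IsGrothendieck 𝕜 (Calkin 𝕜 X) :=
  grothendieck_of_surjective (compacts 𝕜 X).mkQL (Submodule.mkQ_surjective (compacts 𝕜 X)) hG

/-- If every operator is a multiplier plus a compact operator, then the Calkin algebra is a
Grothendieck space. -/
theorem calkin_of_mult [CompleteSpace X]
    (D : (ℕ →ᵇ 𝕜) →L[𝕜] (X →L[𝕜] X)) (hL : Pool.Agent.ANT.IsGrothendieck 𝕜 (ℕ →ᵇ 𝕜))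
    (h : ∀ T : X →L[𝕜] X, ∃ a : ℕ →ᵇ 𝕜, IsCompactOperator (T - D a)) :
    Pool.Agent.ANT.IsGrothendieck 𝕜 (Calkin 𝕜 X) := by
  refine grothendieck_of_surjective ((compacts 𝕜 X).mkQL.comp D) ?_ hL
  intro x
  obtain ⟨T, rfl⟩ := Submodule.mkQ_surjective (compacts 𝕜 X) x
  obtain ⟨a, ha⟩ := h T
  refine ⟨a, ?_⟩
  change (Submodule.Quotient.mk (D a) : Calkin 𝕜 X) = Submodule.Quotient.mk T
  rw [Submodule.Quotient.eq]
  have : D a - T = -(T - D a) := by abel
  rw [this]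
  exact (compacts 𝕜 X).neg_mem ha

end Pool.Agent.CALQ
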