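import Pool.Agent.CALQ.Defs

set_option autoImplicit false

namespace Pool.Agent.CALQ

open Filter Topology BoundedContinuousFunction

section proj

variable {𝕜 : Type*} [RCLike 𝕜] {X : Type*} [NormedAddCommGroup X] [NormedSpace 𝕜 X]

/-- Convergent sequences of partial sums, as a subspace of the bounded sequences. -/
def PS (F : ℕ → Submodule 𝕜 X) : Submodule 𝕜 (ℕ →ᵇ X) where
  carrier := {s | s 0 = 0 ∧ (∀ N, s (N + 1) - s N ∈ F N) ∧
    ∃ x, Tendsto (fun N => s N) atTop (𝓝 x)}
  zero_mem' := ⟨rfl, fun N => by simp, 0, by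
    simp only [BoundedContinuousFunction.coe_zero, Pi.zero_apply]; exact tendsto_const_nhds⟩
  add_mem' := by
    rintro s t ⟨h1, h2, x, h3⟩ ⟨h4, h5, y, h6⟩
    refine ⟨by simp [h1, h4], fun N => ?_, x + y, ?_⟩
    · have := Submodule.add_mem _ (h2 N) (h5 N)
      simp only [BoundedContinuousFunction.coe_add, Pi.add_apply]
      rwa [add_sub_add_comm]
    · simpa using h3.add h6
  smul_mem' := by
    rintro a s ⟨h1, h2, x, h3⟩
    refine ⟨by simp [h1], fun N => ?_, a • x, ?_⟩
    · have := Submodule.smul_mem _ a (h2 N)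
      simp only [BoundedContinuousFunction.coe_smul]
      rwa [← smul_sub]
    · simpa using h3.const_smul a

theorem ps_closed [CompleteSpace X] (F : ℕ → Submodule 𝕜 X)
    (hF : ∀ n, FiniteDimensional 𝕜 (F n)) : IsClosed (PS F : Set (ℕ →ᵇ X)) := by
  have h1 : IsClosed {s : ℕ →ᵇ X | s 0 = 0} :=
    isClosed_eq (continuous_eval_const _) continuous_const
  have h2 : IsClosed {s : ℕ →ᵇ X | ∀ N, s (N + 1) - s N ∈ F N} := by
    rw [Set.ofPred_forall]
    refine isClosed_iInter (fun N => ?_)
    have := hF N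
    have hc : IsClosed ((F N : Submodule 𝕜 X) : Set X) := Submodule.closed_of_finiteDimensional _
    exact hc.preimage ((continuous_eval_const _).sub (continuous_eval_const _))
  have h3 : IsClosed {s : ℕ →ᵇ X | ∃ x, Tendsto (fun N => s N) atTop (𝓝 x)} := by
    apply isClosed_of_closure_subset
    intro s hs
    rw [Metric.mem_closure_iff] at hs
    refine cauchySeq_tendsto_of_complete ?_
    rw [Metric.cauchySeq_iff']
    intro ε hε
    obtain ⟨t, ⟨x, ht⟩, hst⟩ := hs (ε / 3) (by linarith)
    obtain ⟨N, hN⟩ := Metric.cauchySeq_iff'.mp ht.cauchySeq (ε / 3) (by linarith)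
    refine ⟨N, fun n hn => ?_⟩
    have ha := (BoundedContinuousFunction.dist_coe_le_dist (f := s) (g := t) n).trans_lt hst
    have hb := (BoundedContinuousFunction.dist_coe_le_dist (f := s) (g := t) N).trans_lt hst
    have hc := hN n hn
    calc dist (s n) (s N) ≤ dist (s n) (t n) + dist (t n) (t N) + dist (t N) (s N) :=
          dist_triangle4 _ _ _ _
      _ < ε / 3 + ε / 3 + ε / 3 := by
          rw [dist_comm (t N) (s N)]
          linarith
      _ = ε := by ring
  have : (PS F : Set (ℕ →ᵇ X)) = {s : ℕ →ᵇ X | s 0 = 0} ∩ ({s : ℕ →ᵇ X |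
      ∀ N, s (N + 1) - s N ∈ F N} ∩
      {s : ℕ →ᵇ X | ∃ x, Tendsto (fun N => s N) atTop (𝓝 x)}) := rfl
  rw [this]
  exact h1.inter (h2.inter h3)

/-- The sum map on convergent sequences of partial sums. -/
theorem exists_lim_map (F : ℕ → Submodule 𝕜 X) :
    ∃ L : PS F →L[𝕜] X, ∀ s : PS F, Tendsto (fun N => s.1 N) atTop (𝓝 (L s)) := by
  have hex : ∀ s : PS F, ∃ x, Tendsto (fun N => s.1 N) atTop (𝓝 x) := fun s => s.2.2.2
  choose L hL using hex
  refine ⟨LinearMap.mkContinuous
    { toFun := L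
      map_add' := fun s t => ?_
      map_smul' := fun a s => ?_ } 1 (fun s => ?_), hL⟩
  · refine tendsto_nhds_unique (hL (s + t)) ?_
    simpa using (hL s).add (hL t)
  · refine tendsto_nhds_unique (hL (a • s)) ?_
    simpa using (hL s).const_smul a
  · rw [one_mul]
    refine le_of_tendsto (hL s).norm (Eventually.of_forall (fun N => ?_))
    exact s.1.norm_coe_le_norm N

/-- The coordinate projections of an unconditional finite-dimensional Schauder decomposition. -/
theorem exists_proj [CompleteSpace X] {F : ℕ → Submodule 𝕜 X} (h : IsUnconditionalFDD F) :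
    ∃ P : ℕ → X →L[𝕜] X, IsUFDD P ∧ ∀ n x, x ∈ F n ↔ P n x = x := by
  classical
  obtain ⟨hfin, hexp, huniq⟩ := h
  choose u huF hus using hexp
  have hpart : ∀ x, Tendsto (fun N => ∑ n ∈ Finset.range N, u x n) atTop (𝓝 x) := fun x =>
    (hus x).tendsto_sum_nat
  -- uniqueness
  have hun : ∀ (v : ℕ → X) (y : X), (∀ n, v n ∈ F n) →
      Tendsto (fun N => ∑ n ∈ Finset.range N, v n) atTop (𝓝 y) → ∀ n, v n = u y n := by
    intro v y hv hvy n
    have h1 := huniq (fun n => v n - u y n) (fun n => Submodule.sub_mem _ (hv n) (huF y n)) (by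
      have h2 := hvy.sub (hpart y)
      rw [sub_self] at h2
      refine h2.congr (fun N => ?_)
      rw [Finset.sum_sub_distrib]) n
    exact sub_eq_zero.mp h1
  have hadd : ∀ n x y, u (x + y) n = u x n + u y n := by
    intro n x y
    refine (hun (fun n => u x n + u y n) (x + y) (fun n => Submodule.add_mem _ (huF x n) (huF y n))
      ?_ n).symm
    refine ((hpart x).add (hpart y)).congr (fun N => ?_)
    rw [Finset.sum_add_distrib]
  have hsmul : ∀ n (a : 𝕜) x, u (a • x) n = a • u x n := by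
    intro n a x
    refine (hun (fun n => a • u x n) (a • x) (fun n => Submodule.smul_mem _ a (huF x n))
      ?_ n).symm
    refine ((hpart x).const_smul a).congr (fun N => ?_)
    rw [Finset.smul_sum]
  -- open mapping
  have : CompleteSpace (PS F) := (ps_closed F hfin).completeSpace_coe
  obtain ⟨L, hL⟩ := exists_lim_map F
  have hsurj : Function.Surjective L := by
    intro x
    obtain ⟨D, hD⟩ := isBounded_iff_forall_norm_le.mp (Metric.isBounded_range_of_tendsto _ (hpart x))
    let s : ℕ →ᵇ X := BoundedContinuousFunction.ofNormedAddCommGroupDiscrete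
      (fun N => ∑ n ∈ Finset.range N, u x n) D
      (fun N => hD _ (Set.mem_range_self N))
    have hs : ∀ N, s N = ∑ n ∈ Finset.range N, u x n := fun N => rfl
    have hmem : s ∈ PS F := by
      refine ⟨by rw [hs]; simp, fun N => ?_, x, ?_⟩
      · rw [hs, hs, Finset.sum_range_succ, add_sub_cancel_left]
        exact huF x N
      · exact (hpart x).congr (fun N => (hs N).symm)
    refine ⟨⟨s, hmem⟩, tendsto_nhds_unique (hL ⟨s, hmem⟩) ?_⟩
    exact (hpart x).congr (fun N => (hs N).symm)
  obtain ⟨K, hK, hKx⟩ := L.exists_preimage_norm_le hsurj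
  have hblk : ∀ n x, ‖u x n‖ ≤ 2 * K * ‖x‖ := by
    intro n x
    obtain ⟨s, hsx, hsn⟩ := hKx x
    have hps : ∀ N, s.1 N = ∑ n ∈ Finset.range N, (s.1 (n + 1) - s.1 n) := by
      intro N
      rw [Finset.sum_range_sub, s.2.1, sub_zero]
    have h3 : s.1 (n + 1) - s.1 n = u x n := by
      refine hun (fun n => s.1 (n + 1) - s.1 n) x s.2.2.1 ?_ n
      rw [← hsx]
      exact (hL s).congr hps
    rw [← h3]
    have hs' : ‖s.1‖ ≤ K * ‖x‖ := hsn
    calc ‖s.1 (n + 1) - s.1 n‖ ≤ ‖s.1 (n + 1)‖ + ‖s.1 n‖ := norm_sub_le _ _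
      _ ≤ ‖s.1‖ + ‖s.1‖ := add_le_add (s.1.norm_coe_le_norm _) (s.1.norm_coe_le_norm _)
      _ ≤ 2 * K * ‖x‖ := by linarith
  let P : ℕ → X →L[𝕜] X := fun n => LinearMap.mkContinuous
    { toFun := fun x => u x n
      map_add' := hadd n
      map_smul' := fun a x => hsmul n a x } (2 * K) (hblk n)
  have hP : ∀ n x, P n x = u x n := fun n x => rfl
  have hsingle : ∀ n x, x ∈ F n → ∀ k, P k x = if k = n then x else 0 := by
    intro n x hx k
    rw [hP]
    refine (hun (fun k => if k = n then x else 0) x (fun k => ?_) ?_ k).symm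
    · by_cases hk : k = n
      · rw [if_pos hk, hk]
        exact hx
      · rw [if_neg hk]
        exact Submodule.zero_mem _
    · refine tendsto_const_nhds.congr' ?_
      filter_upwards [eventually_gt_atTop n] with N hN
      rw [Finset.sum_ite_eq' (Finset.range N) n, if_pos (Finset.mem_range.mpr hN)]
  refine ⟨P, ⟨fun n => ?_, fun n k x => ?_, fun x => hus x⟩, fun n x => ⟨fun hx => ?_, fun hx => ?_⟩⟩
  · have := hfin n
    refine Submodule.finiteDimensional_of_le (S₂ := F n) ?_
    rintro _ ⟨x, rfl⟩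
    exact huF x n
  · rw [hsingle k (P k x) (huF x k) n]
  · rw [hsingle n x hx n, if_pos rfl]
  · rw [← hx]
    exact huF x n

end proj

end Pool.Agent.CALQ
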