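import Mathlib
import Pool.Agent.CALQ.Defs
import Pool.Agent.CALQ.Core
import Pool.Agent.CALQ.BDa
import Pool.Agent.CALQ.Proj

/-!
# From subspaces to projections
-/

set_option autoImplicit false

open Filter Topology BoundedContinuousFunction

namespace Pool.Agent.CALQ

variable {𝕜 : Type*} [RCLike 𝕜] {X : Type*} [NormedAddCommGroup X] [NormedSpace 𝕜 X]

theorem mem_Blk {P : ℕ → X →L[𝕜] X} (hP : IsUFDD P) {F : ℕ → Submodule 𝕜 X}
    (hF : ∀ n x, x ∈ F n ↔ P n x = x) (t : ℕ → ℕ) (j : ℕ) (x : X) :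
    x ∈ Blk F t j ↔ blk P t j x = x := by
  have hb : ∀ y, blk P t j y = ∑ n ∈ Finset.Ico (t j) (t (j + 1)), P n y := by
    intro y
    rw [blk, ContinuousLinearMap.sum_apply]
  constructor
  · intro hx
    have hle : Blk F t j ≤ LinearMap.eqLocus (blk P t j : X →ₗ[𝕜] X) LinearMap.id := by
      refine iSup₂_le (fun n hn y hy => ?_)
      rw [LinearMap.mem_eqLocus]
      change blk P t j y = y
      rw [hb]
      have hy' := (hF n y).1 hy
      have h1 : ∀ k, P k y = if k = n then P n y else 0 := by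
        intro k
        conv_lhs => rw [← hy']
        exact hP.2.1 k n y
      rw [Finset.sum_eq_single n]
      · exact hy'
      · intro k _ hk
        rw [h1, if_neg hk]
      · exact fun h => absurd hn h
    exact hle hx
  · intro hx
    rw [← hx, hb]
    refine Submodule.sum_mem _ (fun n hn => ?_)
    have h1 : F n ≤ Blk F t j := le_iSup₂_of_le n hn le_rfl
    refine h1 ((hF n _).2 ?_)
    rw [hP.2.1, if_pos rfl]

theorem blk_idem {P : ℕ → X →L[𝕜] X} (hP : IsUFDD P) (t : ℕ → ℕ) (j : ℕ) (x : X) :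
    blk P t j (blk P t j x) = blk P t j x := by
  rw [blk_eq, sumP_sumP hP, Finset.inter_self]

theorem blockDiag_eq {P : ℕ → X →L[𝕜] X} (hP : IsUFDD P) {F : ℕ → Submodule 𝕜 X}
    (hF : ∀ n x, x ∈ F n ↔ P n x = x) (t : ℕ → ℕ) : BlockDiag F t = BD P t := by
  ext T
  constructor
  · intro hT j x
    exact (mem_Blk hP hF t j _).1 (hT j _ ((mem_Blk hP hF t j _).2 (blk_idem hP t j x)))
  · intro hT j x hx
    have h1 := (mem_Blk hP hF t j _).1 hx
    rw [mem_Blk hP hF t j]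
    have h2 := hT j x
    rw [h1] at h2
    exact h2

/-- An operator which is a multiple of the identity on each `F n` is a multiplier with bounded
coefficients. -/
theorem exists_coeff [CompleteSpace X] {P : ℕ → X →L[𝕜] X} (hP : IsUFDD P)
    {F : ℕ → Submodule 𝕜 X} (hF : ∀ n x, x ∈ F n ↔ P n x = x)
    (D : (ℕ →ᵇ 𝕜) →L[𝕜] (X →L[𝕜] X)) (hD : ∀ a x, HasSum (fun n => a n • P n x) (D a x))
    (A : X →L[𝕜] X) (a : ℕ → 𝕜) (hA : ∀ n, ∀ x ∈ F n, A x = a n • x) :
    ∃ b : ℕ →ᵇ 𝕜, A = D b := by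
  classical
  let b0 : ℕ → 𝕜 := fun n => if ∃ x ∈ F n, x ≠ 0 then a n else 0
  have hb0 : ∀ n, ‖b0 n‖ ≤ ‖A‖ := by
    intro n
    change ‖if ∃ x ∈ F n, x ≠ 0 then a n else 0‖ ≤ ‖A‖
    split_ifs with h
    · obtain ⟨x, hx, hx0⟩ := h
      have h1 := A.le_opNorm x
      rw [hA n x hx, norm_smul] at h1
      exact le_of_mul_le_mul_right h1 (norm_pos_iff.2 hx0)
    · simp
  let b : ℕ →ᵇ 𝕜 := BoundedContinuousFunction.ofNormedAddCommGroupDiscrete b0 ‖A‖ hb0
  refine ⟨b, ?_⟩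
  ext x
  refine HasSum.unique ?_ (hD b x)
  have h1 : HasSum (fun n => A (P n x)) (A x) := (hP.2.2 x).mapL A
  refine h1.congr_fun (fun n => ?_)
  have hmem : P n x ∈ F n := (hF n _).2 (by rw [hP.2.1, if_pos rfl])
  change b0 n • P n x = A (P n x)
  by_cases h : ∃ y ∈ F n, y ≠ 0
  · rw [hA n _ hmem]
    change (if ∃ x ∈ F n, x ≠ 0 then a n else 0) • P n x = _
    rw [if_pos h]
  · push Not at h
    rw [h _ hmem, smul_zero, map_zero]

end Pool.Agent.CALQ
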