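import Mathlib
import Pool.Agent.LipPlane.Charges
import Pool.Agent.ANT.Defs

set_option autoImplicit false
open Filter Topology
open scoped NNReal BoundedContinuousFunction

namespace Pool.Agent.CALQ

open Pool.Agent.LipPlane

/-- Helly's theorem, approximate form. -/
theorem hellyR {E : Type*} [NormedAddCommGroup E] [NormedSpace ℝ E]
    (φ : ℕ → (E →L[ℝ] ℝ)) (ψ : (E →L[ℝ] ℝ) →ₗ[ℝ] ℝ) (r : ℝ) (hr : 0 < r)
    (hψ : ∀ χ : E →L[ℝ] ℝ, |ψ χ| ≤ r * ‖χ‖)
    (K : ℕ) (τ : ℝ) (hτ : 0 < τ) :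
    ∃ e : E, ‖e‖ ≤ r ∧ ∀ j < K, |φ j e - ψ (φ j)| ≤ τ := by
  let A : E →ₗ[ℝ] (Fin K → ℝ) := LinearMap.pi fun j => (φ j : E →ₗ[ℝ] ℝ)
  let C : Set (Fin K → ℝ) := A '' Metric.closedBall 0 r
  have hC : Convex ℝ C := (convex_closedBall (0 : E) r).linear_image A
  let y : Fin K → ℝ := fun j => ψ (φ j)
  have hy : y ∈ closure C := by
    by_contra hnot
    obtain ⟨f, u, h1, h2⟩ := geometric_hahn_banach_closed_point hC.closure isClosed_closure hnot
    let c : Fin K → ℝ := fun j => f (Pi.single j 1)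
    have hf : ∀ z : Fin K → ℝ, f z = ∑ j, z j * c j := by
      intro z
      have hz : z = ∑ j, z j • (Pi.single j (1 : ℝ) : Fin K → ℝ) := by
        funext i
        simp [Finset.sum_apply, Pi.single_apply]
      conv_lhs => rw [hz]
      rw [map_sum]
      apply Finset.sum_congr rfl
      intro j _
      rw [map_smul, smul_eq_mul]
    let χ : E →L[ℝ] ℝ := ∑ j, c j • φ (j : ℕ)
    have hχ : ∀ e : E, χ e = f (A e) := by
      intro e
      rw [hf]
      simp only [χ]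
      rw [sum_apply]
      apply Finset.sum_congr rfl
      intro j _
      show c j * φ j e = φ j e * c j
      ring
    have hψχ : ψ χ = f y := by
      rw [hf]
      simp only [χ, y]
      rw [map_sum]
      apply Finset.sum_congr rfl
      intro j _
      rw [map_smul, smul_eq_mul]
      ring
    have hle : ∀ e : E, ‖e‖ ≤ r → χ e < u := by
      intro e he
      rw [hχ]
      exact h1 _ (subset_closure ⟨e, by simpa using he, rfl⟩)
    have hu : 0 < u := by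
      have h3 := hle 0 (by rw [norm_zero]; exact hr.le)
      rwa [map_zero] at h3
    have hnorm : ‖χ‖ ≤ u / r := by
      apply χ.opNorm_le_bound (by positivity)
      intro e
      by_cases he : e = 0
      · subst he
        simp
      · have hpos : 0 < ‖e‖ := norm_pos_iff.mpr he
        have key : ∀ s : ℝ, |s| = 1 → s * χ e ≤ u / r * ‖e‖ := by
          intro s hs
          have h3 := hle ((s * r / ‖e‖) • e) (by
            rw [norm_smul, Real.norm_eq_abs, abs_div, abs_mul, hs, one_mul, abs_of_pos hr,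
              abs_of_pos hpos]
            field_simp
            exact le_rfl)
          rw [map_smul, smul_eq_mul] at h3
          have h4 : s * χ e = (s * r / ‖e‖ * χ e) * (‖e‖ / r) := by
            field_simp
          rw [h4]
          have h5 : (s * r / ‖e‖ * χ e) * (‖e‖ / r) ≤ u * (‖e‖ / r) :=
            mul_le_mul_of_nonneg_right h3.le (by positivity)
          refine h5.trans (le_of_eq ?_)
          ring
        rw [Real.norm_eq_abs]
        rcases abs_cases (χ e) with ⟨h3, -⟩ | ⟨h3, -⟩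
        · rw [h3]
          have := key 1 (by norm_num)
          linarith
        · rw [h3]
          have := key (-1) (by norm_num)
          linarith
    have h3 : ψ χ ≤ r * (u / r) := by
      exact (le_abs_self _).trans ((hψ χ).trans (mul_le_mul_of_nonneg_left hnorm hr.le))
    have h6 : r * (u / r) = u := by field_simp
    rw [h6, hψχ] at h3
    linarith
  obtain ⟨z, ⟨e, he, rfl⟩, hz⟩ := Metric.mem_closure_iff.mp hy τ hτ
  refine ⟨e, by simpa using he, ?_⟩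
  intro j hj
  have h1 := (dist_le_pi_dist y (A e) ⟨j, hj⟩).trans hz.le
  rw [Real.dist_eq, abs_sub_comm] at h1
  exact h1


/-- The indicator sequence of a set. -/
noncomputable def ind (A : Set ℕ) : ℕ →ᵇ ℝ :=
  BoundedContinuousFunction.ofNormedAddCommGroupDiscrete (A.indicator fun _ => (1 : ℝ)) 1
    (fun N => by
      by_cases h : N ∈ A
      · rw [Set.indicator_of_mem h, norm_one]
      · rw [Set.indicator_of_notMem h, norm_zero]
        exact zero_le_one)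

theorem ind_mem {A : Set ℕ} {N : ℕ} (h : N ∈ A) : ind A N = 1 :=
  Set.indicator_of_mem h (fun _ => (1 : ℝ))

theorem ind_notMem {A : Set ℕ} {N : ℕ} (h : N ∉ A) : ind A N = 0 :=
  Set.indicator_of_notMem h (fun _ => (1 : ℝ))

theorem ind_nonneg (A : Set ℕ) (N : ℕ) : 0 ≤ ind A N := by
  by_cases h : N ∈ A
  · rw [ind_mem h]
    exact zero_le_one
  · rw [ind_notMem h]


/-- Control of the index sequence of a disjoint family with large charges. -/
theorem unbounded_index {m : ℕ → Set ℕ → ℝ} (hm : ∀ k, IsCharge (m k)) (B : ℕ → Set ℕ)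
    (hB : ∀ i j, i ≠ j → Disjoint (B i) (B j)) (ε : ℝ) (hε : 0 < ε) (k : ℕ → ℕ)
    (hk : ∀ i, ε ≤ m (k i) (B i)) (K : ℕ) : ∃ i, K ≤ k i := by
  by_contra hcon
  push Not at hcon
  obtain ⟨n, hn⟩ := exists_nat_gt ((K : ℝ) / ε)
  rw [div_lt_iff₀ hε] at hn
  have h1 : (n : ℝ) * ε ≤ ∑ i ∈ Finset.range n, ∑ κ ∈ Finset.range K, m κ (B i) := by
    have h2 : ∑ i ∈ Finset.range n, ε ≤ ∑ i ∈ Finset.range n, ∑ κ ∈ Finset.range K, m κ (B i) := by
      apply Finset.sum_le_sum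
      intro i _
      refine (hk i).trans ?_
      exact Finset.single_le_sum (f := fun κ => m κ (B i)) (fun κ _ => (hm κ).nonneg _)
        (Finset.mem_range.mpr (hcon i))
    rw [Finset.sum_const, Finset.card_range, nsmul_eq_mul] at h2
    exact h2
  rw [Finset.sum_comm] at h1
  have h3 : ∑ κ ∈ Finset.range K, ∑ i ∈ Finset.range n, m κ (B i) ≤
      ∑ κ ∈ Finset.range K, (1 : ℝ) := Finset.sum_le_sum fun κ _ => (hm κ).sum_le _ _ hB
  rw [Finset.sum_const, Finset.card_range, nsmul_eq_mul, mul_one] at h3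
  linarith

/-- Pointwise convergence of internal functionals forces uniform exhaustivity of the charges. -/

theorem ind_union {A B : Set ℕ} (hAB : Disjoint A B) : ind (A ∪ B) = ind A + ind B := by
  ext N
  show ind (A ∪ B) N = ind A N + ind B N
  by_cases h1 : N ∈ A
  · have h2 : N ∉ B := fun h => Set.disjoint_left.mp hAB h1 h
    rw [ind_mem (Or.inl h1), ind_mem h1, ind_notMem h2, add_zero]
  · by_cases h2 : N ∈ B
    · rw [ind_mem (Or.inr h2), ind_notMem h1, ind_mem h2, zero_add]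
    · rw [ind_notMem h1, ind_notMem h2, ind_notMem (fun h => h.elim h1 h2), add_zero]

/-- The charge of a functional. -/
noncomputable def chg (ν : (ℕ →ᵇ ℝ) →L[ℝ] ℝ) (A : Set ℕ) : ℝ := tv ν (ind A)

theorem isCharge_chg (ν : (ℕ →ᵇ ℝ) →L[ℝ] ℝ) (hν : ‖ν‖ ≤ 1) : IsCharge (chg ν) where
  nonneg A := tv_nonneg ν (ind_nonneg A)
  le_one := by
    refine le_trans (tv_mono ν (h := oneSeq) ?_) ((tv_one_le ν).trans hν)
    intro N
    rw [ind_mem (Set.mem_univ N), oneSeq_apply]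
  add A B hAB := by
    unfold chg
    rw [ind_union hAB, map_add]

/-- Weak* null sequences have uniformly exhaustive charges. -/
theorem uexh_of_null (ν : ℕ → ((ℕ →ᵇ ℝ) →L[ℝ] ℝ)) (hν : ∀ k, ‖ν k‖ ≤ 1)
    (h0 : ∀ x, Tendsto (fun k => ν k x) atTop (𝓝 0)) : UExh (fun k => chg (ν k)) := by
  classical
  intro B hB ε hε
  by_contra hcon
  push Not at hcon
  choose k hk using hcon
  obtain ⟨s, hs, hs2⟩ := rosenthal (ε / 8) (by positivity)
    (fun i => chg (ν (k i))) B (fun i => isCharge_chg _ (hν _)) hB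
  choose g hg1 hg2 using fun i => tv_near (ν (k i)) (ind_nonneg (B i)) (ε / 2) (by positivity)
  have hg0 : ∀ i N, N ∉ B i → g i N = 0 := by
    intro i N hN
    have h2 := hg1 i N
    rw [ind_notMem hN] at h2
    exact abs_nonpos_iff.mp h2
  have hgle : ∀ i N, |g i N| ≤ 1 := by
    intro i N
    refine (hg1 i N).trans ?_
    by_cases hN : N ∈ B i
    · rw [ind_mem hN]
    · rw [ind_notMem hN]
      exact zero_le_one
  -- the union of the blocks
  let xf : ℕ → ℝ := fun N => if h : ∃ i, N ∈ B (s i) then g (s h.choose) N else 0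
  have hxf : ∀ i N, N ∈ B (s i) → xf N = g (s i) N := by
    intro i N hN
    have h : ∃ i, N ∈ B (s i) := ⟨i, hN⟩
    have h1 : h.choose = i := by
      by_contra hne
      have h2 : s h.choose ≠ s i := fun he => hne (hs he)
      exact Set.disjoint_left.mp (hB _ _ h2) h.choose_spec hN
    show (if h : ∃ i, N ∈ B (s i) then g (s h.choose) N else 0) = _
    rw [dif_pos h, h1]
  have hxf0 : ∀ N, (¬ ∃ i, N ∈ B (s i)) → xf N = 0 := fun N h => dif_neg h
  have hxle : ∀ N, ‖xf N‖ ≤ 1 := by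
    intro N
    rw [Real.norm_eq_abs]
    by_cases h : ∃ i, N ∈ B (s i)
    · obtain ⟨i, hi⟩ := h
      rw [hxf i N hi]
      exact hgle _ _
    · rw [hxf0 N h, abs_zero]
      exact zero_le_one
  let x : ℕ →ᵇ ℝ := BoundedContinuousFunction.ofNormedAddCommGroupDiscrete xf 1 hxle
  have hx : ∀ N, x N = xf N := fun N => rfl
  have key : ∀ i, ε / 4 < ν (k (s i)) x := by
    intro i
    have h1 : |ν (k (s i)) (x - g (s i))| ≤ chg (ν (k (s i))) (⋃ j ∈ {j : ℕ | j ≠ i}, B (s j)) := by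
      apply abs_le_tv
      intro N
      show |xf N - g (s i) N| ≤ _
      by_cases h : ∃ j, N ∈ B (s j)
      · obtain ⟨j, hj⟩ := h
        by_cases hji : j = i
        · subst hji
          rw [hxf j N hj, sub_self, abs_zero]
          exact ind_nonneg _ _
        · have h2 : N ∉ B (s i) := fun h3 =>
            Set.disjoint_left.mp (hB _ _ (fun he => hji (hs he))) hj h3
          rw [hxf j N hj, hg0 (s i) N h2, sub_zero, ind_mem]
          · exact hgle _ _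
          · exact Set.mem_iUnion₂.mpr ⟨j, hji, hj⟩
      · have h2 : N ∉ B (s i) := fun h3 => h ⟨i, h3⟩
        rw [hxf0 N h, hg0 (s i) N h2, sub_self, abs_zero]
        exact ind_nonneg _ _
    have h2 : chg (ν (k (s i))) (⋃ j ∈ {j : ℕ | j ≠ i}, B (s j)) < ε / 8 := hs2 i
    have h3 := hg2 (s i)
    have h4 : ε ≤ chg (ν (k (s i))) (B (s i)) := hk (s i)
    have h5 : ν (k (s i)) x = ν (k (s i)) (g (s i)) + ν (k (s i)) (x - g (s i)) := by
      rw [map_sub]
      ring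
    have h6 := (abs_le.mp h1).1
    have h7 : chg (ν (k (s i))) (B (s i)) = tv (ν (k (s i))) (ind (B (s i))) := rfl
    rw [h5]
    rw [h7] at h4
    linarith
  obtain ⟨K, hK⟩ := Metric.tendsto_atTop.mp (h0 x) (ε / 4) (by positivity)
  obtain ⟨i, hi⟩ := unbounded_index (fun k => isCharge_chg _ (hν k)) (fun i => B (s i))
    (fun i j hij => hB _ _ (fun he => hij (hs he))) ε hε (fun i => k (s i)) (fun i => hk (s i)) K
  have h1 := hK _ hi
  rw [Real.dist_eq, sub_zero] at h1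
  have h2 := key i
  have h3 := le_abs_self (ν (k (s i)) x)
  linarith

section lam

variable (ν : ℕ → ((ℕ →ᵇ ℝ) →L[ℝ] ℝ)) (hν : ∀ k, ‖ν k‖ ≤ 1)

theorem sum_half : Summable (fun k : ℕ => (1 / 2 : ℝ) ^ (k + 1)) := by
  have := (summable_geometric_of_lt_one (r := (1 / 2 : ℝ)) (by norm_num) (by norm_num)).mul_left
    (1 / 2 : ℝ)
  refine this.congr ?_
  intro k
  rw [pow_succ]
  ring

theorem tsum_half : ∑' k : ℕ, (1 / 2 : ℝ) ^ (k + 1) = 1 := by
  have h1 : (fun k : ℕ => (1 / 2 : ℝ) ^ (k + 1)) = fun k => (1 / 2 : ℝ) * (1 / 2 : ℝ) ^ k := by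
    funext k
    rw [pow_succ]
    ring
  rw [h1, tsum_mul_left, tsum_geometric_of_lt_one (by norm_num) (by norm_num)]
  norm_num

theorem abs_tv_le (ρ : (ℕ →ᵇ ℝ) →L[ℝ] ℝ) (hρ : ‖ρ‖ ≤ 1) (g : ℕ →ᵇ ℝ) : |tv ρ g| ≤ ‖g‖ := by
  have h2 : ∀ N, |g N| ≤ ‖g‖ := fun N => by
    rw [← Real.norm_eq_abs]
    exact g.norm_coe_le_norm N
  have h1 : tv ρ (‖g‖ • oneSeq) ≤ ‖g‖ := by
    rw [map_smul, smul_eq_mul]
    have h3 := (tv_one_le ρ).trans hρ
    have := mul_le_mul_of_nonneg_left h3 (norm_nonneg g)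
    linarith
  rw [abs_le]
  constructor
  · have h4 := tv_mono ρ (g := -g) (h := ‖g‖ • oneSeq) (fun N => by
      show - g N ≤ ‖g‖ * 1
      have := (abs_le.mp (h2 N)).1
      linarith)
    rw [map_neg] at h4
    linarith
  · have h4 := tv_mono ρ (g := g) (h := ‖g‖ • oneSeq) (fun N => by
      show g N ≤ ‖g‖ * 1
      have := (abs_le.mp (h2 N)).2
      linarith)
    linarith

include hν in
theorem lam_bound (g : ℕ →ᵇ ℝ) (k : ℕ) :
    ‖(1 / 2 : ℝ) ^ (k + 1) * tv (ν k) g‖ ≤ (1 / 2 : ℝ) ^ (k + 1) * ‖g‖ := by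
  rw [norm_mul, Real.norm_eq_abs, Real.norm_eq_abs, abs_of_pos (by positivity)]
  exact mul_le_mul_of_nonneg_left (abs_tv_le _ (hν k) g) (by positivity)

include hν in
theorem lam_summable (g : ℕ →ᵇ ℝ) :
    Summable (fun k : ℕ => (1 / 2 : ℝ) ^ (k + 1) * tv (ν k) g) :=
  Summable.of_norm_bounded (sum_half.mul_right ‖g‖) (lam_bound ν hν g)

/-- The sum of the weighted total variations. -/
noncomputable def lam (g : ℕ →ᵇ ℝ) : ℝ := ∑' k : ℕ, (1 / 2 : ℝ) ^ (k + 1) * tv (ν k) g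

include hν in
theorem lam_add (g h : ℕ →ᵇ ℝ) : lam ν (g + h) = lam ν g + lam ν h := by
  unfold lam
  rw [← (lam_summable ν hν g).tsum_add (lam_summable ν hν h)]
  apply tsum_congr
  intro k
  rw [map_add]
  ring

theorem lam_smul (c : ℝ) (g : ℕ →ᵇ ℝ) : lam ν (c • g) = c * lam ν g := by
  unfold lam
  rw [← tsum_mul_left]
  apply tsum_congr
  intro k
  rw [map_smul, smul_eq_mul]
  ring

theorem lam_nonneg (g : ℕ →ᵇ ℝ) (hg : ∀ N, 0 ≤ g N) : 0 ≤ lam ν g := by
  apply tsum_nonneg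
  intro k
  exact mul_nonneg (by positivity) (tv_nonneg (ν k) hg)

include hν in
theorem lam_mono {g h : ℕ →ᵇ ℝ} (hgh : ∀ N, g N ≤ h N) : lam ν g ≤ lam ν h := by
  have h1 := lam_nonneg ν (h - g) (fun N => by
    rw [BoundedContinuousFunction.coe_sub, Pi.sub_apply, sub_nonneg]
    exact hgh N)
  have h2 := lam_add ν hν (h - g) g
  rw [sub_add_cancel] at h2
  linarith

include hν in
theorem lam_charge : IsCharge (fun A => lam ν (ind A)) where
  nonneg A := lam_nonneg ν _ (ind_nonneg A)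
  le_one := by
    show lam ν (ind Set.univ) ≤ 1
    unfold lam
    refine le_trans ?_ tsum_half.le
    refine (lam_summable ν hν _).tsum_le_tsum ?_ sum_half
    intro k
    have h1 : tv (ν k) (ind Set.univ) ≤ 1 := (isCharge_chg (ν k) (hν k)).le_one
    have := mul_le_mul_of_nonneg_left h1 (show (0 : ℝ) ≤ (1 / 2 : ℝ) ^ (k + 1) by positivity)
    linarith
  add A B hAB := by
    show lam ν (ind (A ∪ B)) = lam ν (ind A) + lam ν (ind B)
    rw [ind_union hAB, lam_add ν hν]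

include hν in
theorem chg_le_lam (k : ℕ) (A : Set ℕ) : chg (ν k) A ≤ (2 : ℝ) ^ (k + 1) * lam ν (ind A) := by
  have h1 : (1 / 2 : ℝ) ^ (k + 1) * tv (ν k) (ind A) ≤ lam ν (ind A) := by
    unfold lam
    apply (lam_summable ν hν (ind A)).le_tsum k
    intro j _
    exact mul_nonneg (by positivity) (tv_nonneg _ (ind_nonneg A))
  have h2 : chg (ν k) A = (2 : ℝ) ^ (k + 1) * ((1 / 2 : ℝ) ^ (k + 1) * tv (ν k) (ind A)) := by
    rw [← mul_assoc, ← mul_pow]
    norm_num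
    rfl
  rw [h2]
  exact mul_le_mul_of_nonneg_left h1 (by positivity)

end lam

/-- Real `l_∞`: weak* null sequences of norm at most one are weakly null. -/
theorem real_null (ν : ℕ → ((ℕ →ᵇ ℝ) →L[ℝ] ℝ)) (hν : ∀ k, ‖ν k‖ ≤ 1)
    (h0 : ∀ x, Tendsto (fun k => ν k x) atTop (𝓝 0)) (ψ : ((ℕ →ᵇ ℝ) →L[ℝ] ℝ) →ₗ[ℝ] ℝ)
    (C : ℝ) (hC : ∀ χ : (ℕ →ᵇ ℝ) →L[ℝ] ℝ, |ψ χ| ≤ C * ‖χ‖) :
    Tendsto (fun k => ψ (ν k)) atTop (𝓝 0) := by
  classical
  set r : ℝ := |C| + 1 with hr_def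
  have hr : 0 < r := by positivity
  have hψ : ∀ χ : (ℕ →ᵇ ℝ) →L[ℝ] ℝ, |ψ χ| ≤ r * ‖χ‖ := fun χ => by
    refine (hC χ).trans (mul_le_mul_of_nonneg_right ?_ (norm_nonneg χ))
    have := le_abs_self C
    linarith
  let S : ℕ → Set (ℕ →ᵇ ℝ) := fun K =>
    {u | ‖u‖ ≤ r ∧ ∀ j < K, |ν j u - ψ (ν j)| ≤ 1 / ((K : ℝ) + 1)}
  have hSne : ∀ K, (S K).Nonempty := by
    intro K
    obtain ⟨e, he1, he2⟩ := hellyR ν ψ r hr hψ K (1 / ((K : ℝ) + 1)) (by positivity)
    exact ⟨e, he1, he2⟩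
  have hSanti : ∀ a b, a ≤ b → S b ⊆ S a := by
    intro a b hab u hu
    refine ⟨hu.1, fun j hj => (hu.2 j (lt_of_lt_of_le hj hab)).trans ?_⟩
    apply one_div_le_one_div_of_le (by positivity)
    have : (a : ℝ) ≤ b := by exact_mod_cast hab
    linarith
  have hSmid : ∀ K, ∀ u ∈ S K, ∀ v ∈ S K, (1 / 2 : ℝ) • (u + v) ∈ S K := by
    intro K u hu v hv
    refine ⟨?_, fun j hj => ?_⟩
    · rw [norm_smul, Real.norm_eq_abs, abs_of_pos (by norm_num : (0 : ℝ) < 1 / 2)]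
      have := norm_add_le u v
      have h1 := hu.1
      have h2 := hv.1
      linarith
    · have h1 := hu.2 j hj
      have h2 := hv.2 j hj
      rw [map_smul, map_add, smul_eq_mul]
      rw [abs_le] at h1 h2 ⊢
      constructor <;> linarith
  let Q : (ℕ →ᵇ ℝ) → ℝ := fun u => lam ν (u * u)
  have hQ0 : ∀ u, 0 ≤ Q u := fun u => lam_nonneg ν _ (fun N => mul_self_nonneg (u N))
  have hQle : ∀ u, ‖u‖ ≤ r → Q u ≤ r ^ 2 := by
    intro u hu
    have h1 : lam ν (u * u) ≤ lam ν ((r ^ 2) • oneSeq) := by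
      apply lam_mono ν hν
      intro N
      show u N * u N ≤ r ^ 2 * 1
      have h2 := (u.norm_coe_le_norm N).trans hu
      rw [Real.norm_eq_abs] at h2
      rw [← abs_mul_abs_self]
      nlinarith [abs_nonneg (u N)]
    rw [lam_smul] at h1
    have h3 : lam ν oneSeq ≤ 1 := by
      have h4 := (lam_charge ν hν).le_one
      have h5 : ind Set.univ = oneSeq := by
        ext N
        exact ind_mem (Set.mem_univ N)
      simp only [h5] at h4
      exact h4
    have := mul_le_mul_of_nonneg_left h3 (show 0 ≤ r ^ 2 by positivity)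
    show lam ν (u * u) ≤ r ^ 2
    linarith
  have hpar : ∀ u v, Q ((1 / 2 : ℝ) • (u + v)) + (1 / 4) * Q (u - v) = (Q u + Q v) / 2 := by
    intro u v
    have h1 : (((1 / 2 : ℝ) • (u + v)) * ((1 / 2 : ℝ) • (u + v)) : ℕ →ᵇ ℝ) +
        (1 / 4 : ℝ) • ((u - v) * (u - v)) = (1 / 2 : ℝ) • (u * u + v * v) := by
      ext N
      show (1 / 2 * (u N + v N)) * (1 / 2 * (u N + v N)) + 1 / 4 * ((u N - v N) * (u N - v N)) =
        1 / 2 * (u N * u N + v N * v N)
      ring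
    have h2 := congrArg (lam ν) h1
    rw [lam_add ν hν, lam_smul, lam_smul, lam_add ν hν] at h2
    show lam ν _ + 1 / 4 * lam ν _ = (lam ν _ + lam ν _) / 2
    linarith
  let I : ℕ → ℝ := fun K => sInf (Q '' S K)
  have hbdd : ∀ K, BddBelow (Q '' S K) := fun K => ⟨0, by
    rintro _ ⟨u, -, rfl⟩
    exact hQ0 u⟩
  have hIle : ∀ K, ∀ u ∈ S K, I K ≤ Q u := fun K u hu => csInf_le (hbdd K) ⟨u, hu, rfl⟩
  have hImono : ∀ a b, a ≤ b → I a ≤ I b := fun a b hab =>
    csInf_le_csInf (hbdd a) ((hSne b).image Q) (Set.image_mono (hSanti a b hab))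
  have hIr : ∀ K, I K ≤ r ^ 2 := fun K => by
    obtain ⟨u, hu⟩ := hSne K
    exact (hIle K u hu).trans (hQle u hu.1)
  have hIbdd : BddAbove (Set.range I) := ⟨r ^ 2, by
    rintro _ ⟨K, rfl⟩
    exact hIr K⟩
  have hy : ∀ K, ∃ u ∈ S K, Q u < I K + 1 / ((K : ℝ) + 1) := by
    intro K
    obtain ⟨_, ⟨u, hu, rfl⟩, h2⟩ := exists_lt_of_csInf_lt ((hSne K).image Q)
      (show sInf (Q '' S K) < I K + 1 / ((K : ℝ) + 1) from by
        have : (0 : ℝ) < 1 / ((K : ℝ) + 1) := by positivity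
        show I K < _
        linarith)
    exact ⟨u, hu, h2⟩
  choose y hyS hyQ using hy
  have hU := uexh_of_null ν hν h0
  -- the main estimate
  have main : ∀ η : ℝ, 0 < η → ∃ e : ℕ →ᵇ ℝ, ∀ k, |ν k e - ψ (ν k)| ≤ η := by
    intro η hη
    obtain ⟨δ, hδ, huac⟩ := uac (fun k => isCharge_chg (ν k) (hν k)) hU (lam_charge ν hν)
      (fun k => ⟨(2 : ℝ) ^ (k + 1), fun A => chg_le_lam ν hν k A⟩) (η / (8 * r)) (by positivity)
    let t : ℝ := η / 4
    have ht : 0 < t := by positivity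
    let σ : ℝ := δ * t ^ 2 / 16
    have hσ : 0 < σ := by positivity
    obtain ⟨n1, hn1⟩ := exists_lt_of_lt_ciSup (show (⨆ K, I K) - σ < ⨆ K, I K by linarith)
    obtain ⟨n2, hn2⟩ := exists_nat_gt (1 / σ)
    let n : ℕ := max n1 n2
    have hIn : ∀ m, I m ≤ I n + σ := by
      intro m
      have h1 := le_ciSup hIbdd m
      have h2 := hImono n1 n (le_max_left _ _)
      linarith
    have hsmall : ∀ m, n ≤ m → 1 / ((m : ℝ) + 1) ≤ σ := by
      intro m hm
      rw [div_le_iff₀ (by positivity)]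
      have h1 : (n2 : ℝ) ≤ m := by exact_mod_cast (le_max_right n1 n2).trans hm
      rw [div_lt_iff₀ hσ] at hn2
      nlinarith
    have hQd : ∀ m, n ≤ m → Q (y m - y n) < δ * t ^ 2 := by
      intro m hm
      have h1 := hpar (y m) (y n)
      have h2 := hIle n _ (hSmid n _ (hSanti n m hm (hyS m)) _ (hyS n))
      have h3 := hyQ m
      have h4 := hyQ n
      have h5 := hIn m
      have h6 := hsmall m hm
      have h7 := hsmall n le_rfl
      have h8 : σ = δ * t ^ 2 / 16 := rfl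
      have h9 : 0 < δ * t ^ 2 := by positivity
      linarith
    refine ⟨y n, fun k => ?_⟩
    have hstep : ∀ m, n ≤ m → k < m → |ν k (y n) - ψ (ν k)| ≤ η / 2 + 1 / ((m : ℝ) + 1) := by
      intro m hnm hkm
      let z : ℕ →ᵇ ℝ := y m - y n
      let A : Set ℕ := {N | t < |z N|}
      have hz : ‖z‖ ≤ 2 * r := by
        refine (norm_sub_le _ _).trans ?_
        have h1 := (hyS m).1
        have h2 := (hyS n).1
        linarith
      have hA : lam ν (ind A) < δ := by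
        have h1 : lam ν ((t ^ 2) • ind A) ≤ lam ν (z * z) := by
          apply lam_mono ν hν
          intro N
          show t ^ 2 * ind A N ≤ z N * z N
          by_cases hN : N ∈ A
          · rw [ind_mem hN, mul_one, ← abs_mul_abs_self (z N)]
            have h3 : t < |z N| := hN
            nlinarith
          · rw [ind_notMem hN, mul_zero]
            exact mul_self_nonneg _
        rw [lam_smul] at h1
        have h2 : lam ν (z * z) < δ * t ^ 2 := hQd m hnm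
        have h3 : t ^ 2 * lam ν (ind A) < t ^ 2 * δ := by
          linarith
        exact lt_of_mul_lt_mul_left h3 (by positivity)
      have h1 := huac A hA k
      have h2 : |ν k z| ≤ tv (ν k) (t • oneSeq + (2 * r) • ind A) := by
        apply abs_le_tv
        intro N
        show |z N| ≤ t * 1 + 2 * r * ind A N
        by_cases hN : N ∈ A
        · rw [ind_mem hN]
          have h3 := (z.norm_coe_le_norm N).trans hz
          rw [Real.norm_eq_abs] at h3
          linarith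
        · rw [ind_notMem hN]
          have h3 : ¬ t < |z N| := hN
          push Not at h3
          linarith
      rw [map_add, map_smul, map_smul, smul_eq_mul, smul_eq_mul] at h2
      have h3 : tv (ν k) oneSeq ≤ 1 := (tv_one_le (ν k)).trans (hν k)
      have h4 : t * tv (ν k) oneSeq ≤ t * 1 := mul_le_mul_of_nonneg_left h3 ht.le
      have h5 : 2 * r * tv (ν k) (ind A) ≤ 2 * r * (η / (8 * r)) :=
        mul_le_mul_of_nonneg_left (le_of_lt h1) (by positivity)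
      have h6 : 2 * r * (η / (8 * r)) = η / 4 := by
        field_simp
        ring
      have h7 := (hyS m).2 k hkm
      have h8 : ν k (y n) - ψ (ν k) = (ν k (y m) - ψ (ν k)) - ν k z := by
        show _ = _ - ν k (y m - y n)
        rw [map_sub]
        ring
      rw [h8]
      refine (abs_sub _ _).trans ?_
      have ht' : t = η / 4 := rfl
      linarith
    have hlim : Tendsto (fun m : ℕ => η / 2 + 1 / ((m : ℝ) + 1)) atTop (𝓝 (η / 2 + 0)) :=
      tendsto_const_nhds.add tendsto_one_div_add_atTop_nhds_zero_nat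
    have h9 : |ν k (y n) - ψ (ν k)| ≤ η / 2 + 0 := by
      apply ge_of_tendsto hlim
      filter_upwards [eventually_ge_atTop n, eventually_gt_atTop k] with m h1 h2
      exact hstep m h1 h2
    linarith
  rw [Metric.tendsto_atTop]
  intro ε hε
  obtain ⟨e, he⟩ := main (ε / 2) (by positivity)
  obtain ⟨K, hK⟩ := Metric.tendsto_atTop.mp (h0 e) (ε / 2) (by positivity)
  refine ⟨K, fun k hk => ?_⟩
  have h2 := hK k hk
  have h3 := he k
  rw [Real.dist_eq, sub_zero] at h2 ⊢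
  have h4 : ψ (ν k) = ν k e - (ν k e - ψ (ν k)) := by ring
  rw [h4]
  refine lt_of_le_of_lt (abs_sub _ _) ?_
  linarith

theorem clm_norm_smul_le {G : Type*} [NormedAddCommGroup G] [NormedSpace ℝ G] (c : ℝ)
    (f : G →L[ℝ] ℝ) : ‖c • f‖ ≤ |c| * ‖f‖ := by
  apply ContinuousLinearMap.opNorm_le_bound _ (mul_nonneg (abs_nonneg c) f.opNorm_nonneg)
  intro x
  show ‖c * f x‖ ≤ _
  rw [norm_mul, Real.norm_eq_abs, mul_assoc]
  exact mul_le_mul_of_nonneg_left (f.le_opNorm x) (abs_nonneg c)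

theorem real_null' (ν : ℕ → ((ℕ →ᵇ ℝ) →L[ℝ] ℝ)) (M : ℝ) (hν : ∀ k, ‖ν k‖ ≤ M)
    (h0 : ∀ x, Tendsto (fun k => ν k x) atTop (𝓝 0)) (ψ : ((ℕ →ᵇ ℝ) →L[ℝ] ℝ) →ₗ[ℝ] ℝ)
    (C : ℝ) (hC : ∀ χ : (ℕ →ᵇ ℝ) →L[ℝ] ℝ, |ψ χ| ≤ C * ‖χ‖) :
    Tendsto (fun k => ψ (ν k)) atTop (𝓝 0) := by
  have hM : 0 < |M| + 1 := by positivity
  have h1 := real_null (fun k => (|M| + 1)⁻¹ • ν k) (fun k => by
    refine (clm_norm_smul_le _ _).trans ?_
    rw [abs_inv, abs_of_pos hM, inv_mul_le_iff₀ hM]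
    have := hν k
    have := le_abs_self M
    linarith) (fun x => by
    have h2 := (h0 x).const_mul (|M| + 1)⁻¹
    rw [mul_zero] at h2
    exact h2) ψ C hC
  have h3 := h1.const_mul (|M| + 1)
  rw [mul_zero] at h3
  refine h3.congr ?_
  intro k
  show (|M| + 1) * ψ ((|M| + 1)⁻¹ • ν k) = _
  rw [map_smul, smul_eq_mul, ← mul_assoc, mul_inv_cancel₀ hM.ne', one_mul]

section complex

variable {𝕜 : Type*} [RCLike 𝕜]

/-- Real parts. -/
noncomputable def reS (x : ℕ →ᵇ 𝕜) : ℕ →ᵇ ℝ :=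
  BoundedContinuousFunction.ofNormedAddCommGroupDiscrete (fun N => RCLike.re (x N)) ‖x‖
    (fun N => by
      rw [Real.norm_eq_abs]
      exact (RCLike.abs_re_le_norm _).trans (x.norm_coe_le_norm N))

/-- Imaginary parts. -/
noncomputable def imS (x : ℕ →ᵇ 𝕜) : ℕ →ᵇ ℝ :=
  BoundedContinuousFunction.ofNormedAddCommGroupDiscrete (fun N => RCLike.im (x N)) ‖x‖
    (fun N => by
      rw [Real.norm_eq_abs]
      exact (RCLike.abs_im_le_norm _).trans (x.norm_coe_le_norm N))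

/-- Real sequences in `𝕜`. -/
noncomputable def ofS (𝕜 : Type*) [RCLike 𝕜] (x : ℕ →ᵇ ℝ) : ℕ →ᵇ 𝕜 :=
  BoundedContinuousFunction.ofNormedAddCommGroupDiscrete (fun N => ((x N : ℝ) : 𝕜)) ‖x‖
    (fun N => by
      rw [RCLike.norm_ofReal]
      have := x.norm_coe_le_norm N
      rwa [Real.norm_eq_abs] at this)

theorem norm_reS (x : ℕ →ᵇ 𝕜) : ‖reS x‖ ≤ ‖x‖ := by
  rw [BoundedContinuousFunction.norm_le (norm_nonneg _)]
  intro N
  rw [Real.norm_eq_abs]
  exact (RCLike.abs_re_le_norm _).trans (x.norm_coe_le_norm N)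

theorem norm_imS (x : ℕ →ᵇ 𝕜) : ‖imS x‖ ≤ ‖x‖ := by
  rw [BoundedContinuousFunction.norm_le (norm_nonneg _)]
  intro N
  rw [Real.norm_eq_abs]
  exact (RCLike.abs_im_le_norm _).trans (x.norm_coe_le_norm N)

theorem norm_ofS (x : ℕ →ᵇ ℝ) : ‖ofS 𝕜 x‖ ≤ ‖x‖ := by
  rw [BoundedContinuousFunction.norm_le (norm_nonneg _)]
  intro N
  show ‖((x N : ℝ) : 𝕜)‖ ≤ _
  rw [RCLike.norm_ofReal]
  have := x.norm_coe_le_norm N
  rwa [Real.norm_eq_abs] at this

theorem reS_add (x y : ℕ →ᵇ 𝕜) : reS (x + y) = reS x + reS y := by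
  ext N
  show RCLike.re (x N + y N) = RCLike.re (x N) + RCLike.re (y N)
  exact map_add _ _ _

theorem imS_add (x y : ℕ →ᵇ 𝕜) : imS (x + y) = imS x + imS y := by
  ext N
  show RCLike.im (x N + y N) = RCLike.im (x N) + RCLike.im (y N)
  exact map_add _ _ _

theorem reS_smul (c : 𝕜) (x : ℕ →ᵇ 𝕜) :
    reS (c • x) = RCLike.re c • reS x - RCLike.im c • imS x := by
  ext N
  show RCLike.re (c * x N) = RCLike.re c * RCLike.re (x N) - RCLike.im c * RCLike.im (x N)
  exact RCLike.mul_re _ _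

theorem imS_smul (c : 𝕜) (x : ℕ →ᵇ 𝕜) :
    imS (c • x) = RCLike.re c • imS x + RCLike.im c • reS x := by
  ext N
  show RCLike.im (c * x N) = RCLike.re c * RCLike.im (x N) + RCLike.im c * RCLike.re (x N)
  exact RCLike.mul_im _ _

theorem im_mul_I_sq (c : 𝕜) : ((RCLike.im c : ℝ) : 𝕜) * (RCLike.I * RCLike.I) =
    -((RCLike.im c : ℝ) : 𝕜) := by
  rcases RCLike.I_mul_I_ax (K := 𝕜) with h | h
  · have h1 : RCLike.im c = 0 := by
      have h2 := RCLike.re_add_im c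
      rw [h, mul_zero, add_zero] at h2
      rw [← h2]
      exact RCLike.ofReal_im _
    rw [h1, RCLike.ofReal_zero, zero_mul, neg_zero]
  · rw [h]
    ring

/-- The complexification of a real functional. -/
noncomputable def cx (𝕜 : Type*) [RCLike 𝕜] (μ : (ℕ →ᵇ ℝ) →L[ℝ] ℝ) : (ℕ →ᵇ 𝕜) →L[𝕜] 𝕜 :=
  LinearMap.mkContinuous
    { toFun := fun x => ((μ (reS x) : ℝ) : 𝕜) + RCLike.I * ((μ (imS x) : ℝ) : 𝕜)
      map_add' := by
        intro x y
        rw [reS_add, imS_add, map_add, map_add, RCLike.ofReal_add, RCLike.ofReal_add]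
        ring
      map_smul' := by
        intro c x
        rw [reS_smul, imS_smul, map_sub, map_add, map_smul, map_smul, map_smul, map_smul,
          RingHom.id_apply, smul_eq_mul, smul_eq_mul, smul_eq_mul, smul_eq_mul, smul_eq_mul,
          RCLike.ofReal_sub, RCLike.ofReal_add, RCLike.ofReal_mul, RCLike.ofReal_mul,
          RCLike.ofReal_mul, RCLike.ofReal_mul]
        have h1 := im_mul_I_sq c
        have h2 : c = ((RCLike.re c : ℝ) : 𝕜) + ((RCLike.im c : ℝ) : 𝕜) * RCLike.I :=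
          (RCLike.re_add_im c).symm
        have h3 : c * (((μ (reS x) : ℝ) : 𝕜) + RCLike.I * ((μ (imS x) : ℝ) : 𝕜)) =
            (((RCLike.re c : ℝ) : 𝕜) + ((RCLike.im c : ℝ) : 𝕜) * RCLike.I) *
            (((μ (reS x) : ℝ) : 𝕜) + RCLike.I * ((μ (imS x) : ℝ) : 𝕜)) := by
          rw [← h2]
        rw [h3]
        linear_combination (-((μ (imS x) : ℝ) : 𝕜)) * h1 } (2 * ‖μ‖)
    (by
      intro x
      show ‖((μ (reS x) : ℝ) : 𝕜) + RCLike.I * ((μ (imS x) : ℝ) : 𝕜)‖ ≤ 2 * ‖μ‖ * ‖x‖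
      refine (norm_add_le _ _).trans ?_
      rw [norm_mul, RCLike.norm_ofReal, RCLike.norm_ofReal]
      have h1 : |μ (reS x)| ≤ ‖μ‖ * ‖x‖ := by
        rw [← Real.norm_eq_abs]
        exact (μ.le_opNorm _).trans (mul_le_mul_of_nonneg_left (norm_reS x) (norm_nonneg _))
      have h2 : |μ (imS x)| ≤ ‖μ‖ * ‖x‖ := by
        rw [← Real.norm_eq_abs]
        exact (μ.le_opNorm _).trans (mul_le_mul_of_nonneg_left (norm_imS x) (norm_nonneg _))
      have h3 : ‖(RCLike.I : 𝕜)‖ ≤ 1 := by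
        rcases RCLike.I_mul_I_ax (K := 𝕜) with h | h
        · rw [h, norm_zero]
          exact zero_le_one
        · exact (RCLike.norm_I_of_ne_zero (fun h4 => by
            rw [h4, mul_zero] at h
            exact one_ne_zero (neg_eq_zero.mp h.symm))).le
      have h4 : ‖(RCLike.I : 𝕜)‖ * |μ (imS x)| ≤ 1 * |μ (imS x)| :=
        mul_le_mul_of_nonneg_right h3 (abs_nonneg _)
      linarith)

theorem cx_apply (μ : (ℕ →ᵇ ℝ) →L[ℝ] ℝ) (x : ℕ →ᵇ 𝕜) :
    cx 𝕜 μ x = ((μ (reS x) : ℝ) : 𝕜) + RCLike.I * ((μ (imS x) : ℝ) : 𝕜) := rfl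

theorem norm_cx (μ : (ℕ →ᵇ ℝ) →L[ℝ] ℝ) : ‖cx 𝕜 μ‖ ≤ 2 * ‖μ‖ :=
  LinearMap.mkContinuous_norm_le _ (by positivity) _

theorem cx_add (μ ρ : (ℕ →ᵇ ℝ) →L[ℝ] ℝ) : cx 𝕜 (μ + ρ) = cx 𝕜 μ + cx 𝕜 ρ := by
  apply ContinuousLinearMap.ext
  intro x
  rw [add_apply, cx_apply, cx_apply, cx_apply, add_apply,
    add_apply, RCLike.ofReal_add, RCLike.ofReal_add]
  ring

theorem cx_smul (c : ℝ) (μ : (ℕ →ᵇ ℝ) →L[ℝ] ℝ) : cx 𝕜 (c • μ) = (c : 𝕜) • cx 𝕜 μ := by
  apply ContinuousLinearMap.ext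
  intro x
  rw [smul_apply, cx_apply, cx_apply, smul_apply,
    smul_apply, smul_eq_mul, smul_eq_mul, smul_eq_mul, RCLike.ofReal_mul,
    RCLike.ofReal_mul]
  ring

/-- Real part of a functional, on real sequences. -/
noncomputable def reP (φ : (ℕ →ᵇ 𝕜) →L[𝕜] 𝕜) : (ℕ →ᵇ ℝ) →L[ℝ] ℝ :=
  LinearMap.mkContinuous
    { toFun := fun x => RCLike.re (φ (ofS 𝕜 x))
      map_add' := by
        intro x y
        have h : ofS 𝕜 (x + y) = ofS 𝕜 x + ofS 𝕜 y := by
          ext N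
          show (((x N + y N : ℝ)) : 𝕜) = (x N : 𝕜) + (y N : 𝕜)
          exact RCLike.ofReal_add _ _
        rw [h, map_add, map_add]
      map_smul' := by
        intro c x
        have h : ofS 𝕜 (c • x) = (c : 𝕜) • ofS 𝕜 x := by
          ext N
          show (((c * x N : ℝ)) : 𝕜) = (c : 𝕜) * (x N : 𝕜)
          exact RCLike.ofReal_mul _ _
        rw [h, map_smul, smul_eq_mul, RCLike.re_ofReal_mul, RingHom.id_apply, smul_eq_mul] } ‖φ‖
    (by
      intro x
      show ‖RCLike.re (φ (ofS 𝕜 x))‖ ≤ ‖φ‖ * ‖x‖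
      rw [Real.norm_eq_abs]
      exact (RCLike.abs_re_le_norm _).trans ((φ.le_opNorm _).trans
        (mul_le_mul_of_nonneg_left (norm_ofS x) (norm_nonneg _))))

theorem reP_apply (φ : (ℕ →ᵇ 𝕜) →L[𝕜] 𝕜) (x : ℕ →ᵇ ℝ) :
    reP φ x = RCLike.re (φ (ofS 𝕜 x)) := rfl

theorem norm_reP (φ : (ℕ →ᵇ 𝕜) →L[𝕜] 𝕜) : ‖reP φ‖ ≤ ‖φ‖ :=
  LinearMap.mkContinuous_norm_le _ (norm_nonneg _) _

/-- Imaginary part of a functional, on real sequences. -/
noncomputable def imP (φ : (ℕ →ᵇ 𝕜) →L[𝕜] 𝕜) : (ℕ →ᵇ ℝ) →L[ℝ] ℝ :=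
  LinearMap.mkContinuous
    { toFun := fun x => RCLike.im (φ (ofS 𝕜 x))
      map_add' := by
        intro x y
        have h : ofS 𝕜 (x + y) = ofS 𝕜 x + ofS 𝕜 y := by
          ext N
          show (((x N + y N : ℝ)) : 𝕜) = (x N : 𝕜) + (y N : 𝕜)
          exact RCLike.ofReal_add _ _
        rw [h, map_add, map_add]
      map_smul' := by
        intro c x
        have h : ofS 𝕜 (c • x) = (c : 𝕜) • ofS 𝕜 x := by
          ext N
          show (((c * x N : ℝ)) : 𝕜) = (c : 𝕜) * (x N : 𝕜)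
          exact RCLike.ofReal_mul _ _
        rw [h, map_smul, smul_eq_mul, RCLike.im_ofReal_mul, RingHom.id_apply, smul_eq_mul] } ‖φ‖
    (by
      intro x
      show ‖RCLike.im (φ (ofS 𝕜 x))‖ ≤ ‖φ‖ * ‖x‖
      rw [Real.norm_eq_abs]
      exact (RCLike.abs_im_le_norm _).trans ((φ.le_opNorm _).trans
        (mul_le_mul_of_nonneg_left (norm_ofS x) (norm_nonneg _))))

theorem imP_apply (φ : (ℕ →ᵇ 𝕜) →L[𝕜] 𝕜) (x : ℕ →ᵇ ℝ) :
    imP φ x = RCLike.im (φ (ofS 𝕜 x)) := rfl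

theorem norm_imP (φ : (ℕ →ᵇ 𝕜) →L[𝕜] 𝕜) : ‖imP φ‖ ≤ ‖φ‖ :=
  LinearMap.mkContinuous_norm_le _ (norm_nonneg _) _

theorem decomp (φ : (ℕ →ᵇ 𝕜) →L[𝕜] 𝕜) :
    φ = cx 𝕜 (reP φ) + (RCLike.I : 𝕜) • cx 𝕜 (imP φ) := by
  apply ContinuousLinearMap.ext
  intro x
  rw [add_apply, smul_apply, cx_apply, cx_apply,
    reP_apply, reP_apply, imP_apply, imP_apply, smul_eq_mul]
  have h1 : x = ofS 𝕜 (reS x) + (RCLike.I : 𝕜) • ofS 𝕜 (imS x) := by
    ext N
    show x N = ((RCLike.re (x N) : ℝ) : 𝕜) + RCLike.I * ((RCLike.im (x N) : ℝ) : 𝕜)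
    have := RCLike.re_add_im (x N)
    rw [mul_comm] at this
    exact this.symm
  have h2 : φ x = φ (ofS 𝕜 (reS x)) + RCLike.I * φ (ofS 𝕜 (imS x)) := by
    conv_lhs => rw [h1]
    rw [map_add, map_smul, smul_eq_mul]
  rw [h2]
  have h3 := RCLike.re_add_im (φ (ofS 𝕜 (reS x)))
  have h4 := RCLike.re_add_im (φ (ofS 𝕜 (imS x)))
  linear_combination -h3 - RCLike.I * h4

end complex

/-- Bounded functionals of the dual, as a bound. -/
theorem bound_of_clm {𝕜 : Type*} [RCLike 𝕜] {G : Type*} [NormedAddCommGroup G]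
    [NormedSpace 𝕜 G] (P : (G →L[𝕜] 𝕜) →L[𝕜] 𝕜) : ∃ C : ℝ, 0 ≤ C ∧ ∀ f, ‖P f‖ ≤ C * ‖f‖ :=
  ⟨‖P‖, P.opNorm_nonneg, P.le_opNorm⟩

/-- Pointwise convergent sequences of functionals are bounded. -/
theorem bounded_of_tendsto {𝕜 : Type*} [RCLike 𝕜] {G : Type*} [NormedAddCommGroup G]
    [NormedSpace 𝕜 G] [CompleteSpace G] (f : ℕ → G →L[𝕜] 𝕜)
    (h : ∀ x, Tendsto (fun n => f n x) atTop (𝓝 0)) : ∃ M : ℝ, ∀ n, ‖f n‖ ≤ M := by
  apply banach_steinhaus
  intro x
  obtain ⟨C, hC⟩ := (h x).norm.bddAbove_range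
  exact ⟨C, fun n => hC ⟨n, rfl⟩⟩

/-- `l_∞` (real or complex) is a Grothendieck space. -/
theorem linf_grothendieck (𝕜 : Type*) [RCLike 𝕜] : ANT.IsGrothendieck 𝕜 (ℕ →ᵇ 𝕜) := by
  intro f g hfg P
  obtain ⟨C, hC0, hC⟩ := bound_of_clm P
  let φ : ℕ → ((ℕ →ᵇ 𝕜) →L[𝕜] 𝕜) := fun n => f n - g
  have hφ : ∀ x, Tendsto (fun n => φ n x) atTop (𝓝 0) := by
    intro x
    have h1 := (hfg x).sub_const (g x)
    rw [sub_self] at h1
    exact h1
  obtain ⟨M, hM⟩ := bounded_of_tendsto φ hφ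
  have hPc : ∀ μ : ℕ → ((ℕ →ᵇ ℝ) →L[ℝ] ℝ), (∀ k, ‖μ k‖ ≤ M) →
      (∀ x, Tendsto (fun k => μ k x) atTop (𝓝 0)) →
      Tendsto (fun k => P (cx 𝕜 (μ k))) atTop (𝓝 0) := by
    intro μ hμ hμ0
    let ψ1 : ((ℕ →ᵇ ℝ) →L[ℝ] ℝ) →ₗ[ℝ] ℝ :=
      { toFun := fun χ => RCLike.re (P (cx 𝕜 χ))
        map_add' := by
          intro a b
          rw [cx_add, map_add, map_add]
        map_smul' := by
          intro c a
          rw [cx_smul, map_smul, smul_eq_mul, RCLike.re_ofReal_mul, RingHom.id_apply,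
            smul_eq_mul] }
    let ψ2 : ((ℕ →ᵇ ℝ) →L[ℝ] ℝ) →ₗ[ℝ] ℝ :=
      { toFun := fun χ => RCLike.im (P (cx 𝕜 χ))
        map_add' := by
          intro a b
          rw [cx_add, map_add, map_add]
        map_smul' := by
          intro c a
          rw [cx_smul, map_smul, smul_eq_mul, RCLike.im_ofReal_mul, RingHom.id_apply,
            smul_eq_mul] }
    have hb : ∀ χ : (ℕ →ᵇ ℝ) →L[ℝ] ℝ, ‖P (cx 𝕜 χ)‖ ≤ (C * 2) * ‖χ‖ := by
      intro χ
      refine (hC _).trans ?_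
      have := mul_le_mul_of_nonneg_left (norm_cx (𝕜 := 𝕜) χ) hC0
      linarith
    have h1 := real_null' μ M hμ hμ0 ψ1 (C * 2)
      (fun χ => (RCLike.abs_re_le_norm _).trans (hb χ))
    have h2 := real_null' μ M hμ hμ0 ψ2 (C * 2)
      (fun χ => (RCLike.abs_im_le_norm _).trans (hb χ))
    have h3 : ∀ k, P (cx 𝕜 (μ k)) =
        ((ψ1 (μ k) : ℝ) : 𝕜) + ((ψ2 (μ k) : ℝ) : 𝕜) * RCLike.I := fun k =>
      (RCLike.re_add_im _).symm
    have h4 : Tendsto (fun k => ((ψ1 (μ k) : ℝ) : 𝕜) + ((ψ2 (μ k) : ℝ) : 𝕜) * RCLike.I) atTop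
        (𝓝 (((0 : ℝ) : 𝕜) + ((0 : ℝ) : 𝕜) * RCLike.I)) :=
      ((RCLike.continuous_ofReal.tendsto 0).comp h1).add
        (((RCLike.continuous_ofReal.tendsto 0).comp h2).mul_const _)
    rw [RCLike.ofReal_zero, zero_mul, add_zero] at h4
    exact h4.congr fun k => (h3 k).symm
  have h5 : ∀ x, Tendsto (fun k => reP (φ k) x) atTop (𝓝 0) := by
    intro x
    have h6 := (RCLike.continuous_re.tendsto (0 : 𝕜)).comp (hφ (ofS 𝕜 x))
    rw [map_zero] at h6
    exact h6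
  have h7 : ∀ x, Tendsto (fun k => imP (φ k) x) atTop (𝓝 0) := by
    intro x
    have h6 := (RCLike.continuous_im.tendsto (0 : 𝕜)).comp (hφ (ofS 𝕜 x))
    rw [map_zero] at h6
    exact h6
  have h8 := hPc (fun k => reP (φ k)) (fun k => (norm_reP _).trans (hM k)) h5
  have h9 := hPc (fun k => imP (φ k)) (fun k => (norm_imP _).trans (hM k)) h7
  have h10 : Tendsto (fun k => P (φ k)) atTop (𝓝 0) := by
    have h11 := h8.add (h9.const_mul (RCLike.I : 𝕜))
    rw [mul_zero, add_zero] at h11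
    refine h11.congr ?_
    intro k
    conv_rhs => rw [decomp (φ k)]
    rw [map_add, map_smul, smul_eq_mul]
  have h12 := h10.add_const (P g)
  rw [zero_add] at h12
  refine h12.congr ?_
  intro k
  show P (f k - g) + P g = P (f k)
  rw [map_sub, sub_add_cancel]

end Pool.Agent.CALQ
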