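import Mathlib

/-!
# Convex combinations of a bounded sequence of continuous functions tending to 0 pointwise
-/

set_option autoImplicit false

open Filter Topology MeasureTheory

namespace Pool.Agent.CALQ

/-- A bounded sequence of nonnegative continuous functions on a compact space which tends to `0`
pointwise has convex combinations which are uniformly small. -/
theorem convex_small {K : Type*} [TopologicalSpace K] [CompactSpace K] [T2Space K]
    (g : ℕ → C(K, ℝ)) (C : ℝ) (h0 : ∀ j x, 0 ≤ g j x) (hC : ∀ j x, g j x ≤ C)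
    (hlim : ∀ x, Tendsto (fun j => g j x) atTop (𝓝 0)) (ε : ℝ) (hε : 0 < ε) :
    ∃ (s : Finset ℕ) (a : ℕ → ℝ), (∀ j ∈ s, 0 ≤ a j) ∧ ∑ j ∈ s, a j = 1 ∧
      ∀ x, ∑ j ∈ s, a j * g j x ≤ ε := by
  classical
  by_contra hcon
  -- the two convex sets
  set A : Set (ℕ →₀ ℝ) := {a | (∀ j, 0 ≤ a j) ∧
    Finsupp.linearCombination ℝ (fun _ : ℕ => (1 : ℝ)) a = 1} with hA
  have hAconv : Convex ℝ A := by
    rintro a ⟨ha0, ha1⟩ b ⟨hb0, hb1⟩ α β hα hβ hαβ
    refine ⟨fun j => ?_, ?_⟩
    · simp only [Finsupp.coe_add, Finsupp.coe_smul, Pi.add_apply, Pi.smul_apply, smul_eq_mul]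
      exact add_nonneg (mul_nonneg hα (ha0 j)) (mul_nonneg hβ (hb0 j))
    · rw [map_add, map_smul, map_smul, ha1, hb1]
      simpa using hαβ
  set t : Set C(K, ℝ) := (Finsupp.linearCombination ℝ g) '' A with ht
  have htconv : Convex ℝ t := hAconv.linear_image _
  set U : Set C(K, ℝ) := {h | ∀ x, h x < ε} with hU
  have hUconv : Convex ℝ U := by
    intro h hh k hk α β hα hβ hαβ x
    simp only [ContinuousMap.coe_add, ContinuousMap.coe_smul, Pi.add_apply, Pi.smul_apply,
      smul_eq_mul]
    have h1 := hh x
    have h2 := hk x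
    rcases hα.eq_or_lt with h3 | h3
    · have h4 : β = 1 := by linarith
      rw [← h3, h4]; linarith
    · nlinarith
  have hUopen : IsOpen U := by
    have h1 : U = {h : C(K, ℝ) | Set.MapsTo h Set.univ (Set.Iio ε)} := by
      ext h
      simp [hU, Set.MapsTo]
    rw [h1]
    exact ContinuousMap.isOpen_setOf_mapsTo isCompact_univ isOpen_Iio
  have hdisj : Disjoint U t := by
    rw [Set.disjoint_left]
    rintro h hh ⟨a, ⟨ha0, ha1⟩, rfl⟩
    refine hcon ⟨a.support, fun j => a j, fun j _ => ha0 j, ?_, fun x => ?_⟩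
    · rw [Finsupp.linearCombination_apply] at ha1
      simpa [Finsupp.sum] using ha1
    · have h2 := (hh x).le
      rw [Finsupp.linearCombination_apply, Finsupp.sum] at h2
      simpa [ContinuousMap.sum_apply] using h2
  obtain ⟨L, u, hLU, hLt⟩ := geometric_hahn_banach_open hUconv hUopen htconv hdisj
  have hu : 0 < u := by
    have h1 := hLU 0 (fun x => by simpa using hε)
    simpa using h1
  have hLpos : ∀ h : C(K, ℝ), (∀ x, 0 ≤ h x) → 0 ≤ L h := by
    intro h hh
    by_contra hneg
    have hneg' : L h < 0 := not_le.1 hneg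
    have h1 := hLU ((u / L h) • h) (fun x => by
      simp only [ContinuousMap.coe_smul, Pi.smul_apply, smul_eq_mul]
      have h2 : u / L h ≤ 0 := div_nonpos_of_nonneg_of_nonpos hu.le hneg'.le
      have h3 := mul_nonneg (neg_nonneg.2 h2) (hh x)
      linarith)
    rw [map_smul, smul_eq_mul, div_mul_cancel₀ _ hneg'.ne] at h1
    exact lt_irrefl _ h1
  -- Riesz-Markov
  let _ : MeasurableSpace K := borel K
  have : BorelSpace K := ⟨rfl⟩
  let Λ : CompactlySupportedContinuousMap K ℝ →ₚ[ℝ] ℝ :=
  { toFun := fun f => L f.toContinuousMap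
    map_add' := fun f f' => by
      have : (f + f').toContinuousMap = f.toContinuousMap + f'.toContinuousMap := rfl
      rw [this, map_add]
    map_smul' := fun c f => by
      have : (c • f).toContinuousMap = c • f.toContinuousMap := rfl
      rw [this, map_smul]
      rfl
    monotone' := fun f f' hff => by
      have h1 := hLpos (f'.toContinuousMap - f.toContinuousMap) (fun x => by
        have := hff x
        simpa using this)
      rw [map_sub] at h1
      linarith }
  have hint : ∀ h : C(K, ℝ), ∫ x, h x ∂(RealRMK.rieszMeasure Λ) = L h := by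
    intro h
    exact RealRMK.integral_rieszMeasure Λ ⟨h, HasCompactSupport.of_compactSpace _⟩
  have hdom : Tendsto (fun j => ∫ x, g j x ∂(RealRMK.rieszMeasure Λ)) atTop (𝓝 0) := by
    have h1 := tendsto_integral_of_dominated_convergence (μ := RealRMK.rieszMeasure Λ)
      (F := fun j x => g j x) (f := fun _ => (0 : ℝ)) (fun _ => C)
      (fun j => (g j).continuous.aestronglyMeasurable) (integrable_const C)
      (fun j => Eventually.of_forall (fun x => by
        rw [Real.norm_of_nonneg (h0 j x)]
        exact hC j x))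
      (Eventually.of_forall hlim)
    simpa using h1
  have hge : ∀ j, u ≤ ∫ x, g j x ∂(RealRMK.rieszMeasure Λ) := by
    intro j
    rw [hint]
    refine hLt _ ⟨Finsupp.single j 1, ⟨fun i => ?_, ?_⟩, ?_⟩
    · rw [Finsupp.single_apply]
      split_ifs <;> norm_num
    · simp
    · simp
  have := ge_of_tendsto' hdom hge
  linarith

end Pool.Agent.CALQ
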