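import Pool.Agent.CALQ.Op
import Pool.Agent.CALQ.R1

/-!
# The functionals `T ↦ φ (S N ∘ T)` converge in norm
-/

set_option autoImplicit false

namespace Pool.Agent.CALQ

open Filter Topology Pool.Agent.ANT

variable {𝕜 : Type*} [RCLike 𝕜] {X : Type*} [NormedAddCommGroup X] [NormedSpace 𝕜 X]

/-- The unit ball of the dual with the weak* topology. -/
abbrev r4bBall (𝕜 : Type*) [RCLike 𝕜] (X : Type*) [NormedAddCommGroup X] [NormedSpace 𝕜 X] :
    Set (WeakDual 𝕜 X) :=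
  WeakDual.toStrongDual ⁻¹' Metric.closedBall (0 : StrongDual 𝕜 X) 1

/-- For `Q` of finite rank, `f ↦ ‖f ∘ Q‖` is weak* continuous. -/
theorem r4b_cont (Q : X →L[𝕜] X) (hQ : FiniteDimensional 𝕜 (LinearMap.range (Q : X →ₗ[𝕜] X))) :
    Continuous (fun f : WeakDual 𝕜 X => ‖(WeakDual.toStrongDual f).comp Q‖) := by
  classical
  obtain ⟨n, g, y, hg⟩ := fin_rank Q hQ
  have h1 : (fun f : WeakDual 𝕜 X => ‖(WeakDual.toStrongDual f).comp Q‖) =
      fun f : WeakDual 𝕜 X => ‖∑ k, (f (y k)) • g k‖ := by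
    funext f
    congr 1
    ext x
    have h2 : (WeakDual.toStrongDual f).comp Q x = f (Q x) := rfl
    rw [h2, hg x, map_sum, _root_.sum_apply]
    refine Finset.sum_congr rfl (fun k _ => ?_)
    rw [map_smul]
    rw [_root_.smul_apply, smul_eq_mul, smul_eq_mul]
    exact mul_comm _ _
  rw [h1]
  refine continuous_norm.comp (continuous_finsetSum _ (fun k _ => ?_))
  exact (WeakDual.eval_continuous (y k)).smul continuous_const

/-- **Convex combinations.** If the finite rank operators `Q j` are bounded and `f ∘ Q j` tends to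
`0` in norm for every functional `f`, then some convex combination of the `Q j ∘ T j` is small, for
all `T j` in the unit ball. -/
theorem r4b_small (Q : ℕ → X →L[𝕜] X)
    (hQ : ∀ j, FiniteDimensional 𝕜 (LinearMap.range (Q j : X →ₗ[𝕜] X))) (C : ℝ)
    (hC : ∀ j, ‖Q j‖ ≤ C) (hsh : ∀ f : X →L[𝕜] 𝕜, Tendsto (fun j => f.comp (Q j)) atTop (𝓝 0))
    (T : ℕ → X →L[𝕜] X) (hT : ∀ j, ‖T j‖ ≤ 1) (ε : ℝ) (hε : 0 < ε) :
    ∃ (s : Finset ℕ) (a : ℕ → ℝ), (∀ j ∈ s, 0 ≤ a j) ∧ ∑ j ∈ s, a j = 1 ∧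
      ‖∑ j ∈ s, ((a j : ℝ) : 𝕜) • (Q j).comp (T j)‖ ≤ ε := by
  classical
  have : CompactSpace (r4bBall 𝕜 X) :=
    isCompact_iff_compactSpace.1 (WeakDual.isCompact_closedBall (0 : StrongDual 𝕜 X) 1)
  let g : ℕ → C(r4bBall 𝕜 X, ℝ) := fun j =>
    ⟨fun f => ‖(WeakDual.toStrongDual (f : WeakDual 𝕜 X)).comp (Q j)‖,
      (r4b_cont (Q j) (hQ j)).comp continuous_subtype_val⟩
  have hball : ∀ f : r4bBall 𝕜 X, ‖WeakDual.toStrongDual (f : WeakDual 𝕜 X)‖ ≤ 1 := fun f => by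
    have := f.2
    rwa [Set.mem_preimage, mem_closedBall_zero_iff] at this
  obtain ⟨s, a, ha0, ha1, ha⟩ := convex_small g C (fun j f => by
      change 0 ≤ ‖(WeakDual.toStrongDual (f : WeakDual 𝕜 X)).comp (Q j)‖
      exact norm_nonneg _) (fun j f => by
      change ‖(WeakDual.toStrongDual (f : WeakDual 𝕜 X)).comp (Q j)‖ ≤ C
      refine (ContinuousLinearMap.opNorm_comp_le _ _).trans ?_
      calc ‖WeakDual.toStrongDual (f : WeakDual 𝕜 X)‖ * ‖Q j‖ ≤ 1 * C :=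
            mul_le_mul (hball f) (hC j) (norm_nonneg _) zero_le_one
        _ = C := one_mul C)
    (fun f => by
      have h1 := (hsh (WeakDual.toStrongDual (f : WeakDual 𝕜 X))).norm
      rw [norm_zero] at h1
      exact h1) ε hε
  refine ⟨s, a, ha0, ha1, ?_⟩
  refine ContinuousLinearMap.opNorm_le_bound _ hε.le (fun x => ?_)
  obtain ⟨f, hf1, hf2⟩ := exists_dual_vector'' 𝕜
    ((∑ j ∈ s, ((a j : ℝ) : 𝕜) • (Q j).comp (T j)) x)
  have h1 : ‖(∑ j ∈ s, ((a j : ℝ) : 𝕜) • (Q j).comp (T j)) x‖ =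
      ‖f ((∑ j ∈ s, ((a j : ℝ) : 𝕜) • (Q j).comp (T j)) x)‖ := by
    rw [hf2]
    simp
  rw [h1, _root_.sum_apply, map_sum]
  let F : r4bBall 𝕜 X := ⟨StrongDual.toWeakDual f, by
    rw [Set.mem_preimage, mem_closedBall_zero_iff]
    exact hf1⟩
  have h2 := ha F
  have h3 : ∀ j, g j F = ‖f.comp (Q j)‖ := fun j => rfl
  have h4 : ∀ j ∈ s, ‖f ((((a j : ℝ) : 𝕜) • (Q j).comp (T j)) x)‖ ≤ a j * g j F * ‖x‖ := by
    intro j hj
    have h5 : f ((((a j : ℝ) : 𝕜) • (Q j).comp (T j)) x) =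
        ((a j : ℝ) : 𝕜) * (f.comp (Q j)) (T j x) := by
      simp
    rw [h5, norm_mul, RCLike.norm_ofReal, abs_of_nonneg (ha0 j hj), mul_assoc, h3]
    refine mul_le_mul_of_nonneg_left ?_ (ha0 j hj)
    refine ((f.comp (Q j)).le_opNorm _).trans ?_
    refine mul_le_mul_of_nonneg_left ?_ (norm_nonneg _)
    calc ‖T j x‖ ≤ ‖T j‖ * ‖x‖ := (T j).le_opNorm x
      _ ≤ 1 * ‖x‖ := mul_le_mul_of_nonneg_right (hT j) (norm_nonneg _)
      _ = ‖x‖ := one_mul _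
  calc ‖∑ j ∈ s, f ((((a j : ℝ) : 𝕜) • (Q j).comp (T j)) x)‖
      ≤ ∑ j ∈ s, ‖f ((((a j : ℝ) : 𝕜) • (Q j).comp (T j)) x)‖ := norm_sum_le _ _
    _ ≤ ∑ j ∈ s, a j * g j F * ‖x‖ := Finset.sum_le_sum h4
    _ = (∑ j ∈ s, a j * g j F) * ‖x‖ := by rw [Finset.sum_mul]
    _ ≤ ε * ‖x‖ := mul_le_mul_of_nonneg_right h2 (norm_nonneg _)

/-- R4b: for bounded finite rank operators `S N` with `f ∘ S N → f` in norm for all functionals
`f`, the functionals `T ↦ φ (S N ∘ T)` converge in norm, for every functional `φ` on `B(X)`. -/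
theorem cauchy_compose (S : ℕ → X →L[𝕜] X)
    (hfin : ∀ N, FiniteDimensional 𝕜 (LinearMap.range (S N : X →ₗ[𝕜] X))) (C : ℝ)
    (hC : ∀ N, ‖S N‖ ≤ C) (hsh : ∀ f : X →L[𝕜] 𝕜, Tendsto (fun N => f.comp (S N)) atTop (𝓝 f))
    (φ : (X →L[𝕜] X) →L[𝕜] 𝕜) :
    ∃ ψ : (X →L[𝕜] X) →L[𝕜] 𝕜, Tendsto (fun N => φ.comp (lmul (S N))) atTop (𝓝 ψ) := by
  classical
  suffices h : CauchySeq (fun N => φ.comp (lmul (S N))) from cauchySeq_tendsto_of_complete h
  refine (NormedAddCommGroup.cauchySeq_iff (E := (X →L[𝕜] X) →L[𝕜] 𝕜)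
    (u := fun N => φ.comp (lmul (S N)))).2 ?_
  by_contra hcon
  push Not at hcon
  obtain ⟨ε, hε, hcon⟩ := hcon
  choose M hM N hN hMN using hcon
  have hlin : ∀ A B : X →L[𝕜] X, φ.comp (lmul A) - φ.comp (lmul B) = φ.comp (lmul (A - B)) := by
    intro A B
    ext T
    simp only [_root_.sub_apply, ContinuousLinearMap.comp_apply, lmul_apply,
      ContinuousLinearMap.sub_comp, map_sub]
  -- the operators
  let Q : ℕ → X →L[𝕜] X := fun j => S (N j) - S (M j)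
  have hQfin : ∀ j, FiniteDimensional 𝕜 (LinearMap.range (Q j : X →ₗ[𝕜] X)) := by
    intro j
    have := hfin (M j)
    have := hfin (N j)
    refine Submodule.finiteDimensional_of_le (S₂ := LinearMap.range (S (N j) : X →ₗ[𝕜] X) ⊔
      LinearMap.range (S (M j) : X →ₗ[𝕜] X)) ?_
    rintro _ ⟨x, rfl⟩
    exact Submodule.sub_mem_sup ⟨x, rfl⟩ ⟨x, rfl⟩
  have hQC : ∀ j, ‖Q j‖ ≤ C + C := fun j =>
    (norm_sub_le _ _).trans (add_le_add (hC _) (hC _))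
  have hMt : Tendsto M atTop atTop := tendsto_atTop_mono hM tendsto_id
  have hNt : Tendsto N atTop atTop := tendsto_atTop_mono hN tendsto_id
  have hQsh : ∀ f : X →L[𝕜] 𝕜, Tendsto (fun j => f.comp (Q j)) atTop (𝓝 0) := by
    intro f
    have h1 := ((hsh f).comp hNt).sub ((hsh f).comp hMt)
    rw [sub_self] at h1
    refine h1.congr (fun j => ?_)
    ext x
    simp [Q]
  -- operators in the unit ball on which the functional is large
  have hT : ∀ j, ∃ T : X →L[𝕜] X, ‖T‖ ≤ 1 ∧ ε / 2 ≤ ‖φ ((Q j).comp T)‖ := by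
    intro j
    have h1 : ε ≤ ‖φ.comp (lmul (Q j))‖ := by
      have h2 := hMN j
      rw [neg_add_eq_sub, hlin] at h2
      exact h2
    obtain ⟨T, hT1, hT2⟩ := ContinuousLinearMap.exists_lt_apply_of_lt_opNorm
      (φ.comp (lmul (Q j))) (lt_of_lt_of_le (half_lt_self hε) h1)
    exact ⟨T, hT1.le, hT2.le⟩
  choose T hT1 hT2 using hT
  have hθ : ∀ j, ∃ θ : 𝕜, ‖θ‖ = 1 ∧ (‖φ ((Q j).comp (T j))‖ : 𝕜) = θ * φ ((Q j).comp (T j)) :=
    fun j => RCLike.exists_norm_eq_mul_self _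
  choose θ hθ1 hθ2 using hθ
  have hφ : 0 < ‖φ‖ + 1 := by positivity
  obtain ⟨s, a, ha0, ha1, ha⟩ := r4b_small Q hQfin (C + C) hQC hQsh (fun j => θ j • T j)
    (fun j => by rw [norm_smul, hθ1, one_mul]; exact hT1 j) (ε / (4 * (‖φ‖ + 1)))
    (by positivity)
  have h1 : φ (∑ j ∈ s, ((a j : ℝ) : 𝕜) • (Q j).comp (θ j • T j)) =
      ((∑ j ∈ s, a j * ‖φ ((Q j).comp (T j))‖ : ℝ) : 𝕜) := by
    rw [map_sum, RCLike.ofReal_sum]
    refine Finset.sum_congr rfl (fun j _ => ?_)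
    rw [map_smul, ContinuousLinearMap.comp_smul, map_smul, smul_eq_mul, smul_eq_mul, ← hθ2,
      RCLike.ofReal_mul]
  have h2 : ε / 2 ≤ ∑ j ∈ s, a j * ‖φ ((Q j).comp (T j))‖ := by
    calc ε / 2 = ∑ j ∈ s, a j * (ε / 2) := by rw [← Finset.sum_mul, ha1, one_mul]
      _ ≤ ∑ j ∈ s, a j * ‖φ ((Q j).comp (T j))‖ :=
        Finset.sum_le_sum (fun j hj => mul_le_mul_of_nonneg_left (hT2 j) (ha0 j hj))
  have h3 : ‖φ (∑ j ∈ s, ((a j : ℝ) : 𝕜) • (Q j).comp (θ j • T j))‖ ≤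
      ‖φ‖ * (ε / (4 * (‖φ‖ + 1))) :=
    (φ.le_opNorm _).trans (mul_le_mul_of_nonneg_left ha (norm_nonneg _))
  rw [h1, RCLike.norm_ofReal] at h3
  have h4 : ‖φ‖ * (ε / (4 * (‖φ‖ + 1))) ≤ ε / 4 := by
    rw [mul_div_assoc', div_le_div_iff₀ (by positivity) (by norm_num)]
    nlinarith [norm_nonneg φ]
  have h5 := le_abs_self (∑ j ∈ s, a j * ‖φ ((Q j).comp (T j))‖)
  linarith

end Pool.Agent.CALQ
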