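import Mathlib
import Pool.Agent.CALQ.Glue
import Pool.Agent.CALQ.Linf
import Pool.Agent.CALQ.R4b
import Pool.Agent.CALQ.BDc

/-!
# The criterion
-/

set_option autoImplicit false

open Filter Topology BoundedContinuousFunction

namespace Pool.Agent.CALQ

variable {𝕜 : Type*} [RCLike 𝕜] {X : Type*} [NormedAddCommGroup X] [NormedSpace 𝕜 X]

/-- `B(X)` is a Grothendieck space if the Calkin algebra is. -/
theorem full_of_calkin [CompleteSpace X] (hr : Pool.Agent.ANT.IsReflexive 𝕜 X)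
    {P : ℕ → X →L[𝕜] X} (hP : IsUFDD P)
    (hG : Pool.Agent.ANT.IsGrothendieck 𝕜 (Calkin 𝕜 X)) :
    Pool.Agent.ANT.IsGrothendieck 𝕜 (X →L[𝕜] X) := by
  obtain ⟨C, -, hC⟩ := bdd_of_tendsto (ps P) (ps_tendsto hP)
  exact grothendieck_of_calkin hr hP
    (fun φ => cauchy_compose (ps P) (ps_fin hP) C hC
      (fun f => shrinking hr (ps P) (ps_tendsto hP) (ps_comp hP) f) φ) hG

theorem criterion [CompleteSpace X] (hr : Pool.Agent.ANT.IsReflexive 𝕜 X)
    {F : ℕ → Submodule 𝕜 X} (hF : IsUnconditionalFDD F) :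
    [Pool.Agent.ANT.IsGrothendieck 𝕜 (X →L[𝕜] X),
      Pool.Agent.ANT.IsGrothendieck 𝕜 (Calkin 𝕜 X),
      ∀ t : ℕ → ℕ, StrictMono t → t 0 = 0 →
        Pool.Agent.ANT.IsGrothendieck 𝕜 (BlockDiag F t)].TFAE := by
  obtain ⟨P, hP, hPF⟩ := exists_proj hF
  tfae_have 1 → 2 := calkin_of_grothendieck
  tfae_have 2 → 1 := full_of_calkin hr hP
  tfae_have 1 → 3 := by
    intro h t ht h0
    rw [blockDiag_eq hP hPF t]
    exact bd_of_full hr hP ht h0 h
  tfae_have 3 → 2 := by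
    intro h
    refine calkin_of_bd hr hP (fun t ht h0 => ?_)
    have h1 := h t ht h0
    rwa [blockDiag_eq hP hPF t] at h1
  tfae_finish

theorem mult_compact [CompleteSpace X] (hr : Pool.Agent.ANT.IsReflexive 𝕜 X)
    {F : ℕ → Submodule 𝕜 X} (hF : IsUnconditionalFDD F)
    (h : ∀ T : X →L[𝕜] X, ∃ (a : ℕ → 𝕜) (K : X →L[𝕜] X), IsCompactOperator K ∧
      ∀ n, ∀ x ∈ F n, T x = a n • x + K x) :
    Pool.Agent.ANT.IsGrothendieck 𝕜 (X →L[𝕜] X) := by
  obtain ⟨P, hP, hPF⟩ := exists_proj hF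
  obtain ⟨D, hD⟩ := exists_mult hP
  refine full_of_calkin hr hP (calkin_of_mult D (linf_grothendieck 𝕜) (fun T => ?_))
  obtain ⟨a, K, hK, hT⟩ := h T
  obtain ⟨b, hb⟩ := exists_coeff hP hPF D hD (T - K) a (fun n x hx => by
    rw [ContinuousLinearMap.sub_apply, hT n x hx, add_sub_cancel_right])
  refine ⟨b, ?_⟩
  rw [← hb, sub_sub_cancel]
  exact hK

end Pool.Agent.CALQ
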