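import Pool.Agent.CALQ.BDb
import Pool.Agent.CALQ.Blocking

set_option autoImplicit false

open Filter Topology Finset

namespace Pool.Agent.CALQ

open Pool.Agent.ANT (IsReflexive IsGrothendieck)

variable {𝕜 : Type*} [RCLike 𝕜] {X : Type*} [NormedAddCommGroup X] [NormedSpace 𝕜 X]
variable {P : ℕ → X →L[𝕜] X}

/-- finite rank operators are compact -/
lemma fr_compact {F : X →L[𝕜] X} (hF : FR F) : IsCompactOperator F := by
  let V := LinearMap.range (F : X →ₗ[𝕜] X)
  have hV : FiniteDimensional 𝕜 V := hF
  let F' : X →L[𝕜] V := F.codRestrict V (fun x => ⟨x, rfl⟩)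
  have : ProperSpace V := FiniteDimensional.proper 𝕜 V
  have h1 : IsCompactOperator F' := isCompactOperator_of_locallyCompactSpace_dom F'
  exact h1.clm_comp V.subtypeL

/-- an operator with summable block rows is compact -/
lemma compact_of_blocks [CompleteSpace X] (hP : IsUFDD P) {s : ℕ → ℕ} (hs : StrictMono s)
    (h0 : s 0 = 0) (R : X →L[𝕜] X) (h : Summable fun i => ‖(blk P s i).comp R‖) :
    IsCompactOperator R := by
  have h1 : Summable fun i => (blk P s i).comp R := h.of_norm
  obtain ⟨V, hV⟩ := h1
  have h2 := hV.tendsto_sum_nat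
  have h3 : ∀ n, ∑ i ∈ range n, (blk P s i).comp R = (sumP P (range (s n))).comp R := by
    intro n
    rw [← sum_blk_range hs h0]
    ext x
    simp [_root_.sum_apply]
  simp only [h3] at h2
  have h4 : V = R := by
    ext x
    have h5 : Tendsto (fun n => ((sumP P (range (s n))).comp R) x) atTop (𝓝 (V x)) :=
      ((ContinuousLinearMap.apply 𝕜 X x).continuous.tendsto V).comp h2
    have h6 : Tendsto (fun n => (sumP P (range (s n))) (R x)) atTop (𝓝 (R x)) :=
      (sumP_lim hP (R x)).comp hs.tendsto_atTop
    exact tendsto_nhds_unique h5 h6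
  rw [h4] at h2
  refine isCompactOperator_of_tendsto h2 (Eventually.of_forall fun n => ?_)
  exact fr_compact (fr_comp_left (fr_sum hP _) R)

lemma sumP_Ico {a b : ℕ} (hab : a ≤ b) :
    sumP P (Ico a b) = sumP P (range b) - sumP P (range a) := by
  rw [eq_sub_iff_add_eq, ← sumP_union]
  · congr 1
    ext x
    simp only [Finset.mem_union, Finset.mem_range, Finset.mem_Ico]
    omega
  · rw [Finset.disjoint_left]
    intro x hx hx'
    rw [Finset.mem_Ico] at hx
    rw [Finset.mem_range] at hx'
    omega

lemma blk_sub (t : ℕ → ℕ) (j : ℕ) (h : t j ≤ t (j + 1)) :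
    blk P t j = sumP P (range (t (j + 1))) - sumP P (range (t j)) := by
  rw [blk_eq, sumP_Ico h]

lemma blk_comp_D (hP : IsUFDD P) {s t : ℕ → ℕ} {i j : ℕ} (h1 : t j ≤ s i)
    (h2 : s (i + 1) ≤ t (j + 1)) {T D : X →L[𝕜] X}
    (h : (blk P t j).comp D = (blk P t j).comp (T.comp (blk P t j))) :
    (blk P s i).comp D = (blk P s i).comp (T.comp (blk P t j)) := by
  have h3 : (blk P s i).comp (blk P t j) = blk P s i := by
    rw [blk_eq, blk_eq, sumP_comp hP]
    congr 1
    ext x
    simp only [Finset.mem_inter, Finset.mem_Ico]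
    omega
  calc (blk P s i).comp D = ((blk P s i).comp (blk P t j)).comp D := by rw [h3]
    _ = (blk P s i).comp ((blk P t j).comp D) := by rw [ContinuousLinearMap.comp_assoc]
    _ = (blk P s i).comp ((blk P t j).comp (T.comp (blk P t j))) := by rw [h]
    _ = ((blk P s i).comp (blk P t j)).comp (T.comp (blk P t j)) := by
        rw [ContinuousLinearMap.comp_assoc]
    _ = _ := by rw [h3]

theorem strictMono_even {s : ℕ → ℕ} (hs : StrictMono s) : StrictMono fun j => s (2 * j) :=
  fun a b hab => hs (by omega)

theorem strictMono_odd {s : ℕ → ℕ} (hs : StrictMono s) : StrictMono fun j => s (2 * j - 1) := by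
  refine strictMono_nat_of_lt_succ fun j => hs ?_
  rcases Nat.eq_zero_or_pos j with rfl | hj
  · simp
  · omega

/-- the tri-diagonal decomposition -/
theorem tri_compact [CompleteSpace X] (hP : IsUFDD P) {s : ℕ → ℕ} (hs : StrictMono s)
    (h0 : s 0 = 0) {m : ℕ} {T : X →L[𝕜] X}
    (hT : ∀ j, m ≤ j →
      ‖T.comp (sumP P (range (s j))) -
        (sumP P (range (s (j + 1)))).comp (T.comp (sumP P (range (s j))))‖ ≤ (1 / 2 : ℝ) ^ j ∧
      ‖(sumP P (range (s j))).comp T -
        ((sumP P (range (s j))).comp T).comp (sumP P (range (s (j + 1))))‖ ≤ (1 / 2 : ℝ) ^ j)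
    {D1 D2 D3 : X →L[𝕜] X}
    (h1 : ∀ j, (blk P (fun j => s (2 * j)) j).comp D1 =
      (blk P (fun j => s (2 * j)) j).comp (T.comp (blk P (fun j => s (2 * j)) j)))
    (h2 : ∀ j, (blk P (fun j => s (2 * j - 1)) j).comp D2 =
      (blk P (fun j => s (2 * j - 1)) j).comp (T.comp (blk P (fun j => s (2 * j - 1)) j)))
    (h3 : ∀ j, (blk P s j).comp D3 = (blk P s j).comp (T.comp (blk P s j))) :
    IsCompactOperator (T - D1 - D2 + D3) := by
  obtain ⟨K, hK1, hK⟩ := exists_bound hP
  have hK0 : 0 ≤ K := by linarith
  refine compact_of_blocks hP hs h0 _ ?_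
  have hgeo : Summable fun i : ℕ => K * (1 / 2 : ℝ) ^ (i - 1) + K * (1 / 2 : ℝ) ^ (i + 1) := by
    refine Summable.add ?_ ?_
    · refine Summable.mul_left _ ?_
      rw [← summable_nat_add_iff 1]
      simpa using summable_geometric_of_lt_one (by norm_num : (0 : ℝ) ≤ 1 / 2) (by norm_num)
    · refine Summable.mul_left _ ?_
      exact (summable_nat_add_iff 1).mpr
        (summable_geometric_of_lt_one (by norm_num : (0 : ℝ) ≤ 1 / 2) (by norm_num))
  refine Summable.of_norm_bounded_eventually_nat hgeo ?_
  filter_upwards [eventually_ge_atTop (m + 1)] with i hi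
  rw [norm_norm]
  have hm1 := hs.monotone (show i - 1 ≤ i by omega)
  have hm2 := hs.monotone (show i ≤ i + 1 by omega)
  have hm3 := hs.monotone (show i + 1 ≤ i + 2 by omega)
  -- the block row of the combination
  have hD3 : (blk P s i).comp D3 = (blk P s i).comp (T.comp
      (sumP P (range (s (i + 1))) - sumP P (range (s i)))) := by
    rw [h3 i, ← sumP_Ico hm2]
    rfl
  have hD12 : (blk P s i).comp D1 + (blk P s i).comp D2 = (blk P s i).comp (T.comp
      ((sumP P (range (s (i + 2))) - sumP P (range (s i))) +
        (sumP P (range (s (i + 1))) - sumP P (range (s (i - 1)))))) := by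
    rcases Nat.even_or_odd' i with ⟨j, hj | hj⟩
    · -- even
      have e1 : (blk P s i).comp D1 = (blk P s i).comp (T.comp
          (sumP P (range (s (i + 2))) - sumP P (range (s i)))) := by
        rw [blk_comp_D hP (t := fun j => s (2 * j)) (j := j) (by simp [hj])
          (hs.monotone (by omega)) (h1 j), blk_sub (fun j => s (2 * j)) j
          (hs.monotone (by omega))]
        have a1 : 2 * j = i := hj.symm
        have a2 : 2 * (j + 1) = i + 2 := by omega
        simp only [a1, a2]
      have e2 : (blk P s i).comp D2 = (blk P s i).comp (T.comp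
          (sumP P (range (s (i + 1))) - sumP P (range (s (i - 1))))) := by
        rw [blk_comp_D hP (t := fun j => s (2 * j - 1)) (j := j)
          (hs.monotone (by omega)) (hs.monotone (by omega)) (h2 j),
          blk_sub (fun j => s (2 * j - 1)) j (hs.monotone (by omega))]
        have a1 : 2 * j - 1 = i - 1 := by omega
        have a2 : 2 * (j + 1) - 1 = i + 1 := by omega
        simp only [a1, a2]
      rw [e1, e2, ← ContinuousLinearMap.comp_add, ← ContinuousLinearMap.comp_add]
    · -- odd
      have e1 : (blk P s i).comp D1 = (blk P s i).comp (T.comp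
          (sumP P (range (s (i + 1))) - sumP P (range (s (i - 1))))) := by
        rw [blk_comp_D hP (t := fun j => s (2 * j)) (j := j) (hs.monotone (by omega))
          (hs.monotone (by omega)) (h1 j), blk_sub (fun j => s (2 * j)) j
          (hs.monotone (by omega))]
        have a1 : 2 * j = i - 1 := by omega
        have a2 : 2 * (j + 1) = i + 1 := by omega
        simp only [a1, a2]
      have e2 : (blk P s i).comp D2 = (blk P s i).comp (T.comp
          (sumP P (range (s (i + 2))) - sumP P (range (s i)))) := by
        rw [blk_comp_D hP (t := fun j => s (2 * j - 1)) (j := j + 1)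
          (hs.monotone (by omega)) (hs.monotone (by omega)) (h2 (j + 1)),
          blk_sub (fun j => s (2 * j - 1)) (j + 1) (hs.monotone (by omega))]
        have a1 : 2 * (j + 1) - 1 = i := by omega
        have a2 : 2 * (j + 1 + 1) - 1 = i + 2 := by omega
        simp only [a1, a2]
      rw [e1, e2, add_comm, ← ContinuousLinearMap.comp_add, ← ContinuousLinearMap.comp_add]
  have hq0 : (blk P s i).comp (sumP P (range (s i))) = 0 := by
    rw [blk_eq, sumP_comp hP]
    have : Ico (s i) (s (i + 1)) ∩ range (s i) = ∅ := by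
      ext x
      simp only [Finset.mem_inter, Finset.mem_Ico, Finset.mem_range, Finset.notMem_empty,
        iff_false]
      omega
    rw [this]
    simp [sumP]
  have hq1 : (blk P s i).comp (sumP P (range (s (i + 1)))) = blk P s i := by
    rw [blk_eq, sumP_comp hP]
    congr 1
    ext x
    simp only [Finset.mem_inter, Finset.mem_Ico, Finset.mem_range]
    omega
  have hi1 : i - 1 + 1 = i := by omega
  have hE1 := (hT (i - 1) (by omega)).1
  rw [hi1] at hE1
  have hE2 := (hT (i + 1) (by omega)).2
  have hrow : (blk P s i).comp (T - D1 - D2 + D3) =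
      (blk P s i).comp (T.comp (sumP P (range (s (i - 1)))) -
        (sumP P (range (s i))).comp (T.comp (sumP P (range (s (i - 1)))))) +
      (blk P s i).comp ((sumP P (range (s (i + 1)))).comp T -
        ((sumP P (range (s (i + 1)))).comp T).comp (sumP P (range (s (i + 2))))) := by
    have l1 : (blk P s i).comp (T - D1 - D2 + D3) = (blk P s i).comp T -
        ((blk P s i).comp D1 + (blk P s i).comp D2) + (blk P s i).comp D3 := by
      rw [ContinuousLinearMap.comp_add, ContinuousLinearMap.comp_sub,
        ContinuousLinearMap.comp_sub]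
      abel
    have l2 : (blk P s i).comp ((sumP P (range (s i))).comp
        (T.comp (sumP P (range (s (i - 1)))))) = 0 := by
      rw [← ContinuousLinearMap.comp_assoc, hq0, ContinuousLinearMap.zero_comp]
    have l3 : (blk P s i).comp ((sumP P (range (s (i + 1)))).comp T) = (blk P s i).comp T := by
      rw [← ContinuousLinearMap.comp_assoc, hq1]
    have l4 : (blk P s i).comp (((sumP P (range (s (i + 1)))).comp T).comp
        (sumP P (range (s (i + 2))))) =
        (blk P s i).comp (T.comp (sumP P (range (s (i + 2))))) := by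
      rw [ContinuousLinearMap.comp_assoc, ← ContinuousLinearMap.comp_assoc, hq1]
    have r1 : (blk P s i).comp (T.comp (sumP P (range (s (i - 1)))) -
        (sumP P (range (s i))).comp (T.comp (sumP P (range (s (i - 1)))))) =
        (blk P s i).comp (T.comp (sumP P (range (s (i - 1))))) := by
      rw [ContinuousLinearMap.comp_sub, l2, sub_zero]
    have r2 : (blk P s i).comp ((sumP P (range (s (i + 1)))).comp T -
        ((sumP P (range (s (i + 1)))).comp T).comp (sumP P (range (s (i + 2))))) =
        (blk P s i).comp T - (blk P s i).comp (T.comp (sumP P (range (s (i + 2))))) := by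
      rw [ContinuousLinearMap.comp_sub, l3, l4]
    rw [l1, hD12, hD3, r1, r2]
    simp only [ContinuousLinearMap.comp_add, ContinuousLinearMap.comp_sub]
    abel
  rw [hrow]
  have hb := hK (Ico (s i) (s (i + 1)))
  refine (norm_add_le _ _).trans (add_le_add ?_ ?_)
  · refine (ContinuousLinearMap.opNorm_comp_le _ _).trans ?_
    exact mul_le_mul hb hE1 (norm_nonneg _) hK0
  · refine (ContinuousLinearMap.opNorm_comp_le _ _).trans ?_
    exact mul_le_mul hb hE2 (norm_nonneg _) hK0

end Pool.Agent.CALQ
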